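import Mathlib
import Pool.Agent.Helper47.Desc.Nil

/-!
# Zero loci of generic sections

`M₀` is a smooth projective variety over `F`, `K / F` a field extension, `a = (a_l)` a family of
elements of `K`, algebraically independent over `F`.  Sections `s_l` of a vector bundle of rank `r`
on `M₀` are given by their coordinates `f i q l` in trivialisations over the members `U i` of an
affine open cover.  The zero locus of the generic section `∑ a_l s_l` in `M₀ ×_F K` is the
`K`-scheme which represents pairs `(p, s)` of morphisms to `M₀` and `Spec K` over `F` on which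
`∑ a_l s_l` vanishes.
-/

universe u v w

open CategoryTheory AlgebraicGeometry Limits

namespace Pool.Agent.Helper47.Spread

open Pool.Agent.Helper10 Pool.Agent.Helper10.SmProjVar Pool.Agent.Helper47.Chow
open Pool.Agent.Helper47.Desc

noncomputable section

/-- The transcendence degree over `k` of the residue ring of `R` modulo the prime `𝔭`. -/
def dimOf {k R : Type u} [Field k] [CommRing R] (φ : k →+* R) (𝔭 : Ideal R) : ℕ :=
  letI : Algebra k (R ⧸ 𝔭) := ((Ideal.Quotient.mk 𝔭).comp φ).toAlgebra
  Cardinal.toNat (Algebra.trdeg k (R ⧸ 𝔭))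

/-- The morphism `Spec K ⟶ Spec F`. -/
def specMap (F K : Type u) [Field F] [Field K] [Algebra F K] :
    Spec (CommRingCat.of K) ⟶ Spec (CommRingCat.of F) :=
  Spec.map (CommRingCat.ofHom (algebraMap F K))

/-- The elements of `K` as functions on an open subset `W` of a scheme over `Spec K`. -/
def const {K : Type u} [Field K] {Z : Scheme.{u}} (s : Z ⟶ Spec (CommRingCat.of K))
    (W : Z.Opens) : K →+* Γ(Z, W) :=
  ((Scheme.ΓSpecIso (CommRingCat.of K)).inv ≫ s.appTop ≫
    Z.presheaf.map (homOfLE (le_top : W ≤ ⊤)).op).hom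

/-- The restriction of functions to a smaller open subset. -/
def res {Z : Scheme.{u}} {V W : Z.Opens} (h : V ≤ W) : Γ(Z, W) →+* Γ(Z, V) :=
  (Z.presheaf.map (homOfLE h).op).hom

/-- The pull-back of functions. -/
def pb {Z Z' : Scheme.{u}} (f : Z ⟶ Z') (W : Z'.Opens) : Γ(Z', W) →+* Γ(Z, f ⁻¹ᵁ W) :=
  (f.app W).hom

/-- Sections `s_l`, `l ∈ I`, of a vector bundle of rank `r` on `M₀`: `U i` is an affine open cover,
`f i q l` (`q < r`) are the coordinates of `s_l` in a trivialisation over `U i`, and the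
coordinates over `U i` and `U i'` are related by a transition matrix. -/
structure Sections {F : Type u} [Field F] (M₀ : SmProjVar F) (r : ℕ) (I : Type) where
  ι : Type u
  U : ι → M₀.toOver.left.Opens
  affine : ∀ i, IsAffineOpen (U i)
  cover : ∀ x : M₀.toOver.left, ∃ i, x ∈ U i
  f : ∀ i, Fin r → I → Γ(M₀.toOver.left, U i)
  glue : ∀ i i', ∃ G : Matrix (Fin r) (Fin r) Γ(M₀.toOver.left, U i ⊓ U i'), ∀ q l,
    res inf_le_right (f i' q l) = ∑ q', G q q' * res inf_le_left (f i q' l)

variable {F K : Type u} [Field F] [Field K] [Algebra F K] {M₀ : SmProjVar F} {r : ℕ} {I : Type}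
  [Fintype I]

/-- The `q`-th coordinate over `U i` of the section `∑ a_l s_l`, on a scheme `Z` with morphisms to
`M₀` and `Spec K`. -/
def eqn (S : Sections M₀ r I) (a : I → K) {Z : Scheme.{u}} (p : Z ⟶ M₀.toOver.left)
    (s : Z ⟶ Spec (CommRingCat.of K)) (i : S.ι) (q : Fin r) : Γ(Z, p ⁻¹ᵁ S.U i) :=
  ∑ l, const s (p ⁻¹ᵁ S.U i) (a l) * pb p (S.U i) (S.f i q l)

/-- `X`, with the projection `π` to `M₀`, is the zero locus of the section `∑ a_l s_l` in
`M₀ ×_F K`. -/
structure IsZeroLocus (S : Sections M₀ r I) (a : I → K) (X : SmProjVar K)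
    (π : X.toOver.left ⟶ M₀.toOver.left) : Prop where
  w : π ≫ M₀.toOver.hom = X.toOver.hom ≫ specMap F K
  zero : ∀ i q, eqn S a π X.toOver.hom i q = 0
  exists_lift : ∀ (Z : Scheme.{u}) (p : Z ⟶ M₀.toOver.left) (s : Z ⟶ Spec (CommRingCat.of K)),
    p ≫ M₀.toOver.hom = s ≫ specMap F K → (∀ i q, eqn S a p s i q = 0) →
      ∃ h : Z ⟶ X.toOver.left, h ≫ π = p ∧ h ≫ X.toOver.hom = s
  unique : ∀ (Z : Scheme.{u}) (h h' : Z ⟶ X.toOver.left), h ≫ π = h' ≫ π →
    h ≫ X.toOver.hom = h' ≫ X.toOver.hom → h = h'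

/-- The open subset `U i × U i'` of `M₀ × M₀`. -/
def box (S : Sections M₀ r I) (i i' : S.ι) : (M₀.prod M₀).toOver.left.Opens :=
  (fst M₀ M₀).left ⁻¹ᵁ S.U i ⊓ (snd M₀ M₀).left ⁻¹ᵁ S.U i'

/-- The coordinates of the `s_l` at the first point and at the second point, as functions on
`U i × U i'`: the columns of a `2 r × I`-matrix. -/
def coef (S : Sections M₀ r I) (i i' : S.ι) :
    Fin r ⊕ Fin r → I → Γ((M₀.prod M₀).toOver.left, box S i i')
  | Sum.inl q, l => res inf_le_left (pb (fst M₀ M₀).left (S.U i) (S.f i q l))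
  | Sum.inr q, l => res inf_le_right (pb (snd M₀ M₀).left (S.U i') (S.f i' q l))

/-- Any two distinct points of `M₀` impose `2 r` independent conditions on the combinations of the
`s_l`: at every point of `M₀ × M₀` outside the diagonal a `2 r × 2 r`-minor of the matrix of
coordinates is not zero. -/
def Separates (S : Sections M₀ r I) : Prop :=
  ∀ x : (M₀.prod M₀).toOver.left, x ∉ Set.range (diag M₀).left → ∃ (i i' : S.ι)
    (J : Fin r ⊕ Fin r → I), x ∈ (M₀.prod M₀).toOver.left.basicOpen
      (Matrix.det (Matrix.of fun c c' => coef S i i' c (J c')))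

/-- The morphism `X ×_K X ⟶ M₀ ×_F M₀`. -/
def theta {X : SmProjVar K} (π : X.toOver.left ⟶ M₀.toOver.left)
    (w : π ≫ M₀.toOver.hom = X.toOver.hom ≫ specMap F K) :
    (X.prod X).toOver.left ⟶ (M₀.prod M₀).toOver.left :=
  pullback.lift (f := M₀.toOver.hom) (g := M₀.toOver.hom) ((fst X X).left ≫ π)
    ((snd X X).left ≫ π)
    (by
      rw [Category.assoc, Category.assoc, w, ← Category.assoc, ← Category.assoc, prod_condition])

lemma theta_fst {X : SmProjVar K} (π : X.toOver.left ⟶ M₀.toOver.left)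
    (w : π ≫ M₀.toOver.hom = X.toOver.hom ≫ specMap F K) :
    theta π w ≫ (fst M₀ M₀).left = (fst X X).left ≫ π := pullback.lift_fst _ _ _

lemma theta_snd {X : SmProjVar K} (π : X.toOver.left ⟶ M₀.toOver.left)
    (w : π ≫ M₀.toOver.hom = X.toOver.hom ≫ specMap F K) :
    theta π w ≫ (snd M₀ M₀).left = (snd X X).left ≫ π := pullback.lift_snd _ _ _

lemma theta_hom {X : SmProjVar K} (π : X.toOver.left ⟶ M₀.toOver.left)
    (w : π ≫ M₀.toOver.hom = X.toOver.hom ≫ specMap F K) :
    theta π w ≫ (M₀.prod M₀).toOver.hom = (X.prod X).toOver.hom ≫ specMap F K := by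
  change theta π w ≫ (fst M₀ M₀).left ≫ M₀.toOver.hom = ((fst X X).left ≫ X.toOver.hom) ≫ _
  rw [← Category.assoc, theta_fst, Category.assoc, w, Category.assoc]

/-- The automorphism of `K` given by a semilinear automorphism. -/
def fieldMap {X : SmProjVar K} (g : SemiAut X) : K →+* K := (Spec.preimage g.base).hom

lemma specMap_fieldMap {X : SmProjVar K} (g : SemiAut X) :
    Spec.map (CommRingCat.ofHom (fieldMap g)) = g.base := by
  unfold fieldMap
  exact Spec.map_preimage g.base

lemma fieldMap_mul {X : SmProjVar K} (g h : SemiAut X) (x : K) :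
    fieldMap (g * h) x = fieldMap h (fieldMap g x) := by
  have : Spec.preimage (g * h).base = Spec.preimage g.base ≫ Spec.preimage h.base := by
    apply Spec.map_injective
    rw [Spec.map_comp, Spec.map_preimage, Spec.map_preimage, Spec.map_preimage, SemiAut.base_mul]
  unfold fieldMap
  rw [this]
  rfl

lemma fieldMap_one {X : SmProjVar K} (x : K) : fieldMap (1 : SemiAut X) x = x := by
  have : Spec.preimage (1 : SemiAut X).base = 𝟙 _ := by
    apply Spec.map_injective
    rw [Spec.map_preimage, Spec.map_id, SemiAut.base_one]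
  unfold fieldMap
  rw [this]
  rfl

/-- The group of the semilinear automorphisms of `X` over `M₀` which fix `F` and the `a_l`. -/
def galGroup (a : I → K) {X : SmProjVar K} (π : X.toOver.left ⟶ M₀.toOver.left) :
    Subgroup (SemiAut X) where
  carrier := {g | g.sch ≫ π = π ∧ (∀ c : F, fieldMap g (algebraMap F K c) = algebraMap F K c) ∧
    ∀ l, fieldMap g (a l) = a l}
  one_mem' := ⟨by rw [SemiAut.sch_one, Category.id_comp], fun c => fieldMap_one _,
    fun l => fieldMap_one _⟩
  mul_mem' := by
    rintro g h ⟨h1, h2, h3⟩ ⟨h1', h2', h3'⟩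
    refine ⟨?_, fun c => ?_, fun l => ?_⟩
    · rw [SemiAut.sch_mul, Category.assoc, h1, h1']
    · rw [fieldMap_mul, h2, h2']
    · rw [fieldMap_mul, h3, h3']
  inv_mem' := by
    rintro g ⟨h1, h2, h3⟩
    refine ⟨?_, fun c => ?_, fun l => ?_⟩
    · calc g⁻¹.sch ≫ π = g⁻¹.sch ≫ g.sch ≫ π := by rw [h1]
        _ = π := by rw [← Category.assoc, SemiAut.sch_inv_sch, Category.id_comp]
    · have := fieldMap_mul g g⁻¹ (algebraMap F K c)
      rw [mul_inv_cancel, fieldMap_one, h2] at this
      exact this.symm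
    · have := fieldMap_mul g g⁻¹ (a l)
      rw [mul_inv_cancel, fieldMap_one, h3] at this
      exact this.symm

/-- The morphism `j × j : X × X ⟶ M × M`. -/
def sqHom {X M : SmProjVar K} (j : X.toOver ⟶ M.toOver) :
    (X.prod X).toOver ⟶ (M.prod M).toOver :=
  lift (fst X X ≫ j) (snd X X ≫ j)

variable {L : Type v} [Field L] [CharZero L] {W : WeilCohomology.{u, v, w} K L}

/-- The pull-back of the class of a subvariety is represented by a cycle which is supported on the
inverse image of the subvariety, and has positive coefficients at those irreducible components of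
the inverse image which have the expected dimension. -/
structure HasSupport (C : ChowTheory W) : Prop where
  pull_support : ∀ {X Y : SmProjVar K} (f : X.toOver ⟶ Y.toOver) (y : Y.toOver.left),
    ∃ z : QCycles X, cls X z = C.ops.pull f (ptCls Y y) ∧
      (∀ x : X.toOver.left, z.coeff x ≠ 0 →
        y ⤳ f.left x ∧ X.pointDim x + Y.dim = X.dim + Y.pointDim y) ∧
      (∀ x : X.toOver.left, y ⤳ f.left x →
        (∀ x' : X.toOver.left, x' ⤳ x → y ⤳ f.left x' → x' = x) →
          X.pointDim x + Y.dim = X.dim + Y.pointDim y → 0 < z.coeff x)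

/-- The correspondences on `X` of the form `c Δ + (j × j)^* z` with `z ∈ CH^d(M × M)`,
`d = dim X`. -/
def good (C : ChowTheory W) {X M : SmProjVar K} (j : X.toOver ⟶ M.toOver) :
    Submodule ℚ (CH (X.prod X)) :=
  Submodule.span ℚ ({C.Δ X} ∪ {γ | ∃ z ∈ CHi (M.prod M) X.dim, γ = C.ops.pull (sqHom j) z})

end

end Pool.Agent.Helper47.Spread
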