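import Mathlib
import Pool.Agent.Helper47.Spread.Defs

/-!
# Extension to the ambient variety
-/

universe u v w

open CategoryTheory AlgebraicGeometry Limits

namespace Pool.Agent.Helper47.Spread

open Pool.Agent.Helper10 Pool.Agent.Helper10.SmProjVar Pool.Agent.Helper47.Chow
open Pool.Agent.Helper47.Desc

noncomputable section

variable {F K : Type u} [Field F] [Field K] [Algebra F K] {M₀ : SmProjVar F} {r : ℕ} {I : Type}
  [Fintype I]

lemma exists_semiAut_of_base_aux {M : SmProjVar K} (pM : M.toOver.left ⟶ M₀.toOver.left)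
    (hM : IsPullback pM M.toOver.hom M₀.toOver.hom (specMap F K))
    (b b' : Spec (CommRingCat.of K) ⟶ Spec (CommRingCat.of K)) (hb : b ≫ b' = 𝟙 _)
    (hb' : b' ≫ b = 𝟙 _) (hs : b ≫ specMap F K = specMap F K)
    (hs' : b' ≫ specMap F K = specMap F K) :
    ∃ h : SemiAut M, h.base = b ∧ h.sch ≫ pM = pM := by
  have key : ∀ c : Spec (CommRingCat.of K) ⟶ Spec (CommRingCat.of K),
      c ≫ specMap F K = specMap F K →
      pM ≫ M₀.toOver.hom = (M.toOver.hom ≫ c) ≫ specMap F K := by
    intro c hc
    rw [Category.assoc, hc, hM.w]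
  let u : M.toOver.left ⟶ M.toOver.left := hM.lift pM (M.toOver.hom ≫ b) (key b hs)
  let u' : M.toOver.left ⟶ M.toOver.left := hM.lift pM (M.toOver.hom ≫ b') (key b' hs')
  have u1 : u ≫ pM = pM := hM.lift_fst _ _ _
  have u2 : u ≫ M.toOver.hom = M.toOver.hom ≫ b := hM.lift_snd _ _ _
  have u1' : u' ≫ pM = pM := hM.lift_fst _ _ _
  have u2' : u' ≫ M.toOver.hom = M.toOver.hom ≫ b' := hM.lift_snd _ _ _
  have e1 : u ≫ u' = 𝟙 _ := by
    apply hM.hom_ext
    · rw [Category.assoc, u1', u1, Category.id_comp]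
    · rw [Category.assoc, u2', ← Category.assoc, u2, Category.assoc, hb, Category.comp_id,
        Category.id_comp]
  have e2 : u' ≫ u = 𝟙 _ := by
    apply hM.hom_ext
    · rw [Category.assoc, u1, u1', Category.id_comp]
    · rw [Category.assoc, u2, ← Category.assoc, u2', Category.assoc, hb', Category.comp_id,
        Category.id_comp]
  refine ⟨{ hom := Arrow.homMk (f := Arrow.mk M.toOver.hom) (g := Arrow.mk M.toOver.hom) u b u2
            inv := Arrow.homMk (f := Arrow.mk M.toOver.hom) (g := Arrow.mk M.toOver.hom) u' b' u2'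
            hom_inv_id := Arrow.hom_ext _ _ e1 hb
            inv_hom_id := Arrow.hom_ext _ _ e2 hb' }, rfl, u1⟩

theorem exists_semiAut_base {M X : SmProjVar K} (pM : M.toOver.left ⟶ M₀.toOver.left)
    (hM : IsPullback pM M.toOver.hom M₀.toOver.hom (specMap F K)) (j : X.toOver ⟶ M.toOver)
    (a : I → K) (g : SemiAut X) (hg : g ∈ galGroup (F := F) a (j.left ≫ pM)) :
    ∃ h : SemiAut (M.prod M), (Desc.sq g).base = h.base ∧
      (sqHom j).left ≫ h.sch = (Desc.sq g).sch ≫ (sqHom j).left := by
  obtain ⟨h1, h2, -⟩ := hg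
  have hs : g.base ≫ specMap F K = specMap F K := by
    rw [← specMap_fieldMap g]
    unfold specMap
    rw [← Spec.map_comp, ← CommRingCat.ofHom_comp]
    congr 2
    ext c
    exact h2 c
  have hs' : SemiAut.base g⁻¹ ≫ specMap F K = specMap F K := by
    conv_lhs => rw [← hs]
    rw [← Category.assoc, SemiAut.base_inv_base, Category.id_comp]
  obtain ⟨h, hb, hp⟩ := exists_semiAut_of_base_aux pM hM g.base (SemiAut.base g⁻¹)
    (SemiAut.base_base_inv g) (SemiAut.base_inv_base g) hs hs'
  have hj : Comm g h j := by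
    unfold Comm
    apply hM.hom_ext
    · rw [Category.assoc, hp, Category.assoc, h1]
    · rw [Category.assoc, SemiAut.sch_hom, hb, Category.assoc, ← Category.assoc, Over.w j,
        SemiAut.sch_hom]
  refine ⟨Desc.sq h, ?_, ?_⟩
  · change g.base = h.base
    exact hb.symm
  · exact comm_lift h h rfl (Desc.sq g) ((comm_fst g g rfl).comp hj) ((comm_snd g g rfl).comp hj)

end

end Pool.Agent.Helper47.Spread
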