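import Mathlib
import Pool.Agent.Helper47.Spread.Defs

/-!
# Finite orbits of ideals
-/

universe u v w

open CategoryTheory AlgebraicGeometry Limits

namespace Pool.Agent.Helper47.Spread

open Pool.Agent.Helper10 Pool.Agent.Helper10.SmProjVar Pool.Agent.Helper47.Chow
open Pool.Agent.Helper47.Desc

noncomputable section

private theorem b6_exists_finset {K A T : Type u} [Field K] [CommRing A] [CommRing T]
    (α : A →+* T) (κ : K →+* T)
    (hgen : Subring.closure (Set.range α ∪ Set.range κ) = ⊤) (t : T) :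
    ∃ S : Set K, S.Finite ∧ t ∈ Subring.closure (Set.range α ∪ κ '' S) := by
  have ht : t ∈ Subring.closure (Set.range α ∪ Set.range κ) := by
    rw [hgen]
    exact Subring.mem_top t
  have mono : ∀ {S S' : Set K}, S ⊆ S' → Subring.closure (Set.range α ∪ κ '' S) ≤
      Subring.closure (Set.range α ∪ κ '' S') := fun h =>
    Subring.closure_mono (Set.union_subset_union_right _ (Set.image_mono h))
  induction ht using Subring.closure_induction with
  | mem x hx =>
    rcases hx with hx | ⟨y, rfl⟩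
    · exact ⟨∅, Set.finite_empty, Subring.subset_closure (Or.inl hx)⟩
    · exact ⟨{y}, Set.finite_singleton y, Subring.subset_closure (Or.inr ⟨y, rfl, rfl⟩)⟩
  | zero => exact ⟨∅, Set.finite_empty, Subring.zero_mem _⟩
  | one => exact ⟨∅, Set.finite_empty, Subring.one_mem _⟩
  | add x y _ _ ihx ihy =>
    obtain ⟨S, hS, hx⟩ := ihx
    obtain ⟨S', hS', hy⟩ := ihy
    exact ⟨S ∪ S', hS.union hS', Subring.add_mem _ (mono Set.subset_union_left hx)
      (mono Set.subset_union_right hy)⟩
  | neg x _ ih =>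
    obtain ⟨S, hS, hx⟩ := ih
    exact ⟨S, hS, Subring.neg_mem _ hx⟩
  | mul x y _ _ ihx ihy =>
    obtain ⟨S, hS, hx⟩ := ihx
    obtain ⟨S', hS', hy⟩ := ihy
    exact ⟨S ∪ S', hS.union hS', Subring.mul_mem _ (mono Set.subset_union_left hx)
      (mono Set.subset_union_right hy)⟩

theorem finite_comap_orbit {K A T : Type u} [Field K] [CommRing A] [CommRing T]
    [IsNoetherianRing T] (α : A →+* T) (κ : K →+* T)
    (hgen : Subring.closure (Set.range α ∪ Set.range κ) = ⊤) {G : Type*} (σ : G → K ≃+* K)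
    (τ : G → T ≃+* T) (hα : ∀ g x, τ g (α x) = α x) (hκ : ∀ g x, τ g (κ x) = κ (σ g x))
    (hfin : ∀ x : K, (Set.range fun g => (σ g).symm x).Finite) (𝔔 : Ideal T) :
    (Set.range fun g => 𝔔.comap (τ g : T →+* T)).Finite := by
  classical
  obtain ⟨s, hs⟩ := (inferInstance : IsNoetherian T T).noetherian 𝔔
  choose S hSfin hS using b6_exists_finset α κ hgen
  set W : Set K := ⋃ t ∈ s, S t with hW
  have hWfin : W.Finite := s.finite_toSet.biUnion fun t _ => hSfin t
  have hαs : ∀ g x, (τ g).symm (α x) = α x := by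
    intro g x
    rw [RingEquiv.symm_apply_eq, hα]
  have hκs : ∀ g x, (τ g).symm (κ x) = κ ((σ g).symm x) := by
    intro g x
    rw [RingEquiv.symm_apply_eq, hκ, RingEquiv.apply_symm_apply]
  have key : ∀ g g' : G, (∀ x ∈ W, (σ g).symm x = (σ g').symm x) →
      𝔔.comap (τ g : T →+* T) = 𝔔.comap (τ g' : T →+* T) := by
    intro g g' h
    have hgen' : ∀ t ∈ s, (τ g).symm t = (τ g').symm t := by
      intro t ht
      have h1 : Subring.closure (Set.range α ∪ κ '' (S t)) ≤
          RingHom.eqLocus ((τ g).symm : T →+* T) ((τ g').symm : T →+* T) := by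
        rw [Subring.closure_le]
        rintro x (⟨y, rfl⟩ | ⟨y, hy, rfl⟩)
        · show (τ g).symm (α y) = (τ g').symm (α y)
          rw [hαs, hαs]
        · show (τ g).symm (κ y) = (τ g').symm (κ y)
          rw [hκs, hκs, h y (Set.mem_biUnion (by exact_mod_cast ht) hy)]
      exact h1 (hS t)
    have hmap : ∀ g : G, 𝔔.comap (τ g : T →+* T) = 𝔔.map ((τ g).symm : T →+* T) := by
      intro g
      exact (Ideal.map_symm (τ g)).symm
    rw [hmap, hmap]
    have hs' : 𝔔 = Ideal.span (s : Set T) := hs.symm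
    rw [hs', Ideal.map_span, Ideal.map_span]
    congr 1
    ext y
    constructor
    · rintro ⟨t, ht, rfl⟩
      exact ⟨t, ht, (hgen' t ht).symm⟩
    · rintro ⟨t, ht, rfl⟩
      exact ⟨t, ht, hgen' t ht⟩
  haveI : Finite W := hWfin
  have hR : (Set.range fun g : G => fun x : W => (σ g).symm (x : K)).Finite := by
    refine Set.Finite.subset (Set.Finite.pi' (ι := W) (κ := fun _ => K)
      (t := fun x => Set.range fun g => (σ g).symm (x : K)) (fun x => hfin x)) ?_
    rintro _ ⟨g, rfl⟩ x
    exact ⟨g, rfl⟩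
  refine (hR.image fun r => if h : ∃ g : G, (fun x : W => (σ g).symm (x : K)) = r then
    𝔔.comap (τ h.choose : T →+* T) else ⊥).subset ?_
  rintro _ ⟨g, rfl⟩
  refine ⟨fun x : W => (σ g).symm (x : K), ⟨g, rfl⟩, ?_⟩
  have hex : ∃ g' : G, (fun x : W => (σ g').symm (x : K)) = fun x : W => (σ g).symm (x : K) :=
    ⟨g, rfl⟩
  simp only [dif_pos hex]
  refine key _ _ fun x hx => ?_
  exact congrFun hex.choose_spec ⟨x, hx⟩

end

end Pool.Agent.Helper47.Spread
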