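import Mathlib
import Pool.Agent.Helper47.Spread.Defs

/-!
# Generation
-/

universe u v w

open CategoryTheory AlgebraicGeometry Limits

namespace Pool.Agent.Helper47.Spread

open Pool.Agent.Helper10 Pool.Agent.Helper10.SmProjVar Pool.Agent.Helper47.Chow
open Pool.Agent.Helper47.Desc

noncomputable section


theorem closure_eq_top {F K A T : Type u} [Field F] [Field K] [Algebra F K] [CommRing A]
    [CommRing T] (φ : F →+* A) (α : A →+* T) (κ : K →+* T)
    (hF : α.comp φ = κ.comp (algebraMap F K)) {I : Type} [Fintype I] (a : I → K)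
    {Q : Type} [Fintype Q] (m : Q → I → A)
    (hz : ∀ c, ∑ l, κ (a l) * α (m c l) = 0)
    (hlift : ∀ (B : Type u) [CommRing B] (α' : A →+* B) (κ' : K →+* B),
      α'.comp φ = κ'.comp (algebraMap F K) → (∀ c, ∑ l, κ' (a l) * α' (m c l) = 0) →
        ∃ γ : T →+* B, γ.comp α = α' ∧ γ.comp κ = κ')
    (huniq : ∀ (B : Type u) [CommRing B] (γ γ' : T →+* B), γ.comp α = γ'.comp α →
      γ.comp κ = γ'.comp κ → γ = γ') :
    Subring.closure (Set.range α ∪ Set.range κ) = ⊤ := by
  classical
  set S : Subring T := Subring.closure (Set.range α ∪ Set.range κ) with hS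
  have hα : ∀ x, α x ∈ S := fun x => Subring.subset_closure (Or.inl ⟨x, rfl⟩)
  have hκ : ∀ x, κ x ∈ S := fun x => Subring.subset_closure (Or.inr ⟨x, rfl⟩)
  let α' : A →+* S := α.codRestrict S hα
  let κ' : K →+* S := κ.codRestrict S hκ
  have hα' : S.subtype.comp α' = α := by
    ext x
    rfl
  have hκ' : S.subtype.comp κ' = κ := by
    ext x
    rfl
  have hinj : Function.Injective S.subtype := Subtype.val_injective
  obtain ⟨γ, hγ, hγ'⟩ := hlift S α' κ' (by
      ext x
      have := congrArg (fun f : F →+* T => f x) hF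
      exact this) (by
      intro c
      apply hinj
      rw [map_sum, map_zero]
      simp only [map_mul]
      exact hz c)
  have h1 : S.subtype.comp γ = RingHom.id T := by
    apply huniq
    · rw [RingHom.comp_assoc, hγ, hα', RingHom.id_comp]
    · rw [RingHom.comp_assoc, hγ', hκ', RingHom.id_comp]
  rw [eq_top_iff]
  intro x _
  have h2 := congrArg (fun f : T →+* T => f x) h1
  have h3 : (γ x : T) = x := h2
  rw [← h3]
  exact (γ x).2

end

end Pool.Agent.Helper47.Spread
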