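import Mathlib
import Pool.Agent.Helper47.Spread.Defs

/-!
# Affine charts
-/

universe u v w

open CategoryTheory AlgebraicGeometry Limits

namespace Pool.Agent.Helper47.Spread

open Pool.Agent.Helper10 Pool.Agent.Helper10.SmProjVar Pool.Agent.Helper47.Chow
open Pool.Agent.Helper47.Desc

noncomputable section

variable {F K : Type u} [Field F] [Field K] [Algebra F K] {M₀ : SmProjVar F} {r : ℕ} {I : Type}
  [Fintype I]

theorem isAffineOpen_box (S : Sections M₀ r I) (i i' : S.ι) : IsAffineOpen (box S i i') := by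
  have h1 : IsAffine (S.U i).toScheme := S.affine i
  have h2 : IsAffine (S.U i').toScheme := S.affine i'
  let j := pullback.map ((S.U i).ι ≫ M₀.toOver.hom) ((S.U i').ι ≫ M₀.toOver.hom)
    M₀.toOver.hom M₀.toOver.hom (S.U i).ι (S.U i').ι (𝟙 _) (Category.comp_id _)
    (Category.comp_id _)
  have hj : IsOpenImmersion j := inferInstance
  have hr : box S i i' = j.opensRange := by
    apply TopologicalSpace.Opens.ext
    change _ = Set.range j
    rw [Scheme.Pullback.range_map]
    rw [Scheme.Opens.range_ι, Scheme.Opens.range_ι]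
    rfl
  rw [hr]
  exact isAffineOpen_opensRange j

lemma lift_eq_comp_aux {C : Type*} [Category C] [HasPullbacks C] {X M S T : C} (x : X ⟶ S)
    (m : M ⟶ T) (i : S ⟶ T) (π : X ⟶ M) (w : π ≫ m = x ≫ i)
    (h : (pullback.fst x x ≫ π) ≫ m = (pullback.snd x x ≫ π) ≫ m) :
    pullback.lift (f := m) (g := m) (pullback.fst x x ≫ π) (pullback.snd x x ≫ π) h =
      pullback.mapDesc x x i ≫ pullback.map (x ≫ i) (x ≫ i) m m π π (𝟙 _)
        ((Category.comp_id _).trans w.symm) ((Category.comp_id _).trans w.symm) := by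
  have e1 : pullback.mapDesc x x i ≫ pullback.fst (x ≫ i) (x ≫ i) = pullback.fst x x :=
    (pullback.lift_fst _ _ _).trans (Category.comp_id _)
  have e2 : pullback.mapDesc x x i ≫ pullback.snd (x ≫ i) (x ≫ i) = pullback.snd x x :=
    (pullback.lift_snd _ _ _).trans (Category.comp_id _)
  have e3 : pullback.map (x ≫ i) (x ≫ i) m m π π (𝟙 _) ((Category.comp_id _).trans w.symm)
      ((Category.comp_id _).trans w.symm) ≫ pullback.fst m m = pullback.fst _ _ ≫ π :=
    pullback.lift_fst _ _ _
  have e4 : pullback.map (x ≫ i) (x ≫ i) m m π π (𝟙 _) ((Category.comp_id _).trans w.symm)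
      ((Category.comp_id _).trans w.symm) ≫ pullback.snd m m = pullback.snd _ _ ≫ π :=
    pullback.lift_snd _ _ _
  apply pullback.hom_ext
  · exact (pullback.lift_fst _ _ _).trans (by
      rw [Category.assoc, e3, ← Category.assoc, e1])
  · exact (pullback.lift_snd _ _ _).trans (by
      rw [Category.assoc, e4, ← Category.assoc, e2])

lemma isAffineHom_lift_aux {X M S T : Scheme.{u}} (x : X ⟶ S) (m : M ⟶ T) (i : S ⟶ T)
    [IsSeparated i] (π : X ⟶ M) [IsAffineHom π] (w : π ≫ m = x ≫ i)
    (h : (pullback.fst x x ≫ π) ≫ m = (pullback.snd x x ≫ π) ≫ m) :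
    IsAffineHom (pullback.lift (f := m) (g := m) (pullback.fst x x ≫ π)
      (pullback.snd x x ≫ π) h) := by
  have ha := MorphismProperty.pullback_map (P := @IsAffineHom) (f := x ≫ i) (g := x ≫ i)
    (f' := m) (g' := m) (i₁ := π) (i₂ := π) inferInstance inferInstance w.symm w.symm
  have h1 : IsAffineHom (pullback.mapDesc x x i) := inferInstance
  have he := lift_eq_comp_aux x m i π w h
  exact he ▸ MorphismProperty.comp_mem @IsAffineHom _ _ h1 ha

theorem isAffineHom_theta {X : SmProjVar K} (π : X.toOver.left ⟶ M₀.toOver.left)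
    [IsAffineHom π] (w : π ≫ M₀.toOver.hom = X.toOver.hom ≫ specMap F K) :
    IsAffineHom (theta π w) := by
  have : IsSeparated (specMap F K) := inferInstance
  exact isAffineHom_lift_aux X.toOver.hom M₀.toOver.hom (specMap F K) π w _

end

end Pool.Agent.Helper47.Spread
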