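import Mathlib
import Pool.Agent.Helper47.Spread.Defs

/-!
# The universal property on charts
-/

universe u v w

open CategoryTheory AlgebraicGeometry Limits

namespace Pool.Agent.Helper47.Spread

open Pool.Agent.Helper10 Pool.Agent.Helper10.SmProjVar Pool.Agent.Helper47.Chow
open Pool.Agent.Helper47.Desc

noncomputable section

variable {F K : Type u} [Field F] [Field K] [Algebra F K] {M₀ : SmProjVar F} {r : ℕ} {I : Type}
  [Fintype I]

namespace C5

/-- Pull-back and restriction of functions. -/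
def ap {Z Z' : Scheme.{u}} (f : Z ⟶ Z') (W : Z'.Opens) (V : Z.Opens) (h : V ≤ f ⁻¹ᵁ W) :
    Γ(Z', W) →+* Γ(Z, V) := (f.appLE W V h).hom

lemma res_pb {Z Z' : Scheme.{u}} (f : Z ⟶ Z') (W : Z'.Opens) (V : Z.Opens) (h : V ≤ f ⁻¹ᵁ W)
    (x : Γ(Z', W)) : res h (pb f W x) = ap f W V h x := rfl

lemma pb_eq_ap {Z Z' : Scheme.{u}} (f : Z ⟶ Z') (W : Z'.Opens) :
    pb f W = ap f W _ le_rfl := by
  unfold pb ap
  rw [Scheme.Hom.app_eq_appLE]

lemma res_ap {Z Z' : Scheme.{u}} (f : Z ⟶ Z') (W : Z'.Opens) (V V' : Z.Opens) (h : V ≤ f ⁻¹ᵁ W)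
    (h' : V' ≤ V) (x : Γ(Z', W)) : res h' (ap f W V h x) = ap f W V' (h'.trans h) x := by
  unfold res ap
  rw [← CommRingCat.comp_apply, Scheme.Hom.appLE_map]

lemma ap_res {Z Z' : Scheme.{u}} (f : Z ⟶ Z') (W W' : Z'.Opens) (V : Z.Opens) (h : V ≤ f ⁻¹ᵁ W)
    (h' : W ≤ W') (x : Γ(Z', W')) :
    ap f W V h (res h' x) = ap f W' V (h.trans (fun _ hx => h' hx)) x := by
  unfold res ap
  rw [← CommRingCat.comp_apply, Scheme.Hom.map_appLE]

lemma ap_ap {Z Z' Z'' : Scheme.{u}} (f : Z ⟶ Z') (g : Z' ⟶ Z'') (W : Z''.Opens) (V : Z'.Opens)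
    (U : Z.Opens) (h : V ≤ g ⁻¹ᵁ W) (h' : U ≤ f ⁻¹ᵁ V) (x : Γ(Z'', W)) :
    ap f V U h' (ap g W V h x) = ap (f ≫ g) W U (h'.trans (fun _ hx => h hx)) x := by
  unfold ap
  rw [← CommRingCat.comp_apply, Scheme.Hom.appLE_comp_appLE]

lemma ap_congr {Z Z' : Scheme.{u}} {f g : Z ⟶ Z'} (hfg : f = g) (W : Z'.Opens) (V : Z.Opens)
    (h : V ≤ f ⁻¹ᵁ W) (x : Γ(Z', W)) : ap f W V h x = ap g W V (hfg ▸ h) x := by
  subst hfg
  rfl

lemma le_pre_top {Z Z' : Scheme.{u}} (f : Z ⟶ Z') (W : Z.Opens) : W ≤ f ⁻¹ᵁ ⊤ := le_top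

lemma le_pre_comp {Z Z' Z'' : Scheme.{u}} {f : Z ⟶ Z'} {g : Z' ⟶ Z''} {W : Z.Opens}
    {U : Z''.Opens} (h : W ≤ (f ≫ g) ⁻¹ᵁ U) : W ≤ f ⁻¹ᵁ (g ⁻¹ᵁ U) := h

lemma const_eq_ap {Z : Scheme.{u}} (s : Z ⟶ Spec (CommRingCat.of K)) (W : Z.Opens) (x : K) :
    const s W x = ap s ⊤ W (le_pre_top s W)
      ((Scheme.ΓSpecIso (CommRingCat.of K)).inv.hom x) := by
  unfold const ap
  rfl

lemma ap_const {Z Z' : Scheme.{u}} (f : Z ⟶ Z') (s : Z' ⟶ Spec (CommRingCat.of K)) (W : Z'.Opens)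
    (V : Z.Opens) (h : V ≤ f ⁻¹ᵁ W) (x : K) :
    ap f W V h (const s W x) = const (f ≫ s) V x := by
  rw [const_eq_ap, const_eq_ap, ap_ap]

lemma res_const {Z : Scheme.{u}} (s : Z ⟶ Spec (CommRingCat.of K)) (W V : Z.Opens) (h : V ≤ W)
    (x : K) : res h (const s W x) = const s V x := by
  rw [const_eq_ap, const_eq_ap, res_ap]

lemma const_specMap {Z : Scheme.{u}} (s : Z ⟶ Spec (CommRingCat.of K)) (W : Z.Opens) (x : F) :
    const (s ≫ specMap F K) W x = const s W (algebraMap F K x) := by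
  rw [const_eq_ap, const_eq_ap, ← ap_ap (V := ⊤) (h := le_pre_top _ _) (h' := le_pre_top _ _)]
  congr 1
  have := Scheme.ΓSpecIso_inv_naturality (CommRingCat.ofHom (algebraMap F K))
  have h2 := congrArg (fun f => f.hom x) this
  simp only [CommRingCat.hom_comp, RingHom.comp_apply, CommRingCat.hom_ofHom] at h2
  rw [show (algebraMap F K) x = (CommRingCat.ofHom (algebraMap F K)).hom x from rfl]
  refine Eq.trans ?_ h2.symm
  unfold ap specMap
  rw [Scheme.Hom.appTop, Scheme.Hom.app_eq_appLE]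
  rfl

lemma const_congr {Z : Scheme.{u}} {s s' : Z ⟶ Spec (CommRingCat.of K)} (h : s = s') (W : Z.Opens)
    (x : K) : const s W x = const s' W x := by rw [h]

end C5

open C5

theorem const_comp_theta {X : SmProjVar K} (π : X.toOver.left ⟶ M₀.toOver.left)
    (w : π ≫ M₀.toOver.hom = X.toOver.hom ≫ specMap F K)
    (V : (M₀.prod M₀).toOver.left.Opens) :
    (pb (theta π w) V).comp (const (M₀.prod M₀).toOver.hom V) =
      (const (X.prod X).toOver.hom (theta π w ⁻¹ᵁ V)).comp (algebraMap F K) := by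
  ext x
  simp only [RingHom.comp_apply]
  rw [pb_eq_ap, ap_const, const_congr (theta_hom π w), const_specMap]

namespace C5

omit [Algebra F K] in
lemma eqn_ap {S : Sections M₀ r I} {a : I → K} {Z : Scheme.{u}} {p : Z ⟶ M₀.toOver.left}
    {s : Z ⟶ Spec (CommRingCat.of K)} {i : S.ι} {q : Fin r} (h : eqn S a p s i q = 0)
    {Z' : Scheme.{u}} (g : Z' ⟶ Z) (W : Z'.Opens) (hW : W ≤ (g ≫ p) ⁻¹ᵁ S.U i) :
    ∑ l, const (g ≫ s) W (a l) * ap (g ≫ p) (S.U i) W hW (S.f i q l) = 0 := by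
  have h1 := congrArg (ap g (p ⁻¹ᵁ S.U i) W (le_pre_comp hW)) h
  rw [eqn, map_sum, map_zero] at h1
  rw [← h1]
  refine Finset.sum_congr rfl fun l _ => ?_
  rw [map_mul, ap_const, pb_eq_ap, ap_ap]

omit [Fintype I] in
lemma le_box_fst {S : Sections M₀ r I} {i i' : S.ι} {V : (M₀.prod M₀).toOver.left.Opens}
    (hV : V ≤ box S i i') : V ≤ (fst M₀ M₀).left ⁻¹ᵁ S.U i := fun _ hx => (hV hx).1

omit [Fintype I] in
lemma le_box_snd {S : Sections M₀ r I} {i i' : S.ι} {V : (M₀.prod M₀).toOver.left.Opens}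
    (hV : V ≤ box S i i') : V ≤ (snd M₀ M₀).left ⁻¹ᵁ S.U i' := fun _ hx => (hV hx).2

lemma res_coef_inl {S : Sections M₀ r I} {i i' : S.ι} {V : (M₀.prod M₀).toOver.left.Opens}
    (hV : V ≤ box S i i') (q : Fin r) (l : I) :
    res hV (coef S i i' (Sum.inl q) l) =
      ap (fst M₀ M₀).left (S.U i) V (le_box_fst hV) (S.f i q l) := by
  have hV' : V ≤ (fst M₀ M₀).left ⁻¹ᵁ S.U i ⊓ (snd M₀ M₀).left ⁻¹ᵁ S.U i' := hV
  change res hV' (res inf_le_left (pb (fst M₀ M₀).left (S.U i) (S.f i q l))) = _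
  rw [pb_eq_ap, res_ap, res_ap]

lemma res_coef_inr {S : Sections M₀ r I} {i i' : S.ι} {V : (M₀.prod M₀).toOver.left.Opens}
    (hV : V ≤ box S i i') (q : Fin r) (l : I) :
    res hV (coef S i i' (Sum.inr q) l) =
      ap (snd M₀ M₀).left (S.U i') V (le_box_snd hV) (S.f i' q l) := by
  have hV' : V ≤ (fst M₀ M₀).left ⁻¹ᵁ S.U i ⊓ (snd M₀ M₀).left ⁻¹ᵁ S.U i' := hV
  change res hV' (res inf_le_right (pb (snd M₀ M₀).left (S.U i') (S.f i' q l))) = _
  rw [pb_eq_ap, res_ap, res_ap]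

end C5

theorem chart_zero {S : Sections M₀ r I} {a : I → K} {X : SmProjVar K}
    {π : X.toOver.left ⟶ M₀.toOver.left} (hX : IsZeroLocus S a X π) (i i' : S.ι)
    (V : (M₀.prod M₀).toOver.left.Opens) (hV : V ≤ box S i i') (c : Fin r ⊕ Fin r) :
    ∑ l, const (X.prod X).toOver.hom (theta π hX.w ⁻¹ᵁ V) (a l) *
      pb (theta π hX.w) V (res hV (coef S i i' c l)) = 0 := by
  rcases c with q | q
  · have hle : theta π hX.w ⁻¹ᵁ V ≤ ((fst X X).left ≫ π) ⁻¹ᵁ S.U i := by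
      rw [← theta_fst π hX.w]
      exact fun x hx => (hV hx).1
    have h1 := eqn_ap (hX.zero i q) (fst X X).left (theta π hX.w ⁻¹ᵁ V) hle
    rw [← h1]
    refine Finset.sum_congr rfl fun l _ => ?_
    congr 1
    rw [res_coef_inl, pb_eq_ap, ap_ap]
    exact ap_congr (theta_fst π hX.w) _ _ _ _
  · have hle : theta π hX.w ⁻¹ᵁ V ≤ ((snd X X).left ≫ π) ⁻¹ᵁ S.U i' := by
      rw [← theta_snd π hX.w]
      exact fun x hx => (hV hx).2
    have h1 := eqn_ap (hX.zero i' q) (snd X X).left (theta π hX.w ⁻¹ᵁ V) hle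
    rw [← h1]
    refine Finset.sum_congr rfl fun l _ => ?_
    congr 1
    · exact const_congr (Over.w (snd X X)).symm _ _
    · rw [res_coef_inr, pb_eq_ap, ap_ap]
      exact ap_congr (theta_snd π hX.w) _ _ _ _

/-! ### Morphisms from an affine scheme -/

namespace C5

lemma fromSpec_comp {Z : Scheme.{u}} {V : Z.Opens} (hV : IsAffineOpen V)
    (s : Z ⟶ Spec (CommRingCat.of K)) :
    hV.fromSpec ≫ s = Spec.map (CommRingCat.ofHom (const s V)) := by
  have h := IsAffineOpen.SpecMap_appLE_fromSpec s (isAffineOpen_top (Spec (CommRingCat.of K))) hV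
    le_top
  rw [← h, IsAffineOpen.fromSpec_top, Scheme.isoSpec_Spec_inv, ← Spec.map_comp]
  rfl

variable {B : Type u} [CommRing B]

lemma const_spec (κ' : K →+* B) (x : K) :
    const (Spec.map (CommRingCat.ofHom κ')) (⊤ : (Spec (CommRingCat.of B)).Opens) x =
      (Scheme.ΓSpecIso (CommRingCat.of B)).inv (κ' x) := by
  rw [const_eq_ap]
  have := Scheme.ΓSpecIso_inv_naturality (CommRingCat.ofHom κ')
  have h2 := congrArg (fun f => f.hom x) this
  simp only [CommRingCat.hom_comp, RingHom.comp_apply, CommRingCat.hom_ofHom] at h2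
  refine Eq.trans ?_ h2.symm
  unfold ap
  rw [Scheme.Hom.appTop, Scheme.Hom.app_eq_appLE]
  rfl

lemma point_le {Z : Scheme.{u}} {V : Z.Opens} (hV : IsAffineOpen V) (α : Γ(Z, V) →+* B) :
    (⊤ : (Spec (CommRingCat.of B)).Opens) ≤
      (Spec.map (CommRingCat.ofHom α) ≫ hV.fromSpec) ⁻¹ᵁ V := by
  rintro x -
  have : (Spec.map (CommRingCat.ofHom α) x) ∈ hV.fromSpec ⁻¹ᵁ V := by
    rw [hV.fromSpec_preimage_self]
    trivial
  exact this

lemma ap_point {Z : Scheme.{u}} {V : Z.Opens} (hV : IsAffineOpen V) (α : Γ(Z, V) →+* B)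
    (x : Γ(Z, V)) :
    ap (Spec.map (CommRingCat.ofHom α) ≫ hV.fromSpec) V ⊤ (point_le hV α) x =
      (Scheme.ΓSpecIso (CommRingCat.of B)).inv (α x) := by
  have h1 : (⊤ : (Spec Γ(Z, V)).Opens) ≤ hV.fromSpec ⁻¹ᵁ V := by
    rw [hV.fromSpec_preimage_self]
  rw [← ap_ap (V := ⊤) (h := h1) (h' := le_top)]
  have h2 : ap hV.fromSpec V ⊤ h1 x = (Scheme.ΓSpecIso Γ(Z, V)).inv x := by
    unfold ap
    have : hV.fromSpec.appLE V ⊤ h1 = (Scheme.ΓSpecIso Γ(Z, V)).inv := by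
      unfold Scheme.Hom.appLE
      rw [hV.fromSpec_app_self, Category.assoc, ← Functor.map_comp]
      refine Eq.trans ?_ (Category.comp_id _)
      congr 1
    rw [this]
  rw [h2]
  have := Scheme.ΓSpecIso_inv_naturality (CommRingCat.ofHom α)
  have h3 := congrArg (fun f => f.hom x) this
  simp only [CommRingCat.hom_comp, RingHom.comp_apply, CommRingCat.hom_ofHom] at h3
  refine Eq.trans ?_ h3.symm
  unfold ap
  rw [Scheme.Hom.appTop, Scheme.Hom.app_eq_appLE]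
  rfl

theorem exists_point_lift {S : Sections M₀ r I} {a : I → K} {X : SmProjVar K}
    {π : X.toOver.left ⟶ M₀.toOver.left} (hX : IsZeroLocus S a X π) {Z : Scheme.{u}}
    (p : Z ⟶ M₀.toOver.left) (s : Z ⟶ Spec (CommRingCat.of K))
    (hps : p ≫ M₀.toOver.hom = s ≫ specMap F K) (i : S.ι) (hi : (⊤ : Z.Opens) ≤ p ⁻¹ᵁ S.U i)
    (h : ∀ q, ∑ l, const s ⊤ (a l) * ap p (S.U i) ⊤ hi (S.f i q l) = 0) :
    ∃ h : Z ⟶ X.toOver.left, h ≫ π = p ∧ h ≫ X.toOver.hom = s := by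
  refine hX.exists_lift Z p s hps fun i' q => ?_
  obtain ⟨G, hG⟩ := S.glue i i'
  have hle : p ⁻¹ᵁ S.U i' ≤ p ⁻¹ᵁ (S.U i ⊓ S.U i') := fun x hx => ⟨hi trivial, hx⟩
  have key : ∀ l, pb p (S.U i') (S.f i' q l) =
      ∑ q', ap p (S.U i ⊓ S.U i') _ hle (G q q') *
        res le_top (ap p (S.U i) ⊤ hi (S.f i q' l)) := by
    intro l
    rw [pb_eq_ap]
    have h1 : ap p (S.U i') (p ⁻¹ᵁ S.U i') le_rfl (S.f i' q l) =
        ap p (S.U i ⊓ S.U i') _ hle (res inf_le_right (S.f i' q l)) := by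
      rw [ap_res]
    rw [h1, hG q l, map_sum]
    refine Finset.sum_congr rfl fun q' _ => ?_
    rw [map_mul, ap_res, res_ap]
  unfold eqn
  simp_rw [key, Finset.mul_sum]
  rw [Finset.sum_comm]
  refine Finset.sum_eq_zero fun q' _ => ?_
  have h2 := congrArg (res (le_top : p ⁻¹ᵁ S.U i' ≤ ⊤)) (h q')
  rw [map_sum, map_zero] at h2
  calc _ = ap p (S.U i ⊓ S.U i') _ hle (G q q') * ∑ l, res (le_top : p ⁻¹ᵁ S.U i' ≤ ⊤)
        (const s ⊤ (a l) * ap p (S.U i) ⊤ hi (S.f i q' l)) := by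
        rw [Finset.mul_sum]
        refine Finset.sum_congr rfl fun l _ => ?_
        rw [map_mul, res_const]
        ring
    _ = 0 := by rw [h2, mul_zero]

end C5

theorem chart_lift {S : Sections M₀ r I} {a : I → K} {X : SmProjVar K}
    {π : X.toOver.left ⟶ M₀.toOver.left} (hX : IsZeroLocus S a X π) (i i' : S.ι)
    (V : (M₀.prod M₀).toOver.left.Opens) (hV : V ≤ box S i i') (hVa : IsAffineOpen V)
    (hU : IsAffineOpen (theta π hX.w ⁻¹ᵁ V)) (B : Type u) [CommRing B]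
    (α' : Γ((M₀.prod M₀).toOver.left, V) →+* B) (κ' : K →+* B)
    (h : α'.comp (const (M₀.prod M₀).toOver.hom V) = κ'.comp (algebraMap F K))
    (h' : ∀ c, ∑ l, κ' (a l) * α' (res hV (coef S i i' c l)) = 0) :
    ∃ γ : Γ((X.prod X).toOver.left, theta π hX.w ⁻¹ᵁ V) →+* B,
      γ.comp (pb (theta π hX.w) V) = α' ∧
        γ.comp (const (X.prod X).toOver.hom (theta π hX.w ⁻¹ᵁ V)) = κ' := by
  set ν : Spec (CommRingCat.of B) ⟶ (M₀.prod M₀).toOver.left :=
    Spec.map (CommRingCat.ofHom α') ≫ hVa.fromSpec with hν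
  set s : Spec (CommRingCat.of B) ⟶ Spec (CommRingCat.of K) :=
    Spec.map (CommRingCat.ofHom κ') with hs
  have hνs : ν ≫ (M₀.prod M₀).toOver.hom = s ≫ specMap F K := by
    rw [hν, Category.assoc, fromSpec_comp, ← Spec.map_comp, hs, specMap, ← Spec.map_comp,
      ← CommRingCat.ofHom_comp, ← CommRingCat.ofHom_comp, h]
  have hνV : (⊤ : (Spec (CommRingCat.of B)).Opens) ≤ ν ⁻¹ᵁ V := point_le hVa α'
  have hlift : ∀ (p : (M₀.prod M₀).toOver.left ⟶ M₀.toOver.left)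
      (hp : p ≫ M₀.toOver.hom = (M₀.prod M₀).toOver.hom) (j : S.ι) (hj : V ≤ p ⁻¹ᵁ S.U j)
      (hz : ∀ q, ∑ l, κ' (a l) * α' (ap p (S.U j) V hj (S.f j q l)) = 0),
      ∃ g : Spec (CommRingCat.of B) ⟶ X.toOver.left, g ≫ π = ν ≫ p ∧
        g ≫ X.toOver.hom = s := by
    intro p hp j hj hz
    refine exists_point_lift hX (ν ≫ p) s ?_ j (fun x hx => hj (hνV hx)) ?_
    · rw [Category.assoc, hp, hνs]
    · intro q
      have h1 := congrArg (Scheme.ΓSpecIso (CommRingCat.of B)).inv.hom (hz q)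
      rw [map_sum, map_zero] at h1
      rw [← h1]
      refine Finset.sum_congr rfl fun l _ => ?_
      rw [map_mul]
      congr 1
      · exact const_spec κ' (a l)
      · have h2 := ap_point hVa α' (ap p (S.U j) V hj (S.f j q l))
        rw [ap_ap] at h2
        exact h2
  obtain ⟨g₁, hg₁, hg₁'⟩ := hlift (fst M₀ M₀).left (Over.w _) i (le_box_fst hV) (by
    intro q
    have := h' (Sum.inl q)
    simp only [res_coef_inl] at this
    exact this)
  obtain ⟨g₂, hg₂, hg₂'⟩ := hlift (snd M₀ M₀).left (Over.w _) i' (le_box_snd hV) (by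
    intro q
    have := h' (Sum.inr q)
    simp only [res_coef_inr] at this
    exact this)
  let g : Spec (CommRingCat.of B) ⟶ (X.prod X).toOver.left :=
    pullback.lift (f := X.toOver.hom) (g := X.toOver.hom) g₁ g₂ (by rw [hg₁', hg₂'])
  have hgf : g ≫ (fst X X).left = g₁ := pullback.lift_fst _ _ _
  have hgs : g ≫ (snd X X).left = g₂ := pullback.lift_snd _ _ _
  have hgθ : g ≫ theta π hX.w = ν := by
    apply pullback.hom_ext
    · change (g ≫ theta π hX.w) ≫ (fst M₀ M₀).left = ν ≫ (fst M₀ M₀).left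
      rw [Category.assoc, theta_fst, ← Category.assoc, hgf, hg₁]
    · change (g ≫ theta π hX.w) ≫ (snd M₀ M₀).left = ν ≫ (snd M₀ M₀).left
      rw [Category.assoc, theta_snd, ← Category.assoc, hgs, hg₂]
  have hgh : g ≫ (X.prod X).toOver.hom = s := by
    rw [← Over.w (fst X X), ← Category.assoc, hgf, hg₁']
  have hgU : (⊤ : (Spec (CommRingCat.of B)).Opens) ≤ g ⁻¹ᵁ (theta π hX.w ⁻¹ᵁ V) := by
    intro x hx
    have h3 : x ∈ ν ⁻¹ᵁ V := hνV hx
    rw [← hgθ] at h3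
    exact h3
  have hcancel : ∀ b : B, (Scheme.ΓSpecIso (CommRingCat.of B)).hom.hom
      ((Scheme.ΓSpecIso (CommRingCat.of B)).inv.hom b) = b := by
    intro b
    have := congrArg (fun f => f.hom b) (Scheme.ΓSpecIso (CommRingCat.of B)).inv_hom_id
    exact this
  refine ⟨(Scheme.ΓSpecIso (CommRingCat.of B)).hom.hom.comp (ap g _ ⊤ hgU), ?_, ?_⟩
  · ext x
    simp only [RingHom.comp_apply]
    rw [pb_eq_ap, ap_ap, ap_congr hgθ]
    have h2 := ap_point hVa α' x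
    exact (congrArg _ h2).trans (hcancel _)
  · ext x
    simp only [RingHom.comp_apply]
    rw [ap_const, const_congr hgh]
    have h2 := const_spec κ' x
    exact (congrArg _ h2).trans (hcancel _)

theorem chart_unique {S : Sections M₀ r I} {a : I → K} {X : SmProjVar K}
    {π : X.toOver.left ⟶ M₀.toOver.left} (hX : IsZeroLocus S a X π)
    (V : (M₀.prod M₀).toOver.left.Opens) (hVa : IsAffineOpen V)
    (hU : IsAffineOpen (theta π hX.w ⁻¹ᵁ V)) (B : Type u) [CommRing B]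
    (γ γ' : Γ((X.prod X).toOver.left, theta π hX.w ⁻¹ᵁ V) →+* B)
    (h : γ.comp (pb (theta π hX.w) V) = γ'.comp (pb (theta π hX.w) V))
    (h' : γ.comp (const (X.prod X).toOver.hom (theta π hX.w ⁻¹ᵁ V)) =
      γ'.comp (const (X.prod X).toOver.hom (theta π hX.w ⁻¹ᵁ V))) : γ = γ' := by
  have hθ : ∀ δ : Γ((X.prod X).toOver.left, theta π hX.w ⁻¹ᵁ V) →+* B,
      (Spec.map (CommRingCat.ofHom δ) ≫ hU.fromSpec) ≫ theta π hX.w =
        Spec.map (CommRingCat.ofHom (δ.comp (pb (theta π hX.w) V))) ≫ hVa.fromSpec := by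
    intro δ
    rw [Category.assoc, ← IsAffineOpen.SpecMap_appLE_fromSpec (theta π hX.w) hVa hU le_rfl,
      ← Category.assoc, ← Spec.map_comp, ← Scheme.Hom.app_eq_appLE]
    rfl
  have hh : ∀ δ : Γ((X.prod X).toOver.left, theta π hX.w ⁻¹ᵁ V) →+* B,
      (Spec.map (CommRingCat.ofHom δ) ≫ hU.fromSpec) ≫ (X.prod X).toOver.hom =
        Spec.map (CommRingCat.ofHom
          (δ.comp (const (X.prod X).toOver.hom (theta π hX.w ⁻¹ᵁ V)))) := by
    intro δ
    rw [Category.assoc, fromSpec_comp, ← Spec.map_comp]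
    rfl
  have e1 : (Spec.map (CommRingCat.ofHom γ) ≫ hU.fromSpec) ≫ theta π hX.w =
      (Spec.map (CommRingCat.ofHom γ') ≫ hU.fromSpec) ≫ theta π hX.w := by
    rw [hθ, hθ, h]
  have e2 : (Spec.map (CommRingCat.ofHom γ) ≫ hU.fromSpec) ≫ (X.prod X).toOver.hom =
      (Spec.map (CommRingCat.ofHom γ') ≫ hU.fromSpec) ≫ (X.prod X).toOver.hom := by
    rw [hh, hh, h']
  have e3 : Spec.map (CommRingCat.ofHom γ) ≫ hU.fromSpec =
      Spec.map (CommRingCat.ofHom γ') ≫ hU.fromSpec := by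
    apply pullback.hom_ext
    · change _ ≫ (fst X X).left = _ ≫ (fst X X).left
      apply hX.unique
      · rw [Category.assoc, ← theta_fst π hX.w, ← Category.assoc, e1, Category.assoc, theta_fst]
        rfl
      · rw [Category.assoc, Over.w, e2, ← Over.w (fst X X), ← Category.assoc]
    · change _ ≫ (snd X X).left = _ ≫ (snd X X).left
      apply hX.unique
      · rw [Category.assoc, ← theta_snd π hX.w, ← Category.assoc, e1, Category.assoc, theta_snd]
        rfl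
      · rw [Category.assoc, Over.w, e2, ← Over.w (snd X X), ← Category.assoc]
  have e4 : Spec.map (CommRingCat.ofHom γ) = Spec.map (CommRingCat.ofHom γ') :=
    (cancel_mono hU.fromSpec).1 e3
  have e5 := Spec.map_injective e4
  exact congrArg CommRingCat.Hom.hom e5

end

end Pool.Agent.Helper47.Spread
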