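import Mathlib
import Pool.Agent.Helper47.Spread.Defs

/-!
# Points of affine open subsets
-/

universe u v w

open CategoryTheory AlgebraicGeometry Limits

namespace Pool.Agent.Helper47.Spread

open Pool.Agent.Helper10 Pool.Agent.Helper10.SmProjVar Pool.Agent.Helper47.Chow
open Pool.Agent.Helper47.Desc

noncomputable section


theorem specializes_iff {Z : Scheme.{u}} {U : Z.Opens} (hU : IsAffineOpen U) {x y : Z}
    (hx : x ∈ U) (hy : y ∈ U) :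
    x ⤳ y ↔ (hU.primeIdealOf ⟨x, hx⟩).asIdeal ≤ (hU.primeIdealOf ⟨y, hy⟩).asIdeal := by
  have h1 := hU.fromSpec_primeIdealOf ⟨x, hx⟩
  have h2 := hU.fromSpec_primeIdealOf ⟨y, hy⟩
  have hemb : Topology.IsInducing hU.fromSpec := (hU.isOpenImmersion_fromSpec.base_open).isInducing
  have h3 : (hU.primeIdealOf ⟨x, hx⟩).asIdeal ≤ (hU.primeIdealOf ⟨y, hy⟩).asIdeal ↔
      (hU.primeIdealOf ⟨x, hx⟩) ⤳ (hU.primeIdealOf ⟨y, hy⟩) :=
    PrimeSpectrum.le_iff_specializes _ _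
  have h4 := hemb.specializes_iff (x := hU.primeIdealOf ⟨x, hx⟩) (y := hU.primeIdealOf ⟨y, hy⟩)
  rw [h1, h2] at h4
  rw [h3]
  exact h4

theorem exists_pt {Z : Scheme.{u}} {U : Z.Opens} (hU : IsAffineOpen U) (𝔔 : Ideal Γ(Z, U))
    (h𝔔 : 𝔔.IsPrime) : ∃ x, ∃ hx : x ∈ U, (hU.primeIdealOf ⟨x, hx⟩).asIdeal = 𝔔 := by
  have hx : hU.fromSpec ⟨𝔔, h𝔔⟩ ∈ U := by
    have : hU.fromSpec ⟨𝔔, h𝔔⟩ ∈ Set.range hU.fromSpec := ⟨_, rfl⟩
    rw [hU.range_fromSpec] at this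
    exact this
  refine ⟨hU.fromSpec ⟨𝔔, h𝔔⟩, hx, ?_⟩
  have h1 := hU.fromSpec_primeIdealOf ⟨_, hx⟩
  have hinj : Function.Injective hU.fromSpec :=
    (hU.isOpenImmersion_fromSpec.base_open).injective
  have := hinj h1
  rw [this]

theorem mem_primeIdealOf_iff {Z : Scheme.{u}} {U : Z.Opens} (hU : IsAffineOpen U) {x : Z}
    (hx : x ∈ U) (b : Γ(Z, U)) :
    b ∈ (hU.primeIdealOf ⟨x, hx⟩).asIdeal ↔ x ∉ Z.basicOpen b := by
  have h1 := hU.fromSpec_primeIdealOf ⟨x, hx⟩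
  have h2 := hU.fromSpec_preimage_basicOpen b
  have h3 : hU.primeIdealOf ⟨x, hx⟩ ∈ hU.fromSpec ⁻¹ᵁ Z.basicOpen b ↔ x ∈ Z.basicOpen b := by
    change hU.fromSpec (hU.primeIdealOf ⟨x, hx⟩) ∈ Z.basicOpen b ↔ _
    rw [h1]
  rw [← h3, h2]
  change _ ↔ ¬ (b ∉ _)
  rw [not_not]

end

end Pool.Agent.Helper47.Spread
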