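import Mathlib
import Pool.Agent.Helper47.Spread.Defs

/-!
# Dimension of points and of primes
-/

universe u v w

open CategoryTheory AlgebraicGeometry Limits

namespace Pool.Agent.Helper47.Spread

open Pool.Agent.Helper10 Pool.Agent.Helper10.SmProjVar Pool.Agent.Helper47.Chow
open Pool.Agent.Helper47.Desc

noncomputable section

variable {K : Type u} [Field K]

private lemma trdeg_fraction {k B L : Type u} [Field k] [CommRing B] [IsDomain B] [Field L]
    [Algebra k B] [Algebra k L] [Algebra B L] [IsScalarTower k B L]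
    (hinj : Function.Injective (algebraMap B L))
    (hs : ∀ z : L, ∃ a s : B, s ≠ 0 ∧ z * algebraMap B L s = algebraMap B L a) :
    Algebra.trdeg k B = Algebra.trdeg k L := by
  have : FaithfulSMul B L := (faithfulSMul_iff_algebraMap_injective B L).2 hinj
  have : FaithfulSMul k B := (faithfulSMul_iff_algebraMap_injective k B).2
    (algebraMap k B).injective
  have halg : Algebra.IsAlgebraic B L := by
    refine ⟨fun z => ?_⟩
    obtain ⟨a, s, hs0, h⟩ := hs z
    refine ⟨Polynomial.C s * Polynomial.X - Polynomial.C a, ?_, ?_⟩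
    · intro h0
      have := congrArg (fun q => Polynomial.coeff q 1) h0
      simp at this
      exact hs0 this
    · simp only [map_sub, map_mul, Polynomial.aeval_C, Polynomial.aeval_X]
      rw [← h]
      ring
  rw [← _root_.trdeg_add_eq k B (A := L), _root_.trdeg_eq_zero (R := B) (A := L), add_zero]

private lemma trdeg_quot {k R L : Type u} [Field k] [CommRing R] [Field L] (φ : k →+* R)
    (ev : R →+* L) (ψ : k →+* L) (h : ev.comp φ = ψ)
    (hs : ∀ z : L, ∃ a s : R, ev s ≠ 0 ∧ z * ev s = ev a) (𝔭 : Ideal R)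
    (hp : RingHom.ker ev = 𝔭) :
    @Algebra.trdeg k L _ _ ψ.toAlgebra =
      @Algebra.trdeg k (R ⧸ 𝔭) _ _ ((Ideal.Quotient.mk 𝔭).comp φ).toAlgebra := by
  subst hp
  subst h
  let _ : Algebra k (R ⧸ RingHom.ker ev) :=
    ((Ideal.Quotient.mk (RingHom.ker ev)).comp φ).toAlgebra
  let _ : Algebra k L := (ev.comp φ).toAlgebra
  let _ : Algebra (R ⧸ RingHom.ker ev) L := (RingHom.kerLift ev).toAlgebra
  have : IsScalarTower k (R ⧸ RingHom.ker ev) L := IsScalarTower.of_algebraMap_eq (fun x => rfl)
  have : (RingHom.ker ev).IsPrime := RingHom.ker_isPrime ev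
  refine (trdeg_fraction (k := k) (B := R ⧸ RingHom.ker ev) (L := L)
    (RingHom.kerLift_injective ev) (fun z => ?_)).symm
  obtain ⟨a, s, hs0, h⟩ := hs z
  refine ⟨Ideal.Quotient.mk _ a, Ideal.Quotient.mk _ s, fun h0 => hs0 ?_, h⟩
  rw [Ideal.Quotient.eq_zero_iff_mem, RingHom.mem_ker] at h0
  exact h0

private lemma const_evaluation (Y : SmProjVar K) {U : Y.toOver.left.Opens}
    {y : Y.toOver.left} (hy : y ∈ U) :
    (Y.toOver.left.evaluation U y hy).hom.comp (const Y.toOver.hom U) =
      (Spec.preimage (Y.toOver.left.fromSpecResidueField y ≫ Y.toOver.hom)).hom := by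
  have key : ((Scheme.ΓSpecIso (CommRingCat.of K)).inv ≫ Y.toOver.hom.appTop ≫
      Y.toOver.left.presheaf.map (homOfLE (le_top : U ≤ ⊤)).op) ≫
        Y.toOver.left.evaluation U y hy =
      Spec.preimage (Y.toOver.left.fromSpecResidueField y ≫ Y.toOver.hom) := by
    have h1 := Scheme.ΓSpecIso_inv_naturality
      (Spec.preimage (Y.toOver.left.fromSpecResidueField y ≫ Y.toOver.hom))
    have h3 : (Y.toOver.left.fromSpecResidueField y ≫ Y.toOver.hom).appTop =
        Y.toOver.hom.appTop ≫ (Y.toOver.left.presheaf.germ ⊤ y trivial ≫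
          (Scheme.ΓSpecIso (Y.toOver.left.presheaf.stalk y)).inv ≫
            (Spec (Y.toOver.left.presheaf.stalk y)).presheaf.map (homOfLE le_top).op) ≫
              (Spec.map (Y.toOver.left.residue y)).appTop := by
      rw [Scheme.Hom.comp_appTop, Scheme.fromSpecResidueField, Scheme.Hom.comp_appTop,
        Scheme.fromSpecStalk_appTop]
    rw [Spec.map_preimage, h3] at h1
    have h2 := Scheme.ΓSpecIso_inv_naturality (Y.toOver.left.residue y)
    rw [← cancel_mono (Scheme.ΓSpecIso (Y.toOver.left.residueField y)).inv, h1,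
      ← Scheme.germ_residue]
    simp only [Category.assoc]
    rw [h2, TopCat.Presheaf.germ_res_assoc]
    simp
  exact congrArg CommRingCat.Hom.hom key

theorem pointDim_eq_dimOf (Y : SmProjVar K) {U : Y.toOver.left.Opens} (hU : IsAffineOpen U)
    {y : Y.toOver.left} (hy : y ∈ U) :
    Y.pointDim y = dimOf (const Y.toOver.hom U) (hU.primeIdealOf ⟨y, hy⟩).asIdeal := by
  unfold SmProjVar.pointDim dimOf
  refine congrArg Cardinal.toNat ?_
  refine trdeg_quot (const Y.toOver.hom U) (Y.toOver.left.evaluation U y hy).hom _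
    (const_evaluation Y hy) ?_ _ ?_
  · intro z
    let _ := TopCat.Presheaf.algebra_section_stalk Y.toOver.left.presheaf (⟨y, hy⟩ : U)
    have hloc := hU.isLocalization_stalk ⟨y, hy⟩
    obtain ⟨w, rfl⟩ := Y.toOver.left.residue_surjective y z
    obtain ⟨⟨a, s⟩, hw⟩ := IsLocalization.surj
      (hU.primeIdealOf ⟨y, hy⟩).asIdeal.primeCompl w
    refine ⟨a, s, ?_, ?_⟩
    · have hu := IsLocalization.map_units (Y.toOver.left.presheaf.stalk y) s
      exact (hu.map (Y.toOver.left.residue y).hom).ne_zero
    · have := congrArg (Y.toOver.left.residue y).hom hw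
      rw [map_mul] at this
      exact this
  · rw [hU.primeIdealOf_eq_map_closedPoint]
    ext r
    rw [RingHom.mem_ker]
    change (IsLocalRing.residue (Y.toOver.left.presheaf.stalk y))
      (Y.toOver.left.presheaf.germ U y hy r) = 0 ↔ _
    rw [IsLocalRing.residue_eq_zero_iff]
    rfl

theorem finiteType_const (Y : SmProjVar K) {U : Y.toOver.left.Opens} (hU : IsAffineOpen U) :
    (const Y.toOver.hom U).FiniteType := by
  have h1 := LocallyOfFiniteType.finiteType_appLE Y.toOver.hom (isAffineOpen_top _) hU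
    (le_top : U ≤ _)
  have h2 : const Y.toOver.hom U = (Y.toOver.hom.appLE ⊤ U le_top).hom.comp
      (Scheme.ΓSpecIso (CommRingCat.of K)).inv.hom := by
    rfl
  rw [h2]
  refine h1.comp (RingHom.FiniteType.of_surjective _ ?_)
  exact (ConcreteCategory.bijective_of_isIso (Scheme.ΓSpecIso (CommRingCat.of K)).inv).2

end

end Pool.Agent.Helper47.Spread
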