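import Mathlib
import Pool.Agent.Helper47.Spread.Defs

/-!
# The action on charts
-/

universe u v w

open CategoryTheory AlgebraicGeometry Limits

namespace Pool.Agent.Helper47.Spread

open Pool.Agent.Helper10 Pool.Agent.Helper10.SmProjVar Pool.Agent.Helper47.Chow
open Pool.Agent.Helper47.Desc

noncomputable section

variable {F K : Type u} [Field F] [Field K] [Algebra F K] {M₀ : SmProjVar F} {r : ℕ} {I : Type}
  [Fintype I]

theorem theta_sq {X : SmProjVar K} (a : I → K) (π : X.toOver.left ⟶ M₀.toOver.left)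
    (w : π ≫ M₀.toOver.hom = X.toOver.hom ≫ specMap F K) (g : SemiAut X)
    (hg : g ∈ galGroup (F := F) a π) : (Desc.sq g).sch ≫ theta π w = theta π w := by
  have hπ : g.sch ≫ π = π := hg.1
  apply hom_ext_sch
  · rw [Category.assoc, theta_fst]
    change prodSch g g rfl ≫ (fst X X).left ≫ π = _
    rw [← Category.assoc, prodSch_fst, Category.assoc, hπ]
  · rw [Category.assoc, theta_snd]
    change prodSch g g rfl ≫ (snd X X).left ≫ π = _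
    rw [← Category.assoc, prodSch_snd, Category.assoc, hπ]

private lemma appLE_congr_hom {Z Z' : Scheme.{u}} {f f' : Z ⟶ Z'} (h : f = f') (U : Z'.Opens)
    (V : Z.Opens) (e : V ≤ f ⁻¹ᵁ U) (e' : V ≤ f' ⁻¹ᵁ U) : f.appLE U V e = f'.appLE U V e' := by
  subst h; rfl

private lemma appLE_id_self {Z : Scheme.{u}} (U : Z.Opens) (e : U ≤ (𝟙 Z : Z ⟶ Z) ⁻¹ᵁ U) :
    (𝟙 Z : Z ⟶ Z).appLE U U e = 𝟙 _ := by
  simp only [Scheme.Hom.appLE, Scheme.Hom.id_app, Category.id_comp]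
  exact Z.presheaf.map_id _

private lemma gen_pb {Z N : Scheme.{u}} (G : Z ⟶ Z) (θ : Z ⟶ N) (V : N.Opens) (h : G ≫ θ = θ)
    (e : θ ⁻¹ᵁ V ≤ G ⁻¹ᵁ (θ ⁻¹ᵁ V)) (x : Γ(N, V)) :
    (G.appLE _ _ e).hom (pb θ V x) = pb θ V x := by
  have h1 : θ.app V ≫ G.appLE _ _ e = θ.app V :=
    (Scheme.Hom.comp_appLE G θ V (θ ⁻¹ᵁ V) e).symm.trans
      ((appLE_congr_hom h V (θ ⁻¹ᵁ V) _ le_rfl).trans (Scheme.Hom.appLE_eq_app θ))
  have h2 := congrArg (fun f => f.hom x) h1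
  rw [pb]
  simpa only [CommRingCat.hom_comp, RingHom.comp_apply] using h2

private lemma gen_const_aux {Z : Scheme.{u}} (G : Z ⟶ Z) (s : Z ⟶ Spec (CommRingCat.of K))
    (b : K →+* K) (hs : G ≫ s = s ≫ Spec.map (CommRingCat.ofHom b)) (U : Z.Opens)
    (e : U ≤ G ⁻¹ᵁ U) (e0 : U ≤ s ⁻¹ᵁ ⊤) :
    s.appLE ⊤ U e0 ≫ G.appLE U U e =
      (Spec.map (CommRingCat.ofHom b)).app ⊤ ≫ s.appLE ⊤ U e0 :=
  (Scheme.Hom.appLE_comp_appLE G s ⊤ U U e0 e).trans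
    ((appLE_congr_hom hs ⊤ U _ e0).trans
      (Scheme.Hom.comp_appLE s (Spec.map (CommRingCat.ofHom b)) ⊤ U e0))

private lemma gen_const {Z : Scheme.{u}} (G : Z ⟶ Z) (s : Z ⟶ Spec (CommRingCat.of K))
    (b : K →+* K) (hs : G ≫ s = s ≫ Spec.map (CommRingCat.ofHom b)) (U : Z.Opens)
    (e : U ≤ G ⁻¹ᵁ U) (x : K) :
    (G.appLE _ _ e).hom (const s U x) = const s U (b x) := by
  have e0 : U ≤ s ⁻¹ᵁ ⊤ := fun _ _ => trivial
  have hc : ∀ y, const s U y =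
      (s.appLE ⊤ U e0).hom ((Scheme.ΓSpecIso (CommRingCat.of K)).inv.hom y) := by
    intro y
    simp only [const, Scheme.Hom.appLE, CommRingCat.hom_comp, RingHom.comp_apply]
    rfl
  have h1 := congrArg (fun f => f.hom ((Scheme.ΓSpecIso (CommRingCat.of K)).inv.hom x))
    (gen_const_aux G s b hs U e e0)
  have h2 : (Scheme.ΓSpecIso (CommRingCat.of K)).inv.hom (b x) =
      ((Spec.map (CommRingCat.ofHom b)).app ⊤).hom
        ((Scheme.ΓSpecIso (CommRingCat.of K)).inv.hom x) :=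
    congrArg (fun f => f.hom x) (Scheme.ΓSpecIso_inv_naturality (CommRingCat.ofHom b))
  rw [hc, hc, h2]
  exact h1

private lemma gen_comap {Z N : Scheme.{u}} (G G' : Z ⟶ Z) (θ : Z ⟶ N)
    (s : Z ⟶ Spec (CommRingCat.of K)) (b : K →+* K) (h1 : G' ≫ G = 𝟙 Z) (h2 : G ≫ G' = 𝟙 Z)
    (h3 : G ≫ θ = θ) (h4 : G' ≫ θ = θ) (hs : G ≫ s = s ≫ Spec.map (CommRingCat.ofHom b))
    (V : N.Opens) (hU : IsAffineOpen (θ ⁻¹ᵁ V)) :
    ∃ τ : Γ(Z, θ ⁻¹ᵁ V) ≃+* Γ(Z, θ ⁻¹ᵁ V),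
      (∀ x, τ (pb θ V x) = pb θ V x) ∧
      (∀ x, τ (const s _ x) = const s _ (b x)) ∧
      ∀ (y : Z) (hy : y ∈ θ ⁻¹ᵁ V),
        ∃ hy' : G y ∈ θ ⁻¹ᵁ V,
          (hU.primeIdealOf ⟨y, hy⟩).asIdeal.comap (τ : _ →+* _) =
            (hU.primeIdealOf ⟨G y, hy'⟩).asIdeal := by
  have e1 : θ ⁻¹ᵁ V ≤ G ⁻¹ᵁ (θ ⁻¹ᵁ V) := by
    rw [← Scheme.Hom.comp_preimage, h3]
  have e2 : θ ⁻¹ᵁ V ≤ G' ⁻¹ᵁ (θ ⁻¹ᵁ V) := by
    rw [← Scheme.Hom.comp_preimage, h4]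
  have c1 : G.appLE _ _ e1 ≫ G'.appLE _ _ e2 = 𝟙 _ := by
    rw [Scheme.Hom.appLE_comp_appLE]
    rw [appLE_congr_hom h1 _ _ _ (by rw [Scheme.Hom.id_preimage])]
    exact appLE_id_self _ _
  have c2 : G'.appLE _ _ e2 ≫ G.appLE _ _ e1 = 𝟙 _ := by
    rw [Scheme.Hom.appLE_comp_appLE]
    rw [appLE_congr_hom h2 _ _ _ (by rw [Scheme.Hom.id_preimage])]
    exact appLE_id_self _ _
  refine ⟨RingEquiv.ofRingHom (G.appLE _ _ e1).hom (G'.appLE _ _ e2).hom ?_ ?_, ?_, ?_, ?_⟩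
  · rw [← CommRingCat.hom_comp, c2]; rfl
  · rw [← CommRingCat.hom_comp, c1]; rfl
  · intro x
    exact gen_pb G θ V h3 e1 x
  · intro x
    exact gen_const G s b hs _ e1 x
  · intro y hy
    refine ⟨e1 hy, ?_⟩
    have h1 := IsAffineOpen.comap_primeIdealOf_appLE (f := G) (x := y)
      (θ ⁻¹ᵁ V) hU (θ ⁻¹ᵁ V) hU e1 hy
    exact congrArg PrimeSpectrum.asIdeal h1

private lemma sq_inv_comp {X : SmProjVar K} (g : SemiAut X) :
    (Desc.sq g⁻¹).sch ≫ (Desc.sq g).sch = 𝟙 _ := by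
  rw [← SemiAut.sch_mul, ← sq_mul, mul_inv_cancel, sq_one, SemiAut.sch_one]

private lemma sq_comp_inv {X : SmProjVar K} (g : SemiAut X) :
    (Desc.sq g).sch ≫ (Desc.sq g⁻¹).sch = 𝟙 _ := by
  rw [← SemiAut.sch_mul, ← sq_mul, inv_mul_cancel, sq_one, SemiAut.sch_one]

private lemma sq_specMap {X : SmProjVar K} (g : SemiAut X) :
    (Desc.sq g).sch ≫ (X.prod X).toOver.hom =
      (X.prod X).toOver.hom ≫ Spec.map (CommRingCat.ofHom (fieldMap g)) := by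
  rw [specMap_fieldMap]
  exact (Desc.sq g).sch_hom

theorem comap_sq {X : SmProjVar K} (a : I → K) (π : X.toOver.left ⟶ M₀.toOver.left)
    (w : π ≫ M₀.toOver.hom = X.toOver.hom ≫ specMap F K) (g : SemiAut X)
    (hg : g ∈ galGroup (F := F) a π) (V : (M₀.prod M₀).toOver.left.Opens)
    (hU : IsAffineOpen (theta π w ⁻¹ᵁ V)) :
    ∃ τ : Γ((X.prod X).toOver.left, theta π w ⁻¹ᵁ V) ≃+*
        Γ((X.prod X).toOver.left, theta π w ⁻¹ᵁ V),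
      (∀ x, τ (pb (theta π w) V x) = pb (theta π w) V x) ∧
      (∀ x, τ (const (X.prod X).toOver.hom _ x) =
        const (X.prod X).toOver.hom _ (fieldMap g x)) ∧
      ∀ (y : (X.prod X).toOver.left) (hy : y ∈ theta π w ⁻¹ᵁ V),
        ∃ hy' : (Desc.sq g).sch y ∈ theta π w ⁻¹ᵁ V,
          (hU.primeIdealOf ⟨y, hy⟩).asIdeal.comap (τ : _ →+* _) =
            (hU.primeIdealOf ⟨(Desc.sq g).sch y, hy'⟩).asIdeal := by
  exact gen_comap (Desc.sq g).sch (Desc.sq g⁻¹).sch (theta π w) (X.prod X).toOver.hom (fieldMap g)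
    (sq_inv_comp g) (sq_comp_inv g) (theta_sq a π w g hg) (theta_sq a π w g⁻¹ (inv_mem hg))
    (sq_specMap g) V hU

end

end Pool.Agent.Helper47.Spread
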