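import Mathlib
import Pool.Agent.Helper47.Spread.B6
import Pool.Agent.Helper47.Spread.C2
import Pool.Agent.Helper47.Spread.C3
import Pool.Agent.Helper47.Spread.C5
import Pool.Agent.Helper47.Spread.D2
import Pool.Agent.Helper47.Spread.D4
import Pool.Agent.Helper47.Spread.E3

/-!
# Finite orbits
-/

universe u v w

open CategoryTheory AlgebraicGeometry Limits

namespace Pool.Agent.Helper47.Spread

open Pool.Agent.Helper10 Pool.Agent.Helper10.SmProjVar Pool.Agent.Helper47.Chow
open Pool.Agent.Helper47.Desc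

noncomputable section

variable {F K : Type u} [Field F] [Field K] [Algebra F K] {M₀ : SmProjVar F} {r : ℕ} {I : Type}
  [Fintype I]

/-- The field automorphism attached to a semilinear automorphism. -/
def fieldEquiv {X : SmProjVar K} (g : SemiAut X) : K ≃+* K where
  toFun := fieldMap g
  invFun := fieldMap g⁻¹
  left_inv x := by rw [← fieldMap_mul, mul_inv_cancel, fieldMap_one]
  right_inv x := by rw [← fieldMap_mul, inv_mul_cancel, fieldMap_one]
  map_mul' := map_mul _
  map_add' := map_add _

lemma fieldEquiv_apply {X : SmProjVar K} (g : SemiAut X) (x : K) :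
    fieldEquiv g x = fieldMap g x := rfl

lemma fieldEquiv_symm_apply {X : SmProjVar K} (g : SemiAut X) (x : K) :
    (fieldEquiv g).symm x = fieldMap g⁻¹ x := rfl

omit [Fintype I] in
lemma fieldMap_adjoin (a : I → K) {X : SmProjVar K} (π : X.toOver.left ⟶ M₀.toOver.left)
    (g : SemiAut X) (hg : g ∈ galGroup (F := F) a π) (x : K)
    (hx : x ∈ IntermediateField.adjoin F (Set.range a)) : fieldMap g x = x := by
  induction hx using IntermediateField.adjoin_induction with
  | mem x hx =>
    obtain ⟨l, rfl⟩ := hx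
    exact hg.2.2 l
  | algebraMap c => exact hg.2.1 c
  | add x y _ _ h1 h2 => rw [map_add, h1, h2]
  | inv x _ h1 => rw [map_inv₀, h1]
  | mul x y _ _ h1 h2 => rw [map_mul, h1, h2]

omit [Fintype I] in
lemma finite_fieldMap (a : I → K) [Normal (IntermediateField.adjoin F (Set.range a)) K]
    {X : SmProjVar K} (π : X.toOver.left ⟶ M₀.toOver.left) (x : K) :
    (Set.range fun g : galGroup (F := F) a π => (fieldEquiv g.1).symm x).Finite := by
  have hint : IsIntegral (IntermediateField.adjoin F (Set.range a)) x := Normal.isIntegral inferInstance x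
  refine Set.Finite.subset (Polynomial.rootSet_finite
    (minpoly (IntermediateField.adjoin F (Set.range a)) x) K) ?_
  rintro _ ⟨g, rfl⟩
  rw [Polynomial.mem_rootSet]
  refine ⟨minpoly.ne_zero hint, ?_⟩
  have hg : g.1⁻¹ ∈ galGroup (F := F) a π := inv_mem g.2
  have h0 : Polynomial.eval₂ (algebraMap (IntermediateField.adjoin F (Set.range a)) K) x
      (minpoly (IntermediateField.adjoin F (Set.range a)) x) = 0 := minpoly.aeval _ x
  have h1 := congrArg (fieldMap g.1⁻¹) h0
  rw [Polynomial.hom_eval₂, map_zero] at h1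
  have h2 : (fieldMap g.1⁻¹).comp (algebraMap (IntermediateField.adjoin F (Set.range a)) K) =
      algebraMap (IntermediateField.adjoin F (Set.range a)) K := by
    ext e
    exact fieldMap_adjoin a π _ hg _ e.2
  rw [h2] at h1
  exact h1

theorem finiteOrbits_galGroup {S : Sections M₀ r I} {a : I → K}
    [Normal (IntermediateField.adjoin F (Set.range a)) K] {X : SmProjVar K}
    {π : X.toOver.left ⟶ M₀.toOver.left} [IsAffineHom π] (hX : IsZeroLocus S a X π) :
    FiniteOrbits X (galGroup (F := F) a π) := by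
  intro y
  change (X.prod X).toOver.left at y
  obtain ⟨i, hi⟩ := S.cover ((fst M₀ M₀).left (theta π hX.w y))
  obtain ⟨i', hi'⟩ := S.cover ((snd M₀ M₀).left (theta π hX.w y))
  have hVa : IsAffineOpen (box S i i') := isAffineOpen_box S i i'
  have := isAffineHom_theta π hX.w
  have hU : IsAffineOpen (theta π hX.w ⁻¹ᵁ box S i i') := hVa.preimage _
  have hy : y ∈ theta π hX.w ⁻¹ᵁ box S i i' := ⟨hi, hi'⟩
  have hN : IsNoetherianRing Γ((X.prod X).toOver.left, theta π hX.w ⁻¹ᵁ box S i i') := by
    let _ := (const (X.prod X).toOver.hom (theta π hX.w ⁻¹ᵁ box S i i')).toAlgebra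
    have : Algebra.FiniteType K Γ((X.prod X).toOver.left, theta π hX.w ⁻¹ᵁ box S i i') :=
      finiteType_const (X.prod X) hU
    exact Algebra.FiniteType.isNoetherianRing K _
  have hgen := closure_eq_top (const (M₀.prod M₀).toOver.hom (box S i i'))
    (pb (theta π hX.w) (box S i i')) (const (X.prod X).toOver.hom (theta π hX.w ⁻¹ᵁ box S i i'))
    (const_comp_theta π hX.w (box S i i')) a (fun c l => res le_rfl (coef S i i' c l))
    (chart_zero hX i i' (box S i i') le_rfl)
    (chart_lift hX i i' (box S i i') le_rfl hVa hU)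
    (chart_unique hX (box S i i') hVa hU)
  have hτ := fun g : galGroup (F := F) a π => comap_sq a π hX.w g.1 g.2 (box S i i') hU
  choose τ hα hκ hp using hτ
  have key := finite_comap_orbit (pb (theta π hX.w) (box S i i'))
    (const (X.prod X).toOver.hom (theta π hX.w ⁻¹ᵁ box S i i')) hgen
    (fun g : galGroup (F := F) a π => fieldEquiv g.1) τ hα hκ (finite_fieldMap a π)
    (hU.primeIdealOf ⟨y, hy⟩).asIdeal
  classical
  let f : (X.prod X).toOver.left →
      Ideal Γ((X.prod X).toOver.left, theta π hX.w ⁻¹ᵁ box S i i') := fun x =>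
    if hx : x ∈ theta π hX.w ⁻¹ᵁ box S i i' then (hU.primeIdealOf ⟨x, hx⟩).asIdeal else ⊥
  refine Set.Finite.of_finite_image (f := f) (key.subset ?_) ?_
  · rintro _ ⟨_, ⟨g, rfl⟩, rfl⟩
    obtain ⟨hy', h⟩ := hp g y hy
    refine ⟨g, ?_⟩
    change _ = f ((Desc.sq g.1).sch y)
    simp only [f]
    rw [dif_pos hy']
    exact h
  · rintro _ ⟨g, rfl⟩ _ ⟨g', rfl⟩ h
    obtain ⟨hy1, -⟩ := hp g y hy
    obtain ⟨hy2, -⟩ := hp g' y hy
    change (Desc.sq g.1).sch y = (Desc.sq g'.1).sch y
    change f ((Desc.sq g.1).sch y) = f ((Desc.sq g'.1).sch y) at h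
    simp only [f] at h
    rw [dif_pos hy1, dif_pos hy2] at h
    have h3 : (Desc.sq g.1).sch y ⤳ (Desc.sq g'.1).sch y :=
      (specializes_iff hU hy1 hy2).2 h.le
    have h4 : (Desc.sq g'.1).sch y ⤳ (Desc.sq g.1).sch y :=
      (specializes_iff hU hy2 hy1).2 h.ge
    exact (h3.antisymm h4).eq

end

end Pool.Agent.Helper47.Spread
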