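import Mathlib
import Pool.Agent.Helper47.Spread.Defs

/-!
# Points over the diagonal
-/

universe u v w

open CategoryTheory AlgebraicGeometry Limits

namespace Pool.Agent.Helper47.Spread

open Pool.Agent.Helper10 Pool.Agent.Helper10.SmProjVar Pool.Agent.Helper47.Chow
open Pool.Agent.Helper47.Desc

noncomputable section

variable {F K : Type u} [Field F] [Field K] [Algebra F K] {M₀ : SmProjVar F} {r : ℕ} {I : Type}
  [Fintype I]

lemma isIso_residueFieldMap_of_section {X Y : Scheme.{u}} (s : X ⟶ Y) (p : Y ⟶ X)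
    (h : s ≫ p = 𝟙 X) (m : X) : IsIso (s.residueFieldMap m) := by
  have e1 := Scheme.residueFieldMap_comp s p m
  have e2 := Scheme.Hom.residueFieldMap_congr h m
  have h3 : IsIso ((s ≫ p).residueFieldMap m) := by
    rw [e2, Scheme.residueFieldMap_id]
    exact IsIso.comp_isIso' inferInstance (inferInstanceAs (IsIso (𝟙 (X.residueField m))))
  rw [ConcreteCategory.isIso_iff_bijective]
  refine ⟨(s.residueFieldMap m).hom.injective, ?_⟩
  have h4 : Function.Surjective ((s ≫ p).residueFieldMap m) :=
    ((ConcreteCategory.isIso_iff_bijective _).1 h3).2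
  rw [e1] at h4
  intro z
  obtain ⟨t, ht⟩ := h4 z
  exact ⟨p.residueFieldMap (s m) t, ht⟩

lemma fromSpecResidueField_comp_eq {X Y : Scheme.{u}} (s : X ⟶ Y) (p q : Y ⟶ X)
    (hp : s ≫ p = 𝟙 X) (hq : s ≫ q = 𝟙 X) (y : Y) (hy : y ∈ Set.range s) :
    Y.fromSpecResidueField y ≫ p = Y.fromSpecResidueField y ≫ q := by
  obtain ⟨m, rfl⟩ := hy
  have := isIso_residueFieldMap_of_section s p hp m
  rw [← cancel_epi (Spec.map (s.residueFieldMap m)), ← Category.assoc, ← Category.assoc,
    Scheme.Hom.SpecMap_residueFieldMap_fromSpecResidueField, Category.assoc, Category.assoc, hp, hq]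

theorem mem_range_diag {S : Sections M₀ r I} {a : I → K} {X : SmProjVar K}
    {π : X.toOver.left ⟶ M₀.toOver.left} (hX : IsZeroLocus S a X π)
    (y : (X.prod X).toOver.left) (hy : theta π hX.w y ∈ Set.range (diag M₀).left) :
    y ∈ Set.range (diag X).left := by
  have d1 : (diag M₀).left ≫ (fst M₀ M₀).left = 𝟙 _ := by
    have := congrArg CommaMorphism.left (lift_fst (𝟙 M₀.toOver) (𝟙 M₀.toOver))
    exact this
  have d2 : (diag M₀).left ≫ (snd M₀ M₀).left = 𝟙 _ := by
    have := congrArg CommaMorphism.left (lift_snd (𝟙 M₀.toOver) (𝟙 M₀.toOver))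
    exact this
  have c1 : (diag X).left ≫ (fst X X).left = 𝟙 _ := by
    have := congrArg CommaMorphism.left (lift_fst (𝟙 X.toOver) (𝟙 X.toOver))
    exact this
  have c2 : (diag X).left ≫ (snd X X).left = 𝟙 _ := by
    have := congrArg CommaMorphism.left (lift_snd (𝟙 X.toOver) (𝟙 X.toOver))
    exact this
  set g := (X.prod X).toOver.left.fromSpecResidueField y with hg
  have h1 : g ≫ theta π hX.w = Spec.map ((theta π hX.w).residueFieldMap y) ≫
      (M₀.prod M₀).toOver.left.fromSpecResidueField (theta π hX.w y) :=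
    (Scheme.Hom.SpecMap_residueFieldMap_fromSpecResidueField _ _).symm
  have h2 := fromSpecResidueField_comp_eq (diag M₀).left (fst M₀ M₀).left (snd M₀ M₀).left d1 d2
    (theta π hX.w y) hy
  have h3 : g ≫ theta π hX.w ≫ (fst M₀ M₀).left = g ≫ theta π hX.w ≫ (snd M₀ M₀).left := by
    rw [← Category.assoc, ← Category.assoc, h1, Category.assoc, Category.assoc, h2]
  rw [theta_fst, theta_snd] at h3
  have h4 : g ≫ (fst X X).left = g ≫ (snd X X).left := by
    apply hX.unique
    · rw [Category.assoc, Category.assoc, h3]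
    · rw [Category.assoc, Category.assoc, prod_condition]
  have h5 : g = (g ≫ (fst X X).left) ≫ (diag X).left := by
    apply pullback.hom_ext
    · change g ≫ (fst X X).left = ((g ≫ (fst X X).left) ≫ (diag X).left) ≫ (fst X X).left
      rw [Category.assoc, c1, Category.comp_id]
    · change g ≫ (snd X X).left = ((g ≫ (fst X X).left) ≫ (diag X).left) ≫ (snd X X).left
      rw [Category.assoc, c2, Category.comp_id, h4]
  have h6 : ∃ s : Spec ((X.prod X).toOver.left.residueField y), g s = y := by
    have : y ∈ Set.range g := by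
      rw [hg, Scheme.range_fromSpecResidueField]
      rfl
    exact this
  obtain ⟨s, hs⟩ := h6
  refine ⟨(g ≫ (fst X X).left) s, ?_⟩
  rw [← Scheme.Hom.comp_apply, ← h5, hs]

end

end Pool.Agent.Helper47.Spread
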