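import Mathlib
import Pool.Agent.Helper47.Spread.Defs

/-!
# Dimension of prime ideals: strict monotonicity
-/

universe u v w

open CategoryTheory AlgebraicGeometry Limits

namespace Pool.Agent.Helper47.Spread

open Pool.Agent.Helper10 Pool.Agent.Helper10.SmProjVar Pool.Agent.Helper47.Chow
open Pool.Agent.Helper47.Desc

noncomputable section

variable {k R : Type u} [Field k] [CommRing R]

theorem dimOf_lt (φ : k →+* R) (hφ : φ.FiniteType) (𝔭 𝔮 : Ideal R) (h𝔭 : 𝔭.IsPrime)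
    (h𝔮 : 𝔮.IsPrime) (h : 𝔭 < 𝔮) : dimOf φ 𝔮 < dimOf φ 𝔭 := by
  let i1 : Algebra k (R ⧸ 𝔭) := ((Ideal.Quotient.mk 𝔭).comp φ).toAlgebra
  let i2 : Algebra k (R ⧸ 𝔮) := ((Ideal.Quotient.mk 𝔮).comp φ).toAlgebra
  have e1 : dimOf φ 𝔭 = Cardinal.toNat (Algebra.trdeg k (R ⧸ 𝔭)) := rfl
  have e2 : dimOf φ 𝔮 = Cardinal.toNat (Algebra.trdeg k (R ⧸ 𝔮)) := rfl
  have d1 : IsDomain (R ⧸ 𝔭) := inferInstance
  have d2 : IsDomain (R ⧸ 𝔮) := inferInstance
  have f1 : Algebra.FiniteType k (R ⧸ 𝔭) := hφ.comp_surjective Ideal.Quotient.mk_surjective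
  have f2 : Algebra.FiniteType k (R ⧸ 𝔮) := hφ.comp_surjective Ideal.Quotient.mk_surjective
  have c1 : Algebra.trdeg k (R ⧸ 𝔭) < Cardinal.aleph0 := trdeg_lt_aleph0_of_finiteType
  have c2 : Algebra.trdeg k (R ⧸ 𝔮) < Cardinal.aleph0 := trdeg_lt_aleph0_of_finiteType
  let f : R ⧸ 𝔭 →ₐ[k] R ⧸ 𝔮 :=
    { Ideal.Quotient.factor h.le with commutes' := fun _ => rfl }
  have hf : Function.Surjective f := Ideal.Quotient.factor_surjective h.le
  by_contra hcon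
  rw [e1, e2, not_lt] at hcon
  have hle : Algebra.trdeg k (R ⧸ 𝔭) ≤ Algebra.trdeg k (R ⧸ 𝔮) :=
    (Cardinal.toNat_le_iff_le_of_lt_aleph0 c1 c2).1 hcon
  obtain ⟨ι, s, hs⟩ := exists_isTranscendenceBasis' k (R ⧸ 𝔮)
  have hcard : Cardinal.mk ι = Algebra.trdeg k (R ⧸ 𝔮) := hs.cardinalMk_eq_trdeg
  have hfin : Finite ι := by
    rw [← Cardinal.lt_aleph0_iff_finite, hcard]
    exact c2
  choose x hx using fun i => hf (s i)
  have hfx : f ∘ x = s := funext hx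
  have hxind : AlgebraicIndependent k x := AlgebraicIndependent.of_comp f (by rw [hfx]; exact hs.1)
  have hxb : IsTranscendenceBasis k x := by
    exact hxind.isTranscendenceBasis_of_trdeg_le_of_finite (by rw [hcard]; exact hle)
  have halg : Algebra.IsAlgebraic (Algebra.adjoin k (Set.range x)) (R ⧸ 𝔭) := hxb.isAlgebraic
  obtain ⟨b, hbq, hbp⟩ := SetLike.exists_of_lt h
  have hb0 : Ideal.Quotient.mk 𝔭 b ≠ 0 := by
    rwa [Ne, Ideal.Quotient.eq_zero_iff_mem]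
  obtain ⟨a, ha0, c, hc⟩ := (halg.isAlgebraic (Ideal.Quotient.mk 𝔭 b)).exists_nonzero_dvd
    (mem_nonZeroDivisors_of_ne_zero hb0)
  have hfa : f (a : R ⧸ 𝔭) = 0 := by
    have h1 : (a : R ⧸ 𝔭) = Ideal.Quotient.mk 𝔭 b * c := hc
    rw [h1, map_mul]
    have h2 : f (Ideal.Quotient.mk 𝔭 b) = Ideal.Quotient.mk 𝔮 b := rfl
    rw [h2, Ideal.Quotient.eq_zero_iff_mem.2 hbq, zero_mul]
  have ha : (a : R ⧸ 𝔭) ∈ (MvPolynomial.aeval (R := k) x).range := by
    have h9 := Algebra.adjoin_range_eq_range_aeval k x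
    exact h9 ▸ a.2
  obtain ⟨p, hp⟩ := ha
  have hp0 : MvPolynomial.aeval s p = 0 := by
    have h3 : f (MvPolynomial.aeval x p) = MvPolynomial.aeval (fun i => f (x i)) p := by
      have h4 := MvPolynomial.comp_aeval_apply (R := k) (f := x) f p
      exact h4
    have h5 : (fun i => f (x i)) = s := hfx
    rw [h5] at h3
    rw [← h3]
    have h6 : MvPolynomial.aeval x p = (a : R ⧸ 𝔭) := hp
    rw [h6]
    exact hfa
  have hp1 : p = 0 := by
    have h7 : Function.Injective (MvPolynomial.aeval s : MvPolynomial ι k →ₐ[k] R ⧸ 𝔮) := hs.1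
    exact h7 (by rw [hp0, map_zero])
  apply ha0
  apply Subtype.ext
  have h8 : (a : R ⧸ 𝔭) = MvPolynomial.aeval x p := hp.symm
  rw [h8, hp1, map_zero]
  rfl

end

end Pool.Agent.Helper47.Spread
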