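import Mathlib
import Pool.Agent.Helper47.Spread.A1
import Pool.Agent.Helper47.Spread.D2
import Pool.Agent.Helper47.Spread.D4

/-!
# The generic point of the diagonal
-/

universe u v w

open CategoryTheory AlgebraicGeometry Limits

namespace Pool.Agent.Helper47.Spread

open Pool.Agent.Helper10 Pool.Agent.Helper10.SmProjVar Pool.Agent.Helper47.Chow
open Pool.Agent.Helper47.Desc

noncomputable section

variable {K : Type u} [Field K]

/-- A morphism with a retraction is surjective on residue fields. -/
lemma residueFieldMap_surjective_of_retract {Z Z' : Scheme.{u}} (f : Z ⟶ Z') (g : Z' ⟶ Z)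
    (h : f ≫ g = 𝟙 Z) (x : Z) : Function.Surjective (f.residueFieldMap x).hom := by
  have h1 : Function.Surjective ((f ≫ g).residueFieldMap x).hom := by
    generalize f ≫ g = e at h
    subst h
    rw [Scheme.residueFieldMap_id]
    exact Function.surjective_id
  have h2 : ((f ≫ g).residueFieldMap x).hom =
      (g.residueFieldMap (f x) ≫ f.residueFieldMap x).hom :=
    congrArg CommRingCat.Hom.hom (Scheme.residueFieldMap_comp f g x)
  intro b
  obtain ⟨a, ha⟩ := h1 b
  exact ⟨(g.residueFieldMap (f x)).hom a, (RingHom.congr_fun h2 a).symm.trans ha⟩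

lemma resHom_comp {X Y : SmProjVar K} (f : X.toOver ⟶ Y.toOver) (x : X.toOver.left) :
    resHom X x = resHom Y (f.left x) ≫ f.left.residueFieldMap x := by
  apply Spec.map_injective
  rw [Spec.map_comp, resHom, resHom, Spec.map_preimage, Spec.map_preimage,
    Scheme.Hom.SpecMap_residueFieldMap_fromSpecResidueField_assoc, Over.w f]

lemma trd_le_of_hom {X Y : SmProjVar K} (f : X.toOver ⟶ Y.toOver) (x : X.toOver.left) :
    trd Y (f.left x) ≤ trd X x := by
  let _ : Algebra K (X.toOver.left.residueField x) := (resHom X x).hom.toAlgebra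
  let _ : Algebra K (Y.toOver.left.residueField (f.left x)) := (resHom Y (f.left x)).hom.toAlgebra
  refine trdeg_le_semilinear (RingHom.id K) Function.surjective_id
    (f.left.residueFieldMap x).hom ?_ ?_
  · exact (f.left.residueFieldMap x).hom.injective
  · exact congrArg CommRingCat.Hom.hom (resHom_comp f x)

lemma diag_left_fst (X : SmProjVar K) : (diag X).left ≫ (fst X X).left = 𝟙 X.toOver.left := by
  have h : diag X ≫ fst X X = 𝟙 X.toOver := lift_fst _ _
  exact congrArg CommaMorphism.left h

lemma diag_left_fst_apply (X : SmProjVar K) (x : X.toOver.left) :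
    (fst X X).left ((diag X).left x) = x := by
  have h : ((diag X).left ≫ (fst X X).left) x = x := by
    rw [diag_left_fst]
    rfl
  exact h

lemma trd_diag (X : SmProjVar K) (x : X.toOver.left) :
    trd (X.prod X) ((diag X).left x) = trd X x := by
  refine le_antisymm (trd_le_of_hom (diag X) x) ?_
  have h := trd_le_of_hom (fst X X) ((diag X).left x)
  rwa [diag_left_fst_apply] at h

lemma pointDim_diag (X : SmProjVar K) (x : X.toOver.left) :
    (X.prod X).pointDim ((diag X).left x) = X.pointDim x :=
  congrArg Cardinal.toNat (trd_diag X x)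

lemma pointDim_lt_of_ne_genericPt (X : SmProjVar K) (x : X.toOver.left)
    (hx : x ≠ X.genericPt) : X.pointDim x < X.pointDim X.genericPt := by
  obtain ⟨U, hU, hxU, -⟩ := exists_isAffineOpen_mem_and_subset (x := x)
    (U := (⊤ : X.toOver.left.Opens)) trivial
  have hsp : genericPoint X.toOver.left ⤳ x := genericPoint_specializes x
  have hgU : genericPoint X.toOver.left ∈ U := hsp.mem_open U.isOpen hxU
  have e1 := pointDim_eq_dimOf X hU hxU
  have e2 : X.pointDim X.genericPt = _ := pointDim_eq_dimOf X hU hgU
  rw [e1, e2]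
  refine dimOf_lt _ (finiteType_const X hU) _ _ (hU.primeIdealOf ⟨_, hgU⟩).isPrime
    (hU.primeIdealOf ⟨_, hxU⟩).isPrime (lt_of_le_of_ne ((specializes_iff hU hgU hxU).1 hsp) ?_)
  intro heq
  have h2 : x ⤳ genericPoint X.toOver.left := (specializes_iff hU hxU hgU).2 heq.ge
  exact hx (h2.antisymm hsp).eq

lemma residueDegree_ne_zero_of_surjective {Z Z' : Scheme.{u}} (f : Z ⟶ Z') (x : Z)
    (h : Function.Surjective (f.residueFieldMap x).hom) : f.residueDegree x ≠ 0 := by
  unfold Scheme.Hom.residueDegree
  let _ := (f.residueFieldMap x).hom.toAlgebra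
  have : Module.Finite (Z'.residueField (f x)) (Z.residueField x) :=
    Module.Finite.of_surjective (Algebra.linearMap (Z'.residueField (f x)) (Z.residueField x)) h
  exact (Module.finrank_pos (R := Z'.residueField (f x)) (M := Z.residueField x)).ne'

theorem ptCls_mem_span_diag {L : Type v} [Field L] [CharZero L]
    {W : WeilCohomology.{u, v, w} K L} (C : ChowTheory W) (X : SmProjVar K)
    (y : (X.prod X).toOver.left) (hy : y ∈ Set.range (diag X).left)
    (hd : (X.prod X).pointDim y = X.dim) :
    ptCls (X.prod X) y ∈ Submodule.span ℚ {C.Δ X} := by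
  obtain ⟨x, rfl⟩ := hy
  have hx : x = X.genericPt := by
    by_contra hne
    have h1 := pointDim_lt_of_ne_genericPt X x hne
    rw [pointDim_genericPt W X, ← pointDim_diag X x, hd] at h1
    exact lt_irrefl _ h1
  subst hx
  have h1 : C.Δ X = ((diag X).left.residueDegree X.genericPt : ℚ) •
      ptCls (X.prod X) ((diag X).left X.genericPt) := by
    have h2 := C.pushForward.push_ptCls (diag X) X.genericPt
    rw [if_pos (pointDim_diag X X.genericPt).symm] at h2
    exact h2
  have h3 : ((diag X).left.residueDegree X.genericPt : ℚ) ≠ 0 := by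
    exact_mod_cast residueDegree_ne_zero_of_surjective _ _
      (residueFieldMap_surjective_of_retract _ _ (diag_left_fst X) _)
  rw [Submodule.mem_span_singleton]
  refine ⟨((diag X).left.residueDegree X.genericPt : ℚ)⁻¹, ?_⟩
  rw [h1, smul_smul, inv_mul_cancel₀ h3, one_smul]

end

end Pool.Agent.Helper47.Spread
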