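import Mathlib
import Pool.Agent.Helper47.Spread.Defs

/-!
# Base change of products
-/

universe u v w

open CategoryTheory AlgebraicGeometry Limits

namespace Pool.Agent.Helper47.Spread

open Pool.Agent.Helper10 Pool.Agent.Helper10.SmProjVar Pool.Agent.Helper47.Chow
open Pool.Agent.Helper47.Desc

noncomputable section

variable {F K : Type u} [Field F] [Field K] [Algebra F K] {M₀ : SmProjVar F} {r : ℕ} {I : Type}
  [Fintype I]

theorem isPullback_prod {M : SmProjVar K} (pM : M.toOver.left ⟶ M₀.toOver.left)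
    (hM : IsPullback pM M.toOver.hom M₀.toOver.hom (specMap F K)) :
    IsPullback (theta pM hM.w) (M.prod M).toOver.hom (M₀.prod M₀).toOver.hom (specMap F K) := by
  have hfst : (fst M₀ M₀).left ≫ M₀.toOver.hom = (M₀.prod M₀).toOver.hom := Over.w _
  have hsnd : (snd M₀ M₀).left ≫ M₀.toOver.hom = (M₀.prod M₀).toOver.hom := Over.w _
  have hfst' : (fst M M).left ≫ M.toOver.hom = (M.prod M).toOver.hom := Over.w _
  have hsnd' : (snd M M).left ≫ M.toOver.hom = (M.prod M).toOver.hom := Over.w _
  refine ⟨⟨theta_hom pM hM.w⟩, ⟨PullbackCone.IsLimit.mk _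
    (fun s => pullback.lift (f := M.toOver.hom) (g := M.toOver.hom)
      (hM.lift (s.fst ≫ (fst M₀ M₀).left) s.snd (by
        rw [Category.assoc, hfst]; exact s.condition))
      (hM.lift (s.fst ≫ (snd M₀ M₀).left) s.snd (by
        rw [Category.assoc, hsnd]; exact s.condition)) (by
        rw [hM.lift_snd, hM.lift_snd])) ?_ ?_ ?_⟩⟩
  · intro s
    apply pullback.hom_ext (f := M₀.toOver.hom) (g := M₀.toOver.hom)
    · change (_ ≫ theta pM hM.w) ≫ (fst M₀ M₀).left = s.fst ≫ (fst M₀ M₀).left
      rw [Category.assoc, theta_fst, ← Category.assoc]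
      change (pullback.lift _ _ _ ≫ pullback.fst _ _) ≫ pM = _
      rw [pullback.lift_fst, hM.lift_fst]
    · change (_ ≫ theta pM hM.w) ≫ (snd M₀ M₀).left = s.fst ≫ (snd M₀ M₀).left
      rw [Category.assoc, theta_snd, ← Category.assoc]
      change (pullback.lift _ _ _ ≫ pullback.snd _ _) ≫ pM = _
      rw [pullback.lift_snd, hM.lift_fst]
  · intro s
    rw [← hfst', ← Category.assoc]
    change (pullback.lift _ _ _ ≫ pullback.fst _ _) ≫ M.toOver.hom = _
    rw [pullback.lift_fst, hM.lift_snd]
  · intro s m h1 h2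
    apply pullback.hom_ext (f := M.toOver.hom) (g := M.toOver.hom)
    · rw [pullback.lift_fst]
      apply hM.hom_ext
      · rw [hM.lift_fst, ← h1]
        change (m ≫ (fst M M).left) ≫ pM = _
        rw [Category.assoc, Category.assoc, theta_fst]
      · rw [hM.lift_snd, ← h2, Category.assoc, ← hfst']
        rfl
    · rw [pullback.lift_snd]
      apply hM.hom_ext
      · rw [hM.lift_fst, ← h1]
        change (m ≫ (snd M M).left) ≫ pM = _
        rw [Category.assoc, Category.assoc, theta_snd]
      · rw [hM.lift_snd, ← h2, Category.assoc, ← hsnd']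
        rfl

end

end Pool.Agent.Helper47.Spread
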