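import Mathlib
import Pool.Agent.Helper47.Spread.A1

/-!
# Dimension and base change of the field
-/

universe u v w

open CategoryTheory AlgebraicGeometry Limits

namespace Pool.Agent.Helper47.Spread

open Pool.Agent.Helper10 Pool.Agent.Helper10.SmProjVar Pool.Agent.Helper47.Chow
open Pool.Agent.Helper47.Desc

noncomputable section

/-- `dimOf` computed from a transcendence basis, for any algebra structure. -/
lemma dimOf_eq_of_basis {k R : Type u} [Field k] [CommRing R] [Algebra k R] (𝔭 : Ideal R)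
    (h𝔭 : 𝔭.IsPrime) {ι : Type u} (x : ι → R ⧸ 𝔭) (hx : IsTranscendenceBasis k x) :
    dimOf (algebraMap k R) 𝔭 = Cardinal.toNat (Cardinal.mk ι) := by
  unfold dimOf
  have h : ((Ideal.Quotient.mk 𝔭).comp (algebraMap k R)).toAlgebra =
      (inferInstance : Algebra k (R ⧸ 𝔭)) := by
    apply Algebra.algebra_ext
    intro r
    rfl
  rw [h, hx.cardinalMk_eq_trdeg]

attribute [local instance] MvPolynomial.algebraMvPolynomial

open TensorProduct in
lemma nzd {F K κ : Type u} [Field F] [Field K] [Algebra F K] [Field κ]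
    [Algebra F κ] {ι : Type u} (s : ι → κ) (hs : AlgebraicIndependent F s)
    (f : MvPolynomial ι K) (hf : f ≠ 0) (y : K ⊗[F] κ)
    (h : MvPolynomial.aeval (fun i => (1 : K) ⊗ₜ[F] s i) f * y = 0) : y = 0 := by
  let _ : Algebra (MvPolynomial ι F) κ := (MvPolynomial.aeval s).toRingHom.toAlgebra
  have : IsScalarTower F (MvPolynomial ι F) κ := IsScalarTower.of_algebraMap_eq
    (fun x => ((MvPolynomial.aeval s).commutes x).symm)
  have : FaithfulSMul (MvPolynomial ι F) κ :=
    (faithfulSMul_iff_algebraMap_injective _ _).2 hs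
  let _ : Algebra (FractionRing (MvPolynomial ι F)) κ := FractionRing.liftAlgebra _ _
  have : IsScalarTower (MvPolynomial ι F) (FractionRing (MvPolynomial ι F)) κ :=
    FractionRing.isScalarTower_liftAlgebra _ _
  have : Module.Flat (MvPolynomial ι F) (FractionRing (MvPolynomial ι F)) :=
    IsLocalization.flat _ (nonZeroDivisors (MvPolynomial ι F))
  have : Module.Flat (MvPolynomial ι F) κ :=
    Module.Flat.trans (MvPolynomial ι F) (FractionRing (MvPolynomial ι F)) κ
  let _ : Algebra (MvPolynomial ι K) (K ⊗[F] κ) :=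
    (MvPolynomial.aeval (fun i => (1 : K) ⊗ₜ[F] s i)).toRingHom.toAlgebra
  let _ : Algebra κ (K ⊗[F] κ) := Algebra.TensorProduct.rightAlgebra
  let _ : Algebra (MvPolynomial ι F) (K ⊗[F] κ) :=
    ((algebraMap κ (K ⊗[F] κ)).comp (algebraMap (MvPolynomial ι F) κ)).toAlgebra
  have : IsScalarTower (MvPolynomial ι F) κ (K ⊗[F] κ) := IsScalarTower.of_algebraMap_eq
    (fun x => rfl)
  have : IsScalarTower K (MvPolynomial ι K) (K ⊗[F] κ) := IsScalarTower.of_algebraMap_eq
    (fun x => ((MvPolynomial.aeval (fun i => (1 : K) ⊗ₜ[F] s i)).commutes x).symm)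
  have : IsScalarTower (MvPolynomial ι F) (MvPolynomial ι K) (K ⊗[F] κ) := by
    refine IsScalarTower.of_algebraMap_eq (fun x => ?_)
    change (1 : K) ⊗ₜ[F] (MvPolynomial.aeval s x) =
      MvPolynomial.aeval (fun i => (1 : K) ⊗ₜ[F] s i) (MvPolynomial.map (algebraMap F K) x)
    induction x using MvPolynomial.induction_on with
    | C a =>
      rw [MvPolynomial.aeval_C, MvPolynomial.map_C, MvPolynomial.aeval_C,
        Algebra.TensorProduct.algebraMap_apply, Algebra.algebraMap_eq_smul_one,
        TensorProduct.tmul_smul, TensorProduct.smul_tmul', Algebra.algebraMap_eq_smul_one]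
      simp [Algebra.algebraMap_eq_smul_one]
    | add p q hp hq => simp only [map_add, TensorProduct.tmul_add, hp, hq]
    | mul_X p i hp =>
      simp only [map_mul, MvPolynomial.aeval_X, MvPolynomial.map_X, ← hp,
        Algebra.TensorProduct.tmul_mul_tmul, one_mul]
  have : Algebra.IsPushout F κ K (K ⊗[F] κ) := TensorProduct.isPushout'
  have : IsScalarTower F (MvPolynomial ι K) (K ⊗[F] κ) := by
    refine IsScalarTower.of_algebraMap_eq (fun x => ?_)
    rw [IsScalarTower.algebraMap_apply F K (MvPolynomial ι K),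
      ← IsScalarTower.algebraMap_apply K (MvPolynomial ι K)]
    rfl
  have hp : Algebra.IsPushout (MvPolynomial ι F) κ (MvPolynomial ι K) (K ⊗[F] κ) :=
    (Algebra.IsPushout.comp_iff F (MvPolynomial ι F) K (MvPolynomial ι K)).1 inferInstance
  have hflat : Module.Flat (MvPolynomial ι K) (K ⊗[F] κ) :=
    Module.Flat.isBaseChange (R := MvPolynomial ι F) (S := MvPolynomial ι K) (M := κ) _ hp.symm.out
  have hreg := Module.Flat.isSMulRegular_of_nonZeroDivisors (M := K ⊗[F] κ)
    (mem_nonZeroDivisors_of_ne_zero hf)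
  apply hreg
  change f • y = f • 0
  rw [smul_zero, Algebra.smul_def]
  exact h

open TensorProduct in
lemma nzd' {F K B : Type u} [Field F] [Field K] [Algebra F K] [CommRing B] [IsDomain B]
    [Algebra F B] {ι : Type u} (s : ι → B) (hs : AlgebraicIndependent F s)
    (f : MvPolynomial ι K) (hf : f ≠ 0) (y : K ⊗[F] B)
    (h : MvPolynomial.aeval (fun i => (1 : K) ⊗ₜ[F] s i) f * y = 0) : y = 0 := by
  let j : K ⊗[F] B →ₐ[K] K ⊗[F] FractionRing B :=
    Algebra.TensorProduct.map (AlgHom.id K K) (IsScalarTower.toAlgHom F B (FractionRing B))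
  have hj : Function.Injective j := by
    have := Module.Flat.lTensor_preserves_injective_linearMap (M := K)
      (IsScalarTower.toAlgHom F B (FractionRing B)).toLinearMap
      (IsFractionRing.injective B (FractionRing B))
    exact this
  apply hj
  rw [map_zero]
  apply nzd (fun i => algebraMap B (FractionRing B) (s i)) _ f hf
  · have := congrArg j h
    rw [map_mul, map_zero] at this
    rw [← this]
    congr 1
    rw [MvPolynomial.comp_aeval_apply]
    rfl
  · exact hs.map' (f := IsScalarTower.toAlgHom F B (FractionRing B))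
      (IsFractionRing.injective B (FractionRing B))

open TensorProduct in
theorem dimOf_minimal {F K A T : Type u} [Field F] [Field K] [Algebra F K] [CommRing A]
    [CommRing T] [Algebra F A] [Algebra F T] [Algebra K T] [Algebra A T] [IsScalarTower F K T]
    [IsScalarTower F A T] [Algebra.IsPushout F K A T] [Algebra.FiniteType F A]
    (𝔭 : Ideal A) (h𝔭 : 𝔭.IsPrime) (𝔪 : Ideal T)
    (h𝔪 : 𝔪 ∈ (𝔭.map (algebraMap A T)).minimalPrimes) :
    𝔪.comap (algebraMap A T) = 𝔭 ∧ dimOf (algebraMap K T) 𝔪 = dimOf (algebraMap F A) 𝔭 := by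
  have hpo : Algebra.IsPushout F A K T := Algebra.IsPushout.symm inferInstance
  have hflat : Module.Flat A T :=
    Module.Flat.isBaseChange (R := F) (S := A) (M := K) _ hpo.out
  have hm : 𝔪.IsPrime := h𝔪.1.1
  have hle : 𝔭.map (algebraMap A T) ≤ 𝔪 := h𝔪.1.2
  have hpm : 𝔭 ≤ 𝔪.comap (algebraMap A T) := Ideal.map_le_iff_le_comap.1 hle
  have hcomap : 𝔪.comap (algebraMap A T) = 𝔭 := by
    have : 𝔪.LiesOver (𝔪.under A) := ⟨rfl⟩
    obtain ⟨P, hPm, hP, hPl⟩ := Ideal.exists_ideal_le_liesOver_of_le (R := A) (S := T) (p := 𝔭)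
      (q := 𝔪.under A) 𝔪 hpm
    have h1 : 𝔪 ≤ P := by
      apply h𝔪.2 ⟨hP, _⟩ hPm
      rw [Ideal.map_le_iff_le_comap, hPl.over]
    have h2 : 𝔪 = P := le_antisymm h1 hPm
    rw [h2, hPl.over (p := 𝔭)]
  refine ⟨hcomap, ?_⟩
  obtain ⟨ι, s, hs⟩ := exists_isTranscendenceBasis' F (A ⧸ 𝔭)
  choose a ha using fun i => Ideal.Quotient.mk_surjective (s i)
  rw [dimOf_eq_of_basis 𝔭 h𝔭 s hs]
  apply dimOf_eq_of_basis 𝔪 hm (fun i => Ideal.Quotient.mk 𝔪 (algebraMap A T (a i)))
  rw [isTranscendenceBasis_iff_algebraicIndependent_isAlgebraic]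
  have hker : ∃ ψ : T →ₐ[K] K ⊗[F] (A ⧸ 𝔭), (∀ x : A, ψ (algebraMap A T x) =
      (1 : K) ⊗ₜ[F] Ideal.Quotient.mk 𝔭 x) ∧ ∀ y, ψ y = 0 ↔ y ∈ 𝔭.map (algebraMap A T) := by
    let e := Algebra.IsPushout.equiv F K A T
    let q : K ⊗[F] A →ₐ[K] K ⊗[F] (A ⧸ 𝔭) :=
      Algebra.TensorProduct.map (AlgHom.id K K) (Ideal.Quotient.mkₐ F 𝔭)
    refine ⟨q.comp e.symm.toAlgHom, fun x => ?_, fun y => ?_⟩
    · change q (e.symm (algebraMap A T x)) = _
      rw [Algebra.IsPushout.equiv_symm_algebraMap_right]
      rfl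
    · have hk := Algebra.TensorProduct.lTensor_ker (R := F) (A := K)
        (g := Ideal.Quotient.mkₐ F 𝔭) Ideal.Quotient.mk_surjective
      have h1 : q (e.symm y) = 0 ↔ e.symm y ∈ (RingHom.ker (Ideal.Quotient.mkₐ F 𝔭)).map
        (Algebra.TensorProduct.includeRight : A →ₐ[F] K ⊗[F] A) := by
        rw [← hk]
        rfl
      change q (e.symm y) = 0 ↔ _
      have h2 : 𝔭.map (algebraMap A T) = (((RingHom.ker (Ideal.Quotient.mkₐ F 𝔭)).map
          (Algebra.TensorProduct.includeRight : A →ₐ[F] K ⊗[F] A))).map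
            (e.toRingEquiv : K ⊗[F] A →+* T) := by
        have hk2 : RingHom.ker (Ideal.Quotient.mkₐ F 𝔭) = 𝔭 := Ideal.mk_ker
        have hk3 : 𝔭.map (Algebra.TensorProduct.includeRight : A →ₐ[F] K ⊗[F] A) =
          𝔭.map (Algebra.TensorProduct.includeRight : A →ₐ[F] K ⊗[F] A).toRingHom := rfl
        rw [hk2, hk3, Ideal.map_map]
        congr 1
        ext x
        change algebraMap A T x = e ((1 : K) ⊗ₜ[F] x)
        rw [Algebra.IsPushout.equiv_tmul, map_one, one_mul]
      rw [h1, h2]
      constructor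
      · intro h
        have := Ideal.mem_map_of_mem (e.toRingEquiv : K ⊗[F] A →+* T) h
        have h3 : (e.toRingEquiv : K ⊗[F] A →+* T) (e.symm y) = y := e.apply_symm_apply y
        rwa [h3] at this
      · intro h
        have := Ideal.mem_map_of_mem (e.symm.toRingEquiv : T →+* K ⊗[F] A) h
        rw [Ideal.map_map] at this
        have h4 : (e.symm.toRingEquiv : T →+* K ⊗[F] A).comp
            (e.toRingEquiv : K ⊗[F] A →+* T) = RingHom.id _ :=
          RingHom.ext fun z => e.symm_apply_apply z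
        rw [h4, Ideal.map_id] at this
        exact this
  obtain ⟨ψ, hψ1, hψ2⟩ := hker
  constructor
  · rw [algebraicIndependent_iff]
    intro f hf
    by_contra hne
    have h1 : Ideal.Quotient.mkₐ K 𝔪
        (MvPolynomial.aeval (fun i => algebraMap A T (a i)) f) = 0 := by
      rw [MvPolynomial.comp_aeval_apply]
      exact hf
    have h2 : MvPolynomial.aeval (fun i => algebraMap A T (a i)) f ∈ 𝔪 :=
      Ideal.Quotient.eq_zero_iff_mem.1 h1
    obtain ⟨y, hy, hxy⟩ := Ideal.exists_mul_mem_of_mem_minimalPrimes h𝔪 h2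
    apply hy
    rw [← hψ2] at hxy ⊢
    rw [map_mul, MvPolynomial.comp_aeval_apply] at hxy
    simp only [hψ1, ha] at hxy
    exact nzd' s hs.1 f hne _ hxy
  · set S' := Algebra.adjoin K (Set.range fun i => Ideal.Quotient.mk 𝔪 (algebraMap A T (a i)))
      with hS'
    let j : A ⧸ 𝔭 →+* T ⧸ 𝔪 := Ideal.quotientMap 𝔪 (algebraMap A T) hpm
    have hj : Function.Injective j := Ideal.quotientMap_injective' hcomap.le
    have hj1 : ∀ x : A, j (Ideal.Quotient.mk 𝔭 x) = Ideal.Quotient.mk 𝔪 (algebraMap A T x) :=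
      fun x => rfl
    have hmem : ∀ z : Algebra.adjoin F (Set.range s), j z ∈ S' := by
      rintro ⟨z, hz⟩
      change j z ∈ S'
      induction hz using Algebra.adjoin_induction with
      | mem x hx =>
        obtain ⟨i, rfl⟩ := hx
        rw [← ha i, hj1]
        exact Algebra.subset_adjoin ⟨i, rfl⟩
      | algebraMap r =>
        have : j (algebraMap F (A ⧸ 𝔭) r) = algebraMap K (T ⧸ 𝔪) (algebraMap F K r) := by
          change j (Ideal.Quotient.mk 𝔭 (algebraMap F A r)) =
            Ideal.Quotient.mk 𝔪 (algebraMap K T (algebraMap F K r))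
          rw [hj1, ← IsScalarTower.algebraMap_apply F A T, ← IsScalarTower.algebraMap_apply F K T]
        rw [this]
        exact Subalgebra.algebraMap_mem _ _
      | add x y _ _ hx hy => rw [map_add]; exact Subalgebra.add_mem _ hx hy
      | mul x y _ _ hx hy => rw [map_mul]; exact Subalgebra.mul_mem _ hx hy
    let f : Algebra.adjoin F (Set.range s) →+* S' :=
      (j.comp (Algebra.adjoin F (Set.range s)).val.toRingHom).codRestrict S' hmem
    have hf : Function.Injective f := by
      intro x y hxy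
      apply Subtype.ext
      apply hj
      exact congrArg Subtype.val hxy
    have halg : ∀ b : A ⧸ 𝔭, IsAlgebraic S' (j b) := by
      intro b
      have := hs.isAlgebraic
      exact (Algebra.IsAlgebraic.isAlgebraic (R := Algebra.adjoin F (Set.range s))
        b).ringHom_of_comp_eq f j hf rfl
    have hall : ∀ t : T, IsAlgebraic S' (Ideal.Quotient.mk 𝔪 t) := by
      intro t
      have hout : IsBaseChange K (IsScalarTower.toAlgHom F A T).toLinearMap :=
        (inferInstance : Algebra.IsPushout F K A T).out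
      induction t using hout.inductionOn with
      | zero => rw [map_zero]; exact isAlgebraic_zero
      | tmul m => exact halg (Ideal.Quotient.mk 𝔭 m)
      | smul k n hn =>
        have : Ideal.Quotient.mk 𝔪 (k • n) =
            algebraMap S' (T ⧸ 𝔪) (algebraMap K S' k) * Ideal.Quotient.mk 𝔪 n := by
          rw [Algebra.smul_def, map_mul]
          rfl
        rw [this]
        exact (isAlgebraic_algebraMap _).mul hn
      | add x y hx hy => rw [map_add]; exact hx.add hy
    constructor
    intro z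
    obtain ⟨t, rfl⟩ := Ideal.Quotient.mk_surjective z
    exact hall t

end

end Pool.Agent.Helper47.Spread
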