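import Mathlib
import Pool.Agent.Helper47.Spread.A6
import Pool.Agent.Helper47.Spread.D2
import Pool.Agent.Helper47.Spread.D4

/-!
# Generisations over a point
-/

universe u v w

open CategoryTheory AlgebraicGeometry Limits

namespace Pool.Agent.Helper47.Spread

open Pool.Agent.Helper10 Pool.Agent.Helper10.SmProjVar Pool.Agent.Helper47.Chow
open Pool.Agent.Helper47.Desc

noncomputable section

variable {F K : Type u} [Field F] [Field K] [Algebra F K] {M₀ : SmProjVar F} {r : ℕ} {I : Type}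
  [Fintype I]

/-- The rings of functions on affine open subsets form a pushout square. -/
lemma isPushout_const {Y Z : Scheme.{u}} {p : Y ⟶ Z} {s : Y ⟶ Spec (CommRingCat.of K)}
    {s' : Z ⟶ Spec (CommRingCat.of F)} (h : IsPullback p s s' (specMap F K))
    {V : Z.Opens} (hV : IsAffineOpen V) :
    IsPushout (CommRingCat.ofHom (algebraMap F K)) (CommRingCat.ofHom (const s' V))
      (CommRingCat.ofHom (const s (p ⁻¹ᵁ V))) (CommRingCat.ofHom (pb p V)) := by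
  have h1 := (isIso_pushoutSection_iff (US := ⊤) (UT := ⊤) (UX := V) (UY := p ⁻¹ᵁ V) h
    (le_top) (le_top) (by simp)).1 (isIso_pushoutSection_of_isAffineOpen h _ _ _
      (isAffineOpen_top _) (isAffineOpen_top _) hV)
  refine IsPushout.of_iso h1.flip (Scheme.ΓSpecIso (CommRingCat.of F))
    (Scheme.ΓSpecIso (CommRingCat.of K)) (Iso.refl _) (Iso.refl _) ?_ ?_ ?_ ?_
  · have h2 : (specMap F K).appLE ⊤ ⊤ le_top = (specMap F K).appTop := by
      change (specMap F K).appLE ⊤ (specMap F K ⁻¹ᵁ ⊤) le_rfl = _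
      rw [Scheme.Hom.appLE_eq_app]
    rw [h2, ← Scheme.ΓSpecIso_naturality]
    rfl
  · simp [const, Scheme.Hom.appLE]
  · simp [const, Scheme.Hom.appLE]
  · simp [pb, Scheme.Hom.appLE_eq_app]

theorem exists_generization {N : SmProjVar F} {Q : SmProjVar K}
    (p : Q.toOver.left ⟶ N.toOver.left)
    (h : IsPullback p Q.toOver.hom N.toOver.hom (specMap F K)) (q : Q.toOver.left) :
    ∃ t : Q.toOver.left, t ⤳ q ∧ p t = p q ∧ Q.pointDim t = N.pointDim (p q) := by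
  obtain ⟨V, hV, hq, -⟩ := exists_isAffineOpen_mem_and_subset (x := p q)
    (U := (⊤ : N.toOver.left.Opens)) trivial
  have : IsAffineHom p := MorphismProperty.of_isPullback h.flip inferInstance
  have hU : IsAffineOpen (p ⁻¹ᵁ V) := hV.preimage p
  have hpo := isPushout_const h hV
  let : Algebra F Γ(N.toOver.left, V) := (const N.toOver.hom V).toAlgebra
  let : Algebra K Γ(Q.toOver.left, p ⁻¹ᵁ V) := (const Q.toOver.hom (p ⁻¹ᵁ V)).toAlgebra
  let : Algebra Γ(N.toOver.left, V) Γ(Q.toOver.left, p ⁻¹ᵁ V) := (pb p V).toAlgebra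
  let : Algebra F Γ(Q.toOver.left, p ⁻¹ᵁ V) :=
    ((const Q.toOver.hom (p ⁻¹ᵁ V)).comp (algebraMap F K)).toAlgebra
  have : IsScalarTower F K Γ(Q.toOver.left, p ⁻¹ᵁ V) := .of_algebraMap_eq' rfl
  have : IsScalarTower F Γ(N.toOver.left, V) Γ(Q.toOver.left, p ⁻¹ᵁ V) :=
    .of_algebraMap_eq' (congrArg CommRingCat.Hom.hom hpo.w)
  have : Algebra.IsPushout F K Γ(N.toOver.left, V) Γ(Q.toOver.left, p ⁻¹ᵁ V) :=
    CommRingCat.isPushout_iff_isPushout.mp hpo
  have : Algebra.FiniteType F Γ(N.toOver.left, V) := finiteType_const N hV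
  have hq' : q ∈ p ⁻¹ᵁ V := hq
  have hcomap : ∀ x (hx : x ∈ p ⁻¹ᵁ V), (hU.primeIdealOf ⟨x, hx⟩).asIdeal.comap
      (algebraMap Γ(N.toOver.left, V) Γ(Q.toOver.left, p ⁻¹ᵁ V)) =
        (hV.primeIdealOf ⟨p x, hx⟩).asIdeal := by
    intro x hx
    have := congrArg PrimeSpectrum.asIdeal
      (IsAffineOpen.comap_primeIdealOf_appLE (f := p) V hV (p ⁻¹ᵁ V) hU le_rfl hx)
    rw [← this]
    rw [PrimeSpectrum.comap_asIdeal, Scheme.Hom.appLE_eq_app]
    rfl
  have hle : (hV.primeIdealOf ⟨p q, hq⟩).asIdeal.map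
      (algebraMap Γ(N.toOver.left, V) Γ(Q.toOver.left, p ⁻¹ᵁ V)) ≤
        (hU.primeIdealOf ⟨q, hq'⟩).asIdeal := by
    rw [Ideal.map_le_iff_le_comap, hcomap]
  obtain ⟨𝔪, h𝔪, h𝔪q⟩ := Ideal.exists_minimalPrimes_le hle
  obtain ⟨t, ht, htm⟩ := exists_pt hU 𝔪 h𝔪.1.1
  obtain ⟨h1, h2⟩ := dimOf_minimal (F := F) (K := K) (hV.primeIdealOf ⟨p q, hq⟩).asIdeal
    (hV.primeIdealOf ⟨p q, hq⟩).isPrime 𝔪 h𝔪
  refine ⟨t, (specializes_iff hU ht hq').2 (htm ▸ h𝔪q), ?_, ?_⟩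
  · have h3 := hcomap t ht
    rw [htm, h1] at h3
    have h4 : hV.primeIdealOf ⟨p q, hq⟩ = hV.primeIdealOf ⟨p t, ht⟩ := PrimeSpectrum.ext h3
    have h5 := hV.fromSpec_primeIdealOf ⟨p q, hq⟩
    rw [h4] at h5
    exact (hV.fromSpec_primeIdealOf ⟨p t, ht⟩).symm.trans h5
  · rw [pointDim_eq_dimOf Q hU ht, pointDim_eq_dimOf N hV hq, htm]
    exact h2

end

end Pool.Agent.Helper47.Spread
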