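import Mathlib
import Pool.Agent.Helper47.Spread.Defs

/-!
# Averages over orbits
-/

universe u v w

open CategoryTheory AlgebraicGeometry Limits

namespace Pool.Agent.Helper47.Spread

open Pool.Agent.Helper10 Pool.Agent.Helper10.SmProjVar Pool.Agent.Helper47.Chow
open Pool.Agent.Helper47.Desc

noncomputable section


/-- Sum over coset representatives of the points `g • x`. -/
private theorem avg_aux {Γ α : Type*} [Group Γ] [MulAction Γ α] (N : Subgroup Γ) [Fintype (Γ ⧸ N)]
    (x : α) (hN : N ≤ MulAction.stabilizer Γ x) (hfin : (MulAction.orbit Γ x).Finite) :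
    ∑ q : Γ ⧸ N, Finsupp.single (q.out • x) (1 : ℚ) =
      ((Fintype.card (Γ ⧸ N) : ℚ) * (hfin.toFinset.card : ℚ)⁻¹) •
        ∑ y ∈ hfin.toFinset, Finsupp.single y (1 : ℚ) := by
  classical
  have hout : ∀ g : Γ, ((g : Γ ⧸ N)).out • x = g • x := by
    intro g
    have h1 : (((g : Γ ⧸ N).out : Γ) : Γ ⧸ N) = g := Quotient.out_eq _
    have h2 : g⁻¹ * (g : Γ ⧸ N).out ∈ N := by
      rw [← QuotientGroup.eq]
      exact h1.symm
    have h3 := MulAction.mem_stabilizer_iff.1 (hN h2)
    rw [mul_smul, inv_smul_eq_iff] at h3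
    exact h3
  have hsm : ∀ (γ : Γ) (q : Γ ⧸ N), (γ • q).out • x = γ • (q.out • x) := by
    intro γ q
    induction q using QuotientGroup.induction_on with
    | H g =>
      have : γ • (g : Γ ⧸ N) = ((γ * g : Γ) : Γ ⧸ N) := rfl
      rw [this, hout, hout, mul_smul]
  have horb : ∀ q : Γ ⧸ N, q.out • x ∈ hfin.toFinset := fun q =>
    hfin.mem_toFinset.2 (MulAction.mem_orbit _ _)
  have hcard : ∀ y ∈ hfin.toFinset,
      (Finset.univ.filter fun q : Γ ⧸ N => q.out • x = y).card =
        (Finset.univ.filter fun q : Γ ⧸ N => q.out • x = x).card := by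
    intro y hy
    obtain ⟨γ, hγ⟩ := hfin.mem_toFinset.1 hy
    have hγ' : γ • x = y := hγ
    symm
    refine Finset.card_bij (fun q _ => γ • q) ?_ ?_ ?_
    · intro q hq
      rw [Finset.mem_filter] at hq ⊢
      exact ⟨Finset.mem_univ _, by rw [hsm, hq.2, hγ']⟩
    · intro q _ q' _ h
      exact MulAction.injective γ h
    · intro q hq
      rw [Finset.mem_filter] at hq
      refine ⟨γ⁻¹ • q, ?_, smul_inv_smul _ _⟩
      rw [Finset.mem_filter]
      refine ⟨Finset.mem_univ _, ?_⟩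
      rw [hsm, hq.2, ← hγ', inv_smul_smul]
  have htot : Fintype.card (Γ ⧸ N) =
      hfin.toFinset.card * (Finset.univ.filter fun q : Γ ⧸ N => q.out • x = x).card := by
    rw [← Finset.card_univ, Finset.card_eq_sum_card_fiberwise (f := fun q : Γ ⧸ N => q.out • x)
      (t := hfin.toFinset) (fun q _ => horb q), Finset.sum_congr rfl hcard, Finset.sum_const,
      smul_eq_mul]
  have hne : (hfin.toFinset.card : ℚ) ≠ 0 := by
    have : 0 < hfin.toFinset.card :=
      Finset.card_pos.2 ⟨x, hfin.mem_toFinset.2 (MulAction.mem_orbit_self x)⟩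
    exact_mod_cast this.ne'
  have hcoef : (Fintype.card (Γ ⧸ N) : ℚ) * (hfin.toFinset.card : ℚ)⁻¹ =
      ((Finset.univ.filter fun q : Γ ⧸ N => q.out • x = x).card : ℚ) := by
    rw [htot]
    push_cast
    field_simp
  rw [hcoef, Finset.smul_sum]
  rw [← Finset.sum_fiberwise_of_maps_to (s := Finset.univ) (t := hfin.toFinset)
    (g := fun q : Γ ⧸ N => q.out • x) (fun q _ => horb q)]
  refine Finset.sum_congr rfl fun y hy => ?_
  rw [← hcard y hy]
  rw [Finset.sum_congr rfl (g := fun _ => Finsupp.single y (1 : ℚ))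
    (fun q hq => by rw [(Finset.mem_filter.1 hq).2]), Finset.sum_const]
  rw [← Nat.cast_smul_eq_nsmul ℚ]

theorem exists_average {Γ α : Type*} [Group Γ] [MulAction Γ α]
    (hfin : ∀ x : α, (MulAction.orbit Γ x).Finite) (D : α →₀ ℚ) :
    ∃ s : Finset Γ, s.Nonempty ∧
      (s.card : ℚ)⁻¹ • ∑ g ∈ s, Finsupp.mapDomain (fun x => g • x) D =
        D.sum fun x c => (c * ((hfin x).toFinset.card : ℚ)⁻¹) •
          ∑ y ∈ (hfin x).toFinset, Finsupp.single y (1 : ℚ) := by
  classical
  set N : Subgroup Γ := ⨅ x : D.support, MulAction.stabilizer Γ (x : α) with hNdef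
  have hfi : N.FiniteIndex := by
    refine Subgroup.finiteIndex_iInf fun x => ⟨?_⟩
    rw [MulAction.index_stabilizer]
    exact ((Set.ncard_pos (hfin x)).2 ⟨x, MulAction.mem_orbit_self _⟩).ne'
  let _ : Fintype (Γ ⧸ N) := Subgroup.fintypeQuotientOfFiniteIndex
  have hinj : Function.Injective (Quotient.out : Γ ⧸ N → Γ) := Quotient.out_injective
  refine ⟨Finset.univ.image (Quotient.out : Γ ⧸ N → Γ), ?_, ?_⟩
  · exact Finset.Nonempty.image ⟨((1 : Γ) : Γ ⧸ N), Finset.mem_univ _⟩ _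
  rw [Finset.card_image_of_injective _ hinj, Finset.card_univ,
    Finset.sum_image fun a _ b _ h => hinj h]
  have h1 : ∑ q : Γ ⧸ N, Finsupp.mapDomain (fun x => q.out • x) D =
      ∑ x ∈ D.support, (D x) • ∑ q : Γ ⧸ N, Finsupp.single (q.out • x) (1 : ℚ) := by
    simp only [Finsupp.mapDomain, Finsupp.sum]
    rw [Finset.sum_comm]
    refine Finset.sum_congr rfl fun x _ => ?_
    rw [Finset.smul_sum]
    refine Finset.sum_congr rfl fun q _ => ?_
    rw [Finsupp.smul_single, smul_eq_mul, mul_one]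
  refine (congrArg (fun z => (Fintype.card (Γ ⧸ N) : ℚ)⁻¹ • z) h1).trans ?_
  rw [Finset.smul_sum, Finsupp.sum]
  refine Finset.sum_congr rfl fun x hx => ?_
  have hNx : N ≤ MulAction.stabilizer Γ x := iInf_le _ (⟨x, hx⟩ : D.support)
  rw [avg_aux N x hNx (hfin x), smul_smul, smul_smul]
  congr 1
  have hne : (Fintype.card (Γ ⧸ N) : ℚ) ≠ 0 := by
    exact_mod_cast (Fintype.card_pos_iff.2 ⟨((1 : Γ) : Γ ⧸ N)⟩).ne'
  field_simp

end

end Pool.Agent.Helper47.Spread
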