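import Mathlib
import Pool.Agent.Helper47.Spread.H1

/-!
# Induction over orbits
-/

universe u v w

open CategoryTheory AlgebraicGeometry Limits

namespace Pool.Agent.Helper47.Spread

open Pool.Agent.Helper10 Pool.Agent.Helper10.SmProjVar Pool.Agent.Helper47.Chow
open Pool.Agent.Helper47.Desc

noncomputable section

/-- Orbit induction for permutation modules. -/
private theorem orbit_induction_aux {Γ α V : Type*} [Group Γ] [MulAction Γ α] [AddCommGroup V]
    [Module ℚ V] (hfin : ∀ x : α, (MulAction.orbit Γ x).Finite) (c : (α →₀ ℚ) →ₗ[ℚ] V)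
    (T : Γ → V →ₗ[ℚ] V) (hT : ∀ g z, T g (c z) = c (Finsupp.mapDomain (fun x => g • x) z))
    (𝒢 : Submodule ℚ V) (h𝒢 : ∀ g, ∀ a ∈ 𝒢, T g a ∈ 𝒢) (P : α → Prop)
    (rel : α → α → Prop) (hwf : WellFounded rel)
    (hD : ∀ y : α, P y → ∃ D : α →₀ ℚ, c D ∈ 𝒢 ∧ 0 < D y ∧ (∀ g : Γ, 0 ≤ D (g • y)) ∧
      ∀ y', D y' ≠ 0 → P y' ∧ ((∃ g : Γ, g • y = y') ∨ rel y' y))
    (z : α →₀ ℚ) (hz : ∀ y, z y ≠ 0 → P y) (hinv : ∀ g, T g (c z) = c z) : c z ∈ 𝒢 := by
  classical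
  let u : α → (α →₀ ℚ) := fun x =>
    (((hfin x).toFinset.card : ℚ)⁻¹) • ∑ y ∈ (hfin x).toFinset, Finsupp.single y (1 : ℚ)
  let S : (α →₀ ℚ) → (α →₀ ℚ) := fun D => D.sum fun x a => a • u x
  have hS : ∀ D, ∃ s : Finset Γ, s.Nonempty ∧
      (s.card : ℚ)⁻¹ • ∑ g ∈ s, Finsupp.mapDomain (fun x => g • x) D = S D := by
    intro D
    obtain ⟨s, hs, h⟩ := exists_average hfin D
    refine ⟨s, hs, h.trans ?_⟩
    refine Finsupp.sum_congr fun x _ => ?_
    simp only [u, smul_smul]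
  have hcS : ∀ D, c (S D) = ∑ y ∈ D.support, D y • c (u y) := by
    intro D
    simp only [S, Finsupp.sum, map_sum, map_smul]
  have h1 : ∀ D, c D ∈ 𝒢 → c (S D) ∈ 𝒢 := by
    intro D hDm
    obtain ⟨s, -, h⟩ := hS D
    rw [← h, map_smul, map_sum]
    refine 𝒢.smul_mem _ (𝒢.sum_mem fun g _ => ?_)
    rw [← hT]
    exact h𝒢 g _ hDm
  have h2 : c (S z) = c z := by
    obtain ⟨s, hs, h⟩ := hS z
    rw [← h, map_smul, map_sum, Finset.sum_congr rfl (g := fun _ => c z)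
      (fun g _ => by rw [← hT, hinv]), Finset.sum_const, ← Nat.cast_smul_eq_nsmul ℚ, smul_smul,
      inv_mul_cancel₀ (by exact_mod_cast (Finset.card_pos.2 hs).ne'), one_smul]
  have hu : ∀ y y', (∃ g : Γ, g • y = y') → u y' = u y := by
    rintro y y' ⟨g, rfl⟩
    have horb : MulAction.orbit Γ (g • y) = MulAction.orbit Γ y :=
      MulAction.orbit_eq_iff.2 (MulAction.mem_orbit y g)
    have hfs : (hfin (g • y)).toFinset = (hfin y).toFinset := by
      ext w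
      simp only [Set.Finite.mem_toFinset, horb]
    simp only [u, hfs]
  have h3 : ∀ y, P y → c (u y) ∈ 𝒢 := by
    intro y
    induction y using hwf.induction with
    | h y ih =>
      intro hy
      obtain ⟨D, hDm, hDy, hDg, hDr⟩ := hD y hy
      have h4 := h1 D hDm
      rw [hcS, ← Finset.sum_filter_add_sum_filter_not D.support (fun y' => ∃ g : Γ, g • y = y')]
        at h4
      have h5 : ∑ y' ∈ D.support.filter (fun y' => ¬ ∃ g : Γ, g • y = y'), D y' • c (u y') ∈ 𝒢 := by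
        refine 𝒢.sum_mem fun y' hy' => 𝒢.smul_mem _ ?_
        rw [Finset.mem_filter, Finsupp.mem_support_iff] at hy'
        obtain ⟨hP, hor⟩ := hDr y' hy'.1
        exact ih y' (hor.resolve_left hy'.2) hP
      have h6 := (𝒢.add_mem_iff_left h5).1 h4
      have h7 : ∑ y' ∈ D.support.filter (fun y' => ∃ g : Γ, g • y = y'), D y' • c (u y') =
          (∑ y' ∈ D.support.filter (fun y' => ∃ g : Γ, g • y = y'), D y') • c (u y) := by
        rw [Finset.sum_smul]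
        refine Finset.sum_congr rfl fun y' hy' => ?_
        rw [Finset.mem_filter] at hy'
        rw [hu y y' hy'.2]
      rw [h7] at h6
      have hpos : 0 < ∑ y' ∈ D.support.filter (fun y' => ∃ g : Γ, g • y = y'), D y' := by
        refine Finset.sum_pos' ?_ ?_
        · intro y' hy'
          rw [Finset.mem_filter] at hy'
          obtain ⟨g, hg⟩ := hy'.2
          rw [← hg]
          exact hDg g
        · refine ⟨y, ?_, hDy⟩
          rw [Finset.mem_filter, Finsupp.mem_support_iff]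
          exact ⟨hDy.ne', 1, one_smul _ _⟩
      have h8 := 𝒢.smul_mem (∑ y' ∈ D.support.filter (fun y' => ∃ g : Γ, g • y = y'), D y')⁻¹ h6
      rwa [smul_smul, inv_mul_cancel₀ hpos.ne', one_smul] at h8
  rw [← h2, hcS]
  refine 𝒢.sum_mem fun y hy => 𝒢.smul_mem _ (h3 y (hz y ?_))
  exact Finsupp.mem_support_iff.1 hy

theorem orbit_induction {K : Type u} [Field K] {Y : SmProjVar K} {G : Type*} [Group G]
    (ρ : G →* SemiAut Y) (hfin : ∀ y : Y.Pt, (Set.range fun g => (ρ g).pt y).Finite)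
    (𝒢 : Submodule ℚ (CH Y)) (h𝒢 : ∀ g, ∀ a ∈ 𝒢, (ρ g).chow a ∈ 𝒢) (d : ℕ)
    (rel : Y.Pt → Y.Pt → Prop) (hwf : WellFounded rel)
    (hD : ∀ y : Y.Pt, Y.pointDim y = d → ∃ D : QCycles Y, cls Y D ∈ 𝒢 ∧ 0 < D.coeff y ∧
      (∀ g, 0 ≤ D.coeff ((ρ g).pt y)) ∧ ∀ y', D.coeff y' ≠ 0 → Y.pointDim y' = d ∧
        ((∃ g, (ρ g).pt y = y') ∨ rel y' y))
    (z : QCycles Y) (hz : ∀ y, z.coeff y ≠ 0 → Y.pointDim y = d)
    (hinv : ∀ g, (ρ g).chow (cls Y z) = cls Y z) : cls Y z ∈ 𝒢 := by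
  let act : MulAction G Y.Pt :=
    { smul := fun g y => (ρ g).pt y
      one_smul := fun y => by
        change (ρ 1).pt y = y
        rw [map_one, SemiAut.pt_one]
      mul_smul := fun g h y => by
        change (ρ (g * h)).pt y = (ρ g).pt ((ρ h).pt y)
        rw [map_mul, SemiAut.pt_mul] }
  let c : (Y.Pt →₀ ℚ) →ₗ[ℚ] CH Y := (ratZero Y).mkQ
  refine orbit_induction_aux (Γ := G) (α := Y.Pt) (V := CH Y) hfin c (fun g => (ρ g).chow)
    (fun g w => rfl) 𝒢 h𝒢 (fun y => Y.pointDim y = d) rel hwf ?_ z hz hinv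
  intro y hy
  obtain ⟨D, h1, h2, h3, h4⟩ := hD y hy
  exact ⟨D, h1, h2, h3, h4⟩

end

end Pool.Agent.Helper47.Spread
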