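import Mathlib
import Pool.Agent.Helper47.Spread.Defs

/-!
# A well-founded relation
-/

universe u v w

open CategoryTheory AlgebraicGeometry Limits

namespace Pool.Agent.Helper47.Spread

open Pool.Agent.Helper10 Pool.Agent.Helper10.SmProjVar Pool.Agent.Helper47.Chow
open Pool.Agent.Helper47.Desc

noncomputable section


theorem wellFounded_rel {N Y : Type*} [TopologicalSpace N] [TopologicalSpace.NoetherianSpace N]
    [T0Space N] (θ : Y → N) (lev : N → Y → ℕ) :
    WellFounded fun y' y => (θ y ⤳ θ y' ∧ θ y' ≠ θ y) ∨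
      (θ y' = θ y ∧ lev (θ y) y' < lev (θ y) y) := by
  have hN : TopologicalSpace.NoetherianSpace N := inferInstance
  have hlt : WellFoundedLT (TopologicalSpace.Closeds N) :=
    ((TopologicalSpace.noetherianSpace_TFAE N).out 0 1).1 hN
  have hcl : WellFounded fun a b : TopologicalSpace.Closeds N => a < b := hlt.wf
  let m : Y → TopologicalSpace.Closeds N × ℕ := fun y =>
    (⟨closure {θ y}, isClosed_closure⟩, lev (θ y) y)
  refine Subrelation.wf (r := InvImage (Prod.Lex (· < ·) (· < ·)) m) ?_
    (InvImage.wf m (hcl.prod_lex wellFounded_lt))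
  rintro y' y (⟨h1, h2⟩ | ⟨h1, h2⟩)
  · refine Prod.Lex.left _ _ ?_
    rw [specializes_iff_closure_subset] at h1
    refine lt_of_le_of_ne h1 fun h => h2 ?_
    have h3 : closure {θ y'} = closure {θ y} := congrArg (fun s : TopologicalSpace.Closeds N =>
      (s : Set N)) h
    exact ((specializes_iff_closure_subset.2 h3.ge).antisymm
      (specializes_iff_closure_subset.2 h3.le)).eq
  · have h4 : m y' = ((m y).1, lev (θ y) y') := by
      simp only [m, h1]
    show Prod.Lex _ _ (m y') (m y)
    rw [h4]
    exact Prod.Lex.right _ h2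

end

end Pool.Agent.Helper47.Spread
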