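import Mathlib
import Pool.Agent.Helper47.Spread.A1

/-!
# Dimension of prime ideals: codimension one
-/

universe u v w

open CategoryTheory AlgebraicGeometry Limits

namespace Pool.Agent.Helper47.Spread

open Pool.Agent.Helper10 Pool.Agent.Helper10.SmProjVar Pool.Agent.Helper47.Chow
open Pool.Agent.Helper47.Desc

noncomputable section

variable {k R : Type u} [Field k] [CommRing R]

/-- The residue ring of a polynomial ring by a principal prime ideal: the variables other than a
variable which occurs in the generator are algebraically independent. -/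
lemma A2.algInd_of_span {n : ℕ} {C : Type u} [CommRing C] [Algebra k C]
    (f : MvPolynomial (Fin n) k →ₐ[k] C) (p : MvPolynomial (Fin n) k)
    (hp : RingHom.ker f = Ideal.span {p}) (i : Fin n) (hi : p.degreeOf i ≠ 0) :
    AlgebraicIndependent k (fun j : {j : Fin n // j ≠ i} => f (MvPolynomial.X j.1)) := by
  rw [algebraicIndependent_iff]
  intro q hq
  have h1 : f (MvPolynomial.rename (fun j : {j : Fin n // j ≠ i} => j.1) q) = 0 := by
    rw [← hq]
    have : (f.comp (MvPolynomial.rename (fun j : {j : Fin n // j ≠ i} => j.1))) q =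
        MvPolynomial.aeval (fun j : {j : Fin n // j ≠ i} => f (MvPolynomial.X j.1)) q := by
      congr 1
      apply MvPolynomial.algHom_ext
      intro j
      simp
    exact this
  have h2 : MvPolynomial.rename (fun j : {j : Fin n // j ≠ i} => j.1) q ∈ Ideal.span {p} := by
    rw [← hp]; exact h1
  rw [Ideal.mem_span_singleton] at h2
  obtain ⟨r, hr⟩ := h2
  have hinj : Function.Injective (fun j : {j : Fin n // j ≠ i} => j.1) := Subtype.val_injective
  by_contra hq0
  have h3 : MvPolynomial.rename (fun j : {j : Fin n // j ≠ i} => j.1) q ≠ 0 := by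
    intro h
    apply hq0
    apply MvPolynomial.rename_injective _ hinj
    rw [h, map_zero]
  have hr0 : r ≠ 0 := by
    rintro rfl
    apply h3
    rw [hr, mul_zero]
  have hp0 : p ≠ 0 := by
    rintro rfl
    apply h3
    rw [hr, zero_mul]
  have h4 : (MvPolynomial.rename (fun j : {j : Fin n // j ≠ i} => j.1) q).degreeOf i = 0 := by
    by_contra h
    rw [← ne_eq, ← MvPolynomial.mem_vars_iff_degreeOf_ne_zero] at h
    classical
    have := MvPolynomial.vars_rename _ _ h
    rw [Finset.mem_image] at this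
    obtain ⟨j, -, hj⟩ := this
    exact j.2 hj
  have h5 := MvPolynomial.degreeOf_mul_eq (n := i) hp0 hr0
  rw [← hr, h4] at h5
  omega

lemma A2.trdeg_le {B C : Type u} [CommRing B] [IsDomain B] [Algebra k B] [Algebra.FiniteType k B]
    [CommRing C] [IsDomain C] [Algebra k C] (π : B →ₐ[k] C) (h0 : RingHom.ker π ≠ ⊥)
    (hmin : ∀ 𝔯 : Ideal B, 𝔯.IsPrime → 𝔯 ≤ RingHom.ker π → 𝔯 = ⊥ ∨ 𝔯 = RingHom.ker π) :
    Algebra.trdeg k B ≤ Algebra.trdeg k C + 1 := by
  obtain ⟨n, g, hginj, hgint⟩ := exists_integral_inj_algHom_of_fg k B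
  let : Algebra (MvPolynomial (Fin n) k) B := g.toRingHom.toAlgebra
  have : IsScalarTower k (MvPolynomial (Fin n) k) B :=
    IsScalarTower.of_algebraMap_eq fun x => (g.commutes x).symm
  have : Algebra.IsIntegral (MvPolynomial (Fin n) k) B := ⟨fun x => hgint x⟩
  have hinj : Function.Injective (algebraMap (MvPolynomial (Fin n) k) B) := hginj
  have : FaithfulSMul (MvPolynomial (Fin n) k) B :=
    (faithfulSMul_iff_algebraMap_injective _ _).2 hinj
  have hQ : (RingHom.ker π).IsPrime := RingHom.ker_isPrime _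
  have hne : (RingHom.ker π).comap (algebraMap (MvPolynomial (Fin n) k) B) ≠ ⊥ := fun h =>
    h0 (Ideal.eq_bot_of_comap_eq_bot h)
  obtain ⟨p, hpm, hpp⟩ := Ideal.IsPrime.exists_mem_prime_of_ne_bot
    (Ideal.comap_isPrime (algebraMap (MvPolynomial (Fin n) k) B) (RingHom.ker π)) hne
  have hpr : (Ideal.span {p}).IsPrime := (Ideal.span_singleton_prime hpp.ne_zero).2 hpp
  obtain ⟨P, hPQ, hPp, hPl⟩ := Ideal.exists_ideal_le_liesOver_of_le (p := Ideal.span {p})
    (q := (RingHom.ker π).under (MvPolynomial (Fin n) k)) (RingHom.ker π)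
    ((Ideal.span_singleton_le_iff_mem _).2 hpm)
  have hP : P = RingHom.ker π := by
    rcases hmin P hPp hPQ with h | h
    · exfalso
      have h1 := hPl.over
      rw [h, Ideal.under, Ideal.comap_bot_of_injective _ hinj] at h1
      exact hpp.ne_zero (Ideal.span_singleton_eq_bot.1 h1)
    · exact h
  have hker : RingHom.ker (π.comp g) = Ideal.span {p} := by
    rw [hPl.over, hP]
    rfl
  have hi : ∃ i, p.degreeOf i ≠ 0 := by
    by_contra h
    push Not at h
    have h1 : p.vars = ∅ := by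
      ext i
      rw [MvPolynomial.mem_vars_iff_degreeOf_ne_zero]
      simp [h i]
    rw [MvPolynomial.vars_eq_empty_iff_eq_C] at h1
    have h2 : p.coeff 0 ≠ 0 := by
      intro h2
      rw [h2, map_zero] at h1
      exact hpp.ne_zero h1
    apply hpp.not_isUnit
    rw [h1]
    exact (isUnit_iff_ne_zero.2 h2).map MvPolynomial.C
  obtain ⟨i, hi⟩ := hi
  have hind := A2.algInd_of_span (π.comp g) p hker i hi
  have h1 := hind.lift_cardinalMk_le_trdeg
  have h2 : Algebra.trdeg k B = (n : Cardinal.{u}) := by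
    rw [← trdeg_add_eq k (S := MvPolynomial (Fin n) k) (A := B), trdeg_eq_zero (R := MvPolynomial (Fin n) k) (A := B), add_zero,
      MvPolynomial.trdeg_of_isDomain]
    simp
  have h3 : Fintype.card {j : Fin n // j ≠ i} = n - 1 := by simp
  have h5 : ((n - 1 : ℕ) : Cardinal.{u}) ≤ Algebra.trdeg k C := by
    rw [Cardinal.mk_fintype, h3, Cardinal.lift_natCast, Cardinal.lift_uzero] at h1
    exact h1
  have h6 : (n : Cardinal.{u}) = ((n - 1 : ℕ) : Cardinal.{u}) + 1 := by
    have hn : 0 < n := i.pos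
    have : n = (n - 1) + 1 := (Nat.sub_add_cancel hn).symm
    conv_lhs => rw [this]
    push_cast
    rfl
  rw [h2, h6]
  exact add_le_add h5 le_rfl

theorem dimOf_add_one (φ : k →+* R) (hφ : φ.FiniteType) (𝔭 𝔮 : Ideal R) (h𝔭 : 𝔭.IsPrime)
    (h𝔮 : 𝔮.IsPrime) (h : 𝔭 < 𝔮)
    (h' : ∀ 𝔯 : Ideal R, 𝔯.IsPrime → 𝔭 ≤ 𝔯 → 𝔯 ≤ 𝔮 → 𝔯 = 𝔭 ∨ 𝔯 = 𝔮) :
    dimOf φ 𝔮 + 1 = dimOf φ 𝔭 := by
  apply le_antisymm
  · exact dimOf_lt φ hφ 𝔭 𝔮 h𝔭 h𝔮 h
  unfold dimOf
  let : Algebra k (R ⧸ 𝔭) := ((Ideal.Quotient.mk 𝔭).comp φ).toAlgebra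
  let : Algebra k (R ⧸ 𝔮) := ((Ideal.Quotient.mk 𝔮).comp φ).toAlgebra
  have : Algebra.FiniteType k (R ⧸ 𝔭) :=
    (RingHom.FiniteType.of_surjective (Ideal.Quotient.mk 𝔭) Ideal.Quotient.mk_surjective).comp hφ
  have : Algebra.FiniteType k (R ⧸ 𝔮) :=
    (RingHom.FiniteType.of_surjective (Ideal.Quotient.mk 𝔮) Ideal.Quotient.mk_surjective).comp hφ
  let π : (R ⧸ 𝔭) →ₐ[k] (R ⧸ 𝔮) :=
    { Ideal.Quotient.factor h.le with
      commutes' := fun x => rfl }
  have hmk : ∀ x : R, π (Ideal.Quotient.mk 𝔭 x) = Ideal.Quotient.mk 𝔮 x := fun x => rfl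
  have hker : (RingHom.ker π).comap (Ideal.Quotient.mk 𝔭) = 𝔮 := by
    ext x
    rw [Ideal.mem_comap, RingHom.mem_ker, hmk, Ideal.Quotient.eq_zero_iff_mem]
  have hsurj : Function.Surjective (Ideal.Quotient.mk 𝔭) := Ideal.Quotient.mk_surjective
  have key : Algebra.trdeg k (R ⧸ 𝔭) ≤ Algebra.trdeg k (R ⧸ 𝔮) + 1 := by
    apply A2.trdeg_le π
    · intro h0
      rw [h0] at hker
      have : Ideal.comap (Ideal.Quotient.mk 𝔭) ⊥ = 𝔭 := by
        rw [← RingHom.ker_eq_comap_bot, Ideal.mk_ker]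
      rw [this] at hker
      exact h.ne hker
    · intro 𝔯 h𝔯 hle
      rcases h' (𝔯.comap (Ideal.Quotient.mk 𝔭)) (Ideal.comap_isPrime _ _) (fun x hx => by
          rw [Ideal.mem_comap, Ideal.Quotient.eq_zero_iff_mem.2 hx]
          exact 𝔯.zero_mem) (fun x hx => by
          rw [← hker]
          exact hle hx) with h1 | h1
      · left
        apply Ideal.comap_injective_of_surjective _ hsurj
        rw [h1, ← RingHom.ker_eq_comap_bot, Ideal.mk_ker]
      · right
        apply Ideal.comap_injective_of_surjective _ hsurj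
        rw [h1, hker]
  have hfin : Algebra.trdeg k (R ⧸ 𝔮) < Cardinal.aleph0 := trdeg_lt_aleph0_of_finiteType
  have hfin' : Algebra.trdeg k (R ⧸ 𝔮) + 1 < Cardinal.aleph0 :=
    Cardinal.add_lt_aleph0 hfin Cardinal.one_lt_aleph0
  have h3 := Cardinal.toNat_le_toNat key hfin'
  rw [Cardinal.toNat_add hfin Cardinal.one_lt_aleph0, Cardinal.one_toNat] at h3
  exact h3

end

end Pool.Agent.Helper47.Spread
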