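import Mathlib
import Pool.Agent.Helper47.Spread.Defs

/-!
# Dimension of extended primes of polynomial rings
-/

universe u v w

open CategoryTheory AlgebraicGeometry Limits

namespace Pool.Agent.Helper47.Spread

open Pool.Agent.Helper10 Pool.Agent.Helper10.SmProjVar Pool.Agent.Helper47.Chow
open Pool.Agent.Helper47.Desc

noncomputable section

variable {k R : Type u} [Field k] [CommRing R]

/-- The dimension can be computed in any isomorphic algebra. -/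
theorem dimOf_eq_toNat_trdeg (φ : k →+* R) (𝔭 : Ideal R) (B : Type u) [CommRing B] [Algebra k B]
    (e : (R ⧸ 𝔭) ≃+* B) (h : ∀ a, e (Ideal.Quotient.mk 𝔭 (φ a)) = algebraMap k B a) :
    dimOf φ 𝔭 = Cardinal.toNat (Algebra.trdeg k B) := by
  let _ : Algebra k (R ⧸ 𝔭) := ((Ideal.Quotient.mk 𝔭).comp φ).toAlgebra
  exact congrArg Cardinal.toNat (AlgEquiv.trdeg_eq (AlgEquiv.ofRingEquiv (f := e) h))

theorem dimOf_map_C (φ : k →+* R) (hφ : φ.FiniteType) (𝔭 : Ideal R) (h𝔭 : 𝔭.IsPrime) :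
    dimOf ((Polynomial.C).comp φ) (𝔭.map Polynomial.C) = dimOf φ 𝔭 + 1 := by
  let _ : Algebra k R := φ.toAlgebra
  have hft : Algebra.FiniteType k R := hφ
  have hft' : Algebra.FiniteType k (R ⧸ 𝔭) :=
    hft.of_surjective (Ideal.Quotient.mkₐ k 𝔭) (Ideal.Quotient.mkₐ_surjective k 𝔭)
  have hdom : IsDomain (R ⧸ 𝔭) := Ideal.Quotient.isDomain 𝔭
  have hfin : Algebra.trdeg k (R ⧸ 𝔭) < Cardinal.aleph0 := trdeg_lt_aleph0_of_finiteType
  have h1 : dimOf φ 𝔭 = Cardinal.toNat (Algebra.trdeg k (R ⧸ 𝔭)) :=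
    dimOf_eq_toNat_trdeg φ 𝔭 (R ⧸ 𝔭) (RingEquiv.refl _) (fun a => rfl)
  have h2 : dimOf ((Polynomial.C).comp φ) (𝔭.map Polynomial.C) =
      Cardinal.toNat (Algebra.trdeg k (Polynomial (R ⧸ 𝔭))) := by
    refine dimOf_eq_toNat_trdeg _ _ (Polynomial (R ⧸ 𝔭))
      (Ideal.polynomialQuotientEquivQuotientPolynomial 𝔭).symm (fun a => ?_)
    rw [RingEquiv.symm_apply_eq]
    show _ = (Ideal.polynomialQuotientEquivQuotientPolynomial 𝔭)
      (Polynomial.C (Ideal.Quotient.mk 𝔭 (φ a)))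
    rw [← Polynomial.map_C (Ideal.Quotient.mk 𝔭),
      Ideal.polynomialQuotientEquivQuotientPolynomial_map_mk]
    rfl
  have h3 := trdeg_add_eq k (R ⧸ 𝔭) (A := Polynomial (R ⧸ 𝔭))
  rw [Polynomial.trdeg_of_isDomain] at h3
  rw [h1, h2, ← h3, Cardinal.toNat_add hfin Cardinal.one_lt_aleph0, Cardinal.one_toNat]

theorem dimOf_map_mvC (φ : k →+* R) (hφ : φ.FiniteType) (n : ℕ) (𝔭 : Ideal R)
    (h𝔭 : 𝔭.IsPrime) :
    dimOf ((MvPolynomial.C (σ := Fin n)).comp φ) (𝔭.map (MvPolynomial.C (σ := Fin n))) =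
      dimOf φ 𝔭 + n := by
  let _ : Algebra k R := φ.toAlgebra
  have hft : Algebra.FiniteType k R := hφ
  have hft' : Algebra.FiniteType k (R ⧸ 𝔭) :=
    hft.of_surjective (Ideal.Quotient.mkₐ k 𝔭) (Ideal.Quotient.mkₐ_surjective k 𝔭)
  have hdom : IsDomain (R ⧸ 𝔭) := Ideal.Quotient.isDomain 𝔭
  have hfin : Algebra.trdeg k (R ⧸ 𝔭) < Cardinal.aleph0 := trdeg_lt_aleph0_of_finiteType
  have h1 : dimOf φ 𝔭 = Cardinal.toNat (Algebra.trdeg k (R ⧸ 𝔭)) :=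
    dimOf_eq_toNat_trdeg φ 𝔭 (R ⧸ 𝔭) (RingEquiv.refl _) (fun a => rfl)
  have h2 : dimOf ((MvPolynomial.C (σ := Fin n)).comp φ) (𝔭.map (MvPolynomial.C (σ := Fin n))) =
      Cardinal.toNat (Algebra.trdeg k (MvPolynomial (Fin n) (R ⧸ 𝔭))) := by
    refine dimOf_eq_toNat_trdeg _ _ (MvPolynomial (Fin n) (R ⧸ 𝔭))
      (MvPolynomial.quotientEquivQuotientMvPolynomial (σ := Fin n) 𝔭).symm.toRingEquiv
      (fun a => ?_)
    show (MvPolynomial.quotientEquivQuotientMvPolynomial (σ := Fin n) 𝔭).symm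
      (Ideal.Quotient.mk _ (MvPolynomial.C (φ a))) = _
    rw [AlgEquiv.symm_apply_eq]
    show _ = (MvPolynomial.quotientEquivQuotientMvPolynomial (σ := Fin n) 𝔭)
      (MvPolynomial.C (Ideal.Quotient.mk 𝔭 (φ a)))
    have h5 := (MvPolynomial.quotientEquivQuotientMvPolynomial (σ := Fin n) 𝔭).commutes (φ a)
    exact h5.symm
  have h3 := trdeg_add_eq k (R ⧸ 𝔭) (A := MvPolynomial (Fin n) (R ⧸ 𝔭))
  rw [MvPolynomial.trdeg_of_isDomain] at h3
  have h4 : Cardinal.lift.{u} (Cardinal.mk (Fin n)) = (n : Cardinal.{u}) := by simp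
  rw [h4] at h3
  rw [h1, h2, ← h3, Cardinal.toNat_add hfin (Cardinal.natCast_lt_aleph0), Cardinal.toNat_natCast]

end

end Pool.Agent.Helper47.Spread
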