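import Mathlib
import Pool.Agent.Helper47.Spread.A1
import Pool.Agent.Helper47.Spread.A3

/-!
# Primes of a polynomial ring in one variable
-/

universe u v w

open CategoryTheory AlgebraicGeometry Limits

namespace Pool.Agent.Helper47.Spread

open Pool.Agent.Helper10 Pool.Agent.Helper10.SmProjVar Pool.Agent.Helper47.Chow
open Pool.Agent.Helper47.Desc

noncomputable section

variable {k R : Type u} [Field k] [CommRing R]

theorem finiteType_C (φ : k →+* R) (hφ : φ.FiniteType) :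
    ((Polynomial.C : R →+* Polynomial R).comp φ).FiniteType := by
  refine RingHom.FiniteType.comp ?_ hφ
  have h : Algebra.FiniteType R (Polynomial R) := inferInstance
  exact (RingHom.finiteType_algebraMap (A := R) (B := Polynomial R)).2 h

theorem finiteType_quot (φ : k →+* R) (hφ : φ.FiniteType) (𝔭 : Ideal R) :
    ((Ideal.Quotient.mk 𝔭).comp φ).FiniteType :=
  RingHom.FiniteType.comp (RingHom.FiniteType.of_surjective _ Ideal.Quotient.mk_surjective) hφ

/-- Dimension does not increase under contraction (along any ring map). -/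
theorem dimOf_comap_le {S : Type u} [CommRing S] (φ : k →+* R) (ψ : R →+* S)
    (hφ : (ψ.comp φ).FiniteType) (𝔭 : Ideal S) :
    dimOf φ (𝔭.comap ψ) ≤ dimOf (ψ.comp φ) 𝔭 := by
  unfold dimOf
  let a1 : Algebra k (R ⧸ 𝔭.comap ψ) := ((Ideal.Quotient.mk (𝔭.comap ψ)).comp φ).toAlgebra
  let a2 : Algebra k (S ⧸ 𝔭) := ((Ideal.Quotient.mk 𝔭).comp (ψ.comp φ)).toAlgebra
  have hfin : Algebra.FiniteType k (S ⧸ 𝔭) := finiteType_quot (ψ.comp φ) hφ 𝔭
  have hlt : Algebra.trdeg k (S ⧸ 𝔭) < Cardinal.aleph0 := trdeg_lt_aleph0_of_finiteType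
  refine Cardinal.toNat_le_toNat ?_ hlt
  let f : (R ⧸ 𝔭.comap ψ) →ₐ[k] (S ⧸ 𝔭) :=
    { Ideal.quotientMap 𝔭 ψ le_rfl with
      commutes' := fun x => by
        show Ideal.quotientMap 𝔭 ψ le_rfl (Ideal.Quotient.mk (𝔭.comap ψ) (φ x)) =
          Ideal.Quotient.mk 𝔭 (ψ (φ x))
        rw [Ideal.quotientMap_mk] }
  refine trdeg_le_of_injective f ?_
  exact Ideal.quotientMap_injective

/-- Pseudo-division: with `b` of minimal degree modulo `𝔟`, every element of `𝔭` has a multiple by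
a constant outside `𝔟` in the ideal generated by `b` and `𝔟`. -/
theorem exists_mul_mem (𝔭 : Ideal (Polynomial R)) (h𝔭 : 𝔭.IsPrime) (b : Polynomial R)
    (hb : b ∈ 𝔭) (hb0 : b ∉ (𝔭.comap Polynomial.C).map Polynomial.C)
    (hmin : ∀ p ∈ 𝔭, p ∉ (𝔭.comap Polynomial.C).map Polynomial.C →
      (b.map (Ideal.Quotient.mk (𝔭.comap Polynomial.C))).natDegree ≤
        (p.map (Ideal.Quotient.mk (𝔭.comap Polynomial.C))).natDegree) :
    ∀ n : ℕ, ∀ p ∈ 𝔭, (p.map (Ideal.Quotient.mk (𝔭.comap Polynomial.C))).natDegree ≤ n →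
      ∃ c : R, c ∉ 𝔭.comap Polynomial.C ∧ Polynomial.C c * p ∈
        Ideal.span {b} ⊔ (𝔭.comap Polynomial.C).map Polynomial.C := by
  set 𝔟 : Ideal R := 𝔭.comap Polynomial.C with h𝔟
  have hbp : 𝔟.IsPrime := Ideal.comap_isPrime _ _
  have hmem : ∀ p : Polynomial R, p ∈ 𝔟.map Polynomial.C ↔
      p.map (Ideal.Quotient.mk 𝔟) = 0 := by
    intro p
    rw [Ideal.mem_map_C_iff, Polynomial.ext_iff]
    simp only [Polynomial.coeff_map, Polynomial.coeff_zero, Ideal.Quotient.eq_zero_iff_mem]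
  have hle : 𝔟.map Polynomial.C ≤ 𝔭 := Ideal.map_comap_le
  set B := b.map (Ideal.Quotient.mk 𝔟) with hB
  have hB0 : B ≠ 0 := fun h => hb0 ((hmem b).2 h)
  -- degree of `B` is positive
  have hBd : 0 < B.natDegree := by
    rw [Nat.pos_iff_ne_zero]
    intro h0
    have h1 : b - Polynomial.C (b.coeff 0) ∈ 𝔟.map Polynomial.C := by
      rw [hmem, Polynomial.map_sub, Polynomial.map_C, sub_eq_zero, ← hB,
        Polynomial.eq_C_of_natDegree_eq_zero h0, hB, Polynomial.coeff_map]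
    have h2 : Polynomial.C (b.coeff 0) ∈ 𝔭 := by
      have := 𝔭.sub_mem hb (hle h1)
      simpa using this
    have h3 : b.coeff 0 ∈ 𝔟 := h2
    apply hB0
    rw [Polynomial.eq_C_of_natDegree_eq_zero h0, hB, Polynomial.coeff_map,
      Ideal.Quotient.eq_zero_iff_mem.2 h3, Polynomial.C_0]
  set d := B.natDegree with hd
  have ha : b.coeff d ∉ 𝔟 := by
    intro h
    have h1 : B.leadingCoeff = 0 := by
      rw [Polynomial.leadingCoeff, ← hd, hB, Polynomial.coeff_map,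
        Ideal.Quotient.eq_zero_iff_mem.2 h]
    exact hB0 (Polynomial.leadingCoeff_eq_zero.1 h1)
  intro n
  induction n using Nat.strong_induction_on with
  | _ n ih =>
    intro p hp hpn
    by_cases hp0 : p ∈ 𝔟.map Polynomial.C
    · exact ⟨1, fun h => hbp.ne_top ((Ideal.eq_top_iff_one _).2 h), by
        rw [Polynomial.C_1, one_mul]
        exact Ideal.mem_sup_right hp0⟩
    set P := p.map (Ideal.Quotient.mk 𝔟) with hP
    set m := P.natDegree with hm
    have hdm : d ≤ m := hmin p hp hp0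
    set p' := Polynomial.C (b.coeff d) * p - Polynomial.C (p.coeff m) *
      Polynomial.X ^ (m - d) * b with hp'
    have hp'm : p' ∈ 𝔭 := 𝔭.sub_mem (𝔭.mul_mem_left _ hp) (𝔭.mul_mem_left _ hb)
    have hP' : p'.map (Ideal.Quotient.mk 𝔟) = Polynomial.C (B.coeff d) * P -
        Polynomial.C (P.coeff m) * Polynomial.X ^ (m - d) * B := by
      rw [hp', Polynomial.map_sub, Polynomial.map_mul, Polynomial.map_mul, Polynomial.map_mul,
        Polynomial.map_C, Polynomial.map_C, Polynomial.map_pow, Polynomial.map_X, hB, hP,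
        Polynomial.coeff_map, Polynomial.coeff_map]
    have hdeg : (p'.map (Ideal.Quotient.mk 𝔟)).natDegree ≤ m - 1 := by
      rw [hP']
      rw [Polynomial.natDegree_le_iff_coeff_eq_zero]
      intro N hN
      rw [Polynomial.coeff_sub, Polynomial.coeff_C_mul, mul_assoc, Polynomial.coeff_C_mul,
        Polynomial.coeff_X_pow_mul']
      rcases Nat.lt_or_ge m N with h1 | h1
      · rw [Polynomial.coeff_eq_zero_of_natDegree_lt (hm ▸ h1 : P.natDegree < N), if_pos (by omega),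
          Polynomial.coeff_eq_zero_of_natDegree_lt (by omega : B.natDegree < N - (m - d))]
        ring
      · have h2 : N = m := by omega
        rw [h2, if_pos (by omega), show m - (m - d) = d by omega]
        ring
    obtain ⟨c, hc, hcm⟩ := ih (m - 1) (by omega) p' hp'm hdeg
    refine ⟨c * b.coeff d, fun h => (hbp.mem_or_mem h).elim hc ha, ?_⟩
    have h1 : Polynomial.C (c * b.coeff d) * p = Polynomial.C c * p' +
        Polynomial.C c * (Polynomial.C (p.coeff m) * Polynomial.X ^ (m - d)) * b := by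
      rw [hp', Polynomial.C_mul]
      ring
    rw [h1]
    exact Ideal.add_mem _ hcm (Ideal.mem_sup_left
      (Ideal.mul_mem_left _ _ (Ideal.mem_span_singleton_self b)))

theorem exists_one (φ : k →+* R) (hφ : φ.FiniteType) (𝔭 : Ideal (Polynomial R))
    (h𝔭 : 𝔭.IsPrime) (h : 𝔭 ≠ (𝔭.comap Polynomial.C).map Polynomial.C) :
    dimOf ((Polynomial.C).comp φ) ((𝔭.comap Polynomial.C).map Polynomial.C) =
      dimOf ((Polynomial.C).comp φ) 𝔭 + 1 ∧
    ∃ b ∈ 𝔭, b ∉ (𝔭.comap Polynomial.C).map Polynomial.C ∧ ∀ 𝔮 : Ideal (Polynomial R),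
      𝔮.IsPrime → (𝔭.comap Polynomial.C).map Polynomial.C ≤ 𝔮 → b ∈ 𝔮 →
        dimOf ((Polynomial.C).comp φ) 𝔮 + 1 =
          dimOf ((Polynomial.C).comp φ) ((𝔭.comap Polynomial.C).map Polynomial.C) →
            𝔮 = 𝔭 ∨ 𝔮 = (𝔮.comap Polynomial.C).map Polynomial.C := by
  set 𝔟 : Ideal R := 𝔭.comap Polynomial.C with h𝔟
  have hbp : 𝔟.IsPrime := Ideal.comap_isPrime _ _
  have hbtp : (𝔟.map Polynomial.C).IsPrime := Ideal.isPrime_map_C_of_isPrime
  have hle : 𝔟.map Polynomial.C ≤ 𝔭 := Ideal.map_comap_le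
  have hlt : 𝔟.map Polynomial.C < 𝔭 := lt_of_le_of_ne hle (Ne.symm h)
  have hC : ((Polynomial.C : R →+* Polynomial R).comp φ).FiniteType := finiteType_C φ hφ
  have e1 : dimOf ((Polynomial.C).comp φ) (𝔟.map Polynomial.C) = dimOf φ 𝔟 + 1 :=
    dimOf_map_C φ hφ 𝔟 hbp
  have e2 : dimOf ((Polynomial.C).comp φ) 𝔭 < dimOf ((Polynomial.C).comp φ)
      (𝔟.map Polynomial.C) := dimOf_lt _ hC _ _ hbtp h𝔭 hlt
  have e3 : dimOf φ 𝔟 ≤ dimOf ((Polynomial.C).comp φ) 𝔭 := dimOf_comap_le φ _ hC 𝔭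
  have e4 : dimOf ((Polynomial.C).comp φ) (𝔟.map Polynomial.C) =
      dimOf ((Polynomial.C).comp φ) 𝔭 + 1 := by omega
  refine ⟨e4, ?_⟩
  have hne : ∃ n : ℕ, ∃ p ∈ 𝔭, p ∉ 𝔟.map Polynomial.C ∧
      (p.map (Ideal.Quotient.mk 𝔟)).natDegree = n := by
    obtain ⟨p, hp, hp'⟩ := SetLike.exists_of_lt hlt
    exact ⟨_, p, hp, hp', rfl⟩
  classical
  obtain ⟨b, hb, hb0, hbn⟩ := Nat.find_spec hne
  have hmin : ∀ p ∈ 𝔭, p ∉ 𝔟.map Polynomial.C →
      (b.map (Ideal.Quotient.mk 𝔟)).natDegree ≤ (p.map (Ideal.Quotient.mk 𝔟)).natDegree := by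
    intro p hp hp'
    rw [hbn]
    exact Nat.find_min' hne ⟨p, hp, hp', rfl⟩
  refine ⟨b, hb, hb0, ?_⟩
  intro 𝔮 h𝔮 hq hbq hdim
  by_cases hc : 𝔮.comap Polynomial.C = 𝔟
  · left
    have hpq : 𝔭 ≤ 𝔮 := by
      intro p hp
      obtain ⟨c, hc', hcm⟩ := exists_mul_mem 𝔭 h𝔭 b hb hb0 hmin _ p hp le_rfl
      have h1 : Ideal.span {b} ⊔ 𝔟.map Polynomial.C ≤ 𝔮 :=
        sup_le ((Ideal.span_singleton_le_iff_mem _).2 hbq) hq
      rcases h𝔮.mem_or_mem (h1 hcm) with h2 | h2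
      · exact absurd (show c ∈ 𝔟 by rw [← hc]; exact h2) hc'
      · exact h2
    by_contra hne'
    have := dimOf_lt _ hC _ _ h𝔭 h𝔮 (lt_of_le_of_ne hpq (fun e => hne' e.symm))
    omega
  · right
    have hcp : (𝔮.comap Polynomial.C).IsPrime := Ideal.comap_isPrime _ _
    have hbc : 𝔟 ≤ 𝔮.comap Polynomial.C := by
      intro x hx
      exact hq (Ideal.mem_map_of_mem _ hx)
    have e5 := dimOf_lt φ hφ _ _ hbp hcp (lt_of_le_of_ne hbc (Ne.symm hc))
    have e6 := dimOf_map_C φ hφ _ hcp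
    have hcq : (𝔮.comap Polynomial.C).map Polynomial.C ≤ 𝔮 := Ideal.map_comap_le
    by_contra hne'
    have e7 := dimOf_lt _ hC _ _ Ideal.isPrime_map_C_of_isPrime h𝔮
      (lt_of_le_of_ne hcq (fun e => hne' e.symm))
    omega

end

end Pool.Agent.Helper47.Spread
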