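import Mathlib
import Pool.Agent.Helper47.Spread.A4

/-!
# Levels of primes of polynomial rings
-/

universe u v w

open CategoryTheory AlgebraicGeometry Limits

namespace Pool.Agent.Helper47.Spread

open Pool.Agent.Helper10 Pool.Agent.Helper10.SmProjVar Pool.Agent.Helper47.Chow
open Pool.Agent.Helper47.Desc

noncomputable section

variable {k R : Type u} [Field k] [CommRing R]

private def LevProp (φ : k →+* R) {A : Type u} [CommRing A] (c : R →+* A) (m : ℕ) : Prop :=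
  ∃ lev : Ideal A → ℕ, (∀ 𝔭, lev 𝔭 ≤ m) ∧ ∀ 𝔭 : Ideal A,
      𝔭.IsPrime →
        (lev 𝔭 = 0 → 𝔭 = (𝔭.comap c).map c) ∧
        (lev 𝔭 ≠ 0 → ∃ 𝔭' : Ideal A, 𝔭'.IsPrime ∧ 𝔭' ≤ 𝔭 ∧
          𝔭'.comap c = 𝔭.comap c ∧
          dimOf (c.comp φ) 𝔭' = dimOf (c.comp φ) 𝔭 + 1 ∧
          ∃ b ∈ 𝔭, b ∉ 𝔭' ∧ ∀ 𝔮 : Ideal A, 𝔮.IsPrime → 𝔭' ≤ 𝔮 →
            b ∈ 𝔮 → dimOf (c.comp φ) 𝔮 + 1 =
              dimOf (c.comp φ) 𝔭' → 𝔮 = 𝔭 ∨ lev 𝔮 < lev 𝔭)

private theorem dimOf_equiv {A B : Type u} [CommRing A] [CommRing B] (ψ : k →+* A)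
    (e : A ≃+* B) (𝔭 : Ideal B) :
    dimOf ((e : A →+* B).comp ψ) 𝔭 = dimOf ψ (𝔭.comap (e : A →+* B)) := by
  unfold dimOf
  letI a1 : Algebra k (B ⧸ 𝔭) :=
    ((Ideal.Quotient.mk 𝔭).comp ((e : A →+* B).comp ψ)).toAlgebra
  letI a2 : Algebra k (A ⧸ 𝔭.comap (e : A →+* B)) :=
    ((Ideal.Quotient.mk (𝔭.comap (e : A →+* B))).comp ψ).toAlgebra
  have h : 𝔭 = (𝔭.comap (e : A →+* B)).map (e : A →+* B) :=
    (Ideal.map_comap_of_surjective (e : A →+* B) e.surjective 𝔭).symm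
  let e' : (A ⧸ 𝔭.comap (e : A →+* B)) ≃+* (B ⧸ 𝔭) := Ideal.quotientEquiv _ _ e h
  let e'' : (A ⧸ 𝔭.comap (e : A →+* B)) ≃ₐ[k] (B ⧸ 𝔭) :=
    AlgEquiv.ofRingEquiv (f := e') (fun r => rfl)
  exact congrArg Cardinal.toNat e''.trdeg_eq.symm

private theorem levProp_equiv {φ : k →+* R} {A B : Type u} [CommRing A] [CommRing B]
    {c : R →+* A} (e : A ≃+* B) {c' : R →+* B} (hc : (e : A →+* B).comp c = c') {m : ℕ}
    (h : LevProp φ c' m) : LevProp φ c m := by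
  obtain ⟨lev, hlev, H⟩ := h
  subst hc
  have h1 : ∀ 𝔭 : Ideal A, (𝔭.comap (e.symm : B →+* A)).comap (e : A →+* B) = 𝔭 := by
    intro 𝔭
    ext x
    have h0 : (e.symm : B →+* A) ((e : A →+* B) x) = x := by simp
    rw [Ideal.mem_comap, Ideal.mem_comap, h0]
  have h2 : ∀ 𝔭 : Ideal B, (𝔭.comap (e : A →+* B)).comap (e.symm : B →+* A) = 𝔭 := by
    intro 𝔭
    ext x
    have h0 : (e : A →+* B) ((e.symm : B →+* A) x) = x := by simp
    rw [Ideal.mem_comap, Ideal.mem_comap, h0]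
  have h3 : ∀ 𝔭 : Ideal B, dimOf (((e : A →+* B).comp c).comp φ) 𝔭 =
      dimOf (c.comp φ) (𝔭.comap (e : A →+* B)) := by
    intro 𝔭
    exact dimOf_equiv (c.comp φ) e 𝔭
  have h4 : ∀ 𝔭 : Ideal A, dimOf (((e : A →+* B).comp c).comp φ)
      (𝔭.comap (e.symm : B →+* A)) = dimOf (c.comp φ) 𝔭 := by
    intro 𝔭
    rw [h3, h1]
  refine ⟨fun 𝔭 => lev (𝔭.comap (e.symm : B →+* A)), fun 𝔭 => hlev _, fun 𝔭 h𝔭 => ?_⟩
  have h𝔭e : (𝔭.comap (e.symm : B →+* A)).IsPrime := Ideal.comap_isPrime _ _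
  obtain ⟨H1, H2⟩ := H (𝔭.comap (e.symm : B →+* A)) h𝔭e
  refine ⟨fun h0 => ?_, fun h0 => ?_⟩
  · have h5 := H1 h0
    rw [← Ideal.comap_comap, h1, ← Ideal.map_map] at h5
    have h6 := congrArg (Ideal.comap (e : A →+* B)) h5
    rw [h1, Ideal.comap_map_of_bijective (e : A →+* B) e.bijective] at h6
    exact h6
  · obtain ⟨𝔭', hp', hle, hcm, hdim, b, hb, hb', hq⟩ := H2 h0
    refine ⟨𝔭'.comap (e : A →+* B), Ideal.comap_isPrime _ _, ?_, ?_, ?_, (e.symm : B →+* A) b,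
      hb, ?_, ?_⟩
    · have := Ideal.comap_mono (f := (e : A →+* B)) hle
      rwa [h1] at this
    · rw [Ideal.comap_comap, hcm, ← Ideal.comap_comap, h1]
    · rw [← h3, hdim, h4]
    · intro hb2
      apply hb'
      have h6 : (e : A →+* B) ((e.symm : B →+* A) b) = b := by simp
      rw [Ideal.mem_comap, h6] at hb2
      exact hb2
    · intro 𝔮 h𝔮 hle' hbq hd
      have h5 : 𝔭' ≤ 𝔮.comap (e.symm : B →+* A) := by
        have := Ideal.comap_mono (f := (e.symm : B →+* A)) hle'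
        rwa [h2] at this
      have h6 := hq (𝔮.comap (e.symm : B →+* A)) (Ideal.comap_isPrime _ _) h5 hbq
        (by rw [h4, hd, h3])
      rcases h6 with h6 | h6
      · left
        have h7 := congrArg (Ideal.comap (e : A →+* B)) h6
        rwa [h1, h1] at h7
      · right
        exact h6

private theorem levProp_bij {φ : k →+* R} {A : Type u} [CommRing A] {c : R →+* A}
    (hc : Function.Surjective c) : LevProp φ c 0 :=
  ⟨fun _ => 0, fun _ => le_refl _, fun 𝔭 _ =>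
    ⟨fun _ => (Ideal.map_comap_of_surjective c hc 𝔭).symm, fun h => absurd rfl h⟩⟩

private theorem comap_map_C {A : Type u} [CommRing A] (I : Ideal A) :
    (I.map (Polynomial.C (R := A))).comap Polynomial.C = I := by
  ext x
  rw [Ideal.mem_comap, Ideal.mem_map_C_iff]
  constructor
  · intro h
    simpa using h 0
  · intro h n
    rw [Polynomial.coeff_C]
    split_ifs
    · exact h
    · exact I.zero_mem

private theorem finiteType_C5 {A : Type u} [CommRing A] {ψ : k →+* A} (h : ψ.FiniteType) :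
    ((Polynomial.C (R := A)).comp ψ).FiniteType := by
  refine RingHom.FiniteType.comp ?_ h
  change (algebraMap A (Polynomial A)).FiniteType
  rw [RingHom.finiteType_algebraMap]
  infer_instance

private theorem levProp_step {φ : k →+* R} {A : Type u} [CommRing A] {c : R →+* A} {m : ℕ}
    (hf : (c.comp φ).FiniteType) (h : LevProp φ c m) :
    LevProp φ ((Polynomial.C (R := A)).comp c) (m + 1) := by
  classical
  obtain ⟨lev, hlev, H⟩ := h
  have hf' : ((Polynomial.C (R := A)).comp (c.comp φ)).FiniteType := finiteType_C5 hf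
  obtain ⟨lev', hl⟩ : ∃ lev' : Ideal (Polynomial A) → ℕ, ∀ 𝔭, lev' 𝔭 =
      if 𝔭 = (𝔭.comap Polynomial.C).map Polynomial.C then lev (𝔭.comap Polynomial.C)
      else m + 1 := ⟨_, fun _ => rfl⟩
  refine ⟨lev', fun 𝔭 => ?_, fun 𝔭 h𝔭 => ?_⟩
  · rw [hl]
    split_ifs
    · exact (hlev _).trans (Nat.le_succ m)
    · exact le_refl _
  by_cases hp : 𝔭 = (𝔭.comap Polynomial.C).map Polynomial.C
  · have hlp : lev' 𝔭 = lev (𝔭.comap Polynomial.C) := by rw [hl, if_pos hp]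
    obtain ⟨𝔟, h𝔟⟩ : ∃ 𝔟, 𝔟 = 𝔭.comap (Polynomial.C (R := A)) := ⟨_, rfl⟩
    have h𝔟p : 𝔟.IsPrime := by
      rw [h𝔟]
      exact Ideal.comap_isPrime _ _
    rw [← h𝔟] at hp hlp
    have hcm : 𝔭.comap ((Polynomial.C (R := A)).comp c) = 𝔟.comap c := by
      rw [← Ideal.comap_comap, ← h𝔟]
    obtain ⟨H1, H2⟩ := H 𝔟 h𝔟p
    rw [hcm, hlp]
    refine ⟨fun h0 => ?_, fun h0 => ?_⟩
    · rw [← Ideal.map_map, ← H1 h0]
      exact hp
    · obtain ⟨𝔟', hp', hle, hcm', hdim, b, hb, hb', hq⟩ := H2 h0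
      refine ⟨𝔟'.map Polynomial.C, Ideal.isPrime_map_C_of_isPrime, ?_, ?_, ?_, Polynomial.C b,
        ?_, ?_, ?_⟩
      · rw [hp]
        exact Ideal.map_mono hle
      · rw [← Ideal.comap_comap, comap_map_C, hcm']
      · rw [RingHom.comp_assoc, dimOf_map_C _ hf _ hp', hp, dimOf_map_C _ hf _ h𝔟p, hdim]
      · rw [hp]
        exact Ideal.mem_map_of_mem _ hb
      · intro h5
        apply hb'
        rw [← comap_map_C 𝔟', Ideal.mem_comap]
        exact h5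
      · intro 𝔮 h𝔮 hle' hbq hd
        rw [RingHom.comp_assoc, dimOf_map_C _ hf _ hp'] at hd
        have h𝔠p : (𝔮.comap (Polynomial.C (R := A))).IsPrime := Ideal.comap_isPrime _ _
        obtain ⟨𝔠, h𝔠⟩ : ∃ 𝔠, 𝔠 = 𝔮.comap (Polynomial.C (R := A)) := ⟨_, rfl⟩
        rw [← h𝔠] at h𝔠p
        have h6 : 𝔟' ≤ 𝔠 := by
          rw [← comap_map_C 𝔟', h𝔠]
          exact Ideal.comap_mono hle'
        have h7 : b ∈ 𝔠 := by
          rw [h𝔠, Ideal.mem_comap]
          exact hbq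
        have h8 : 𝔟' < 𝔠 := lt_of_le_of_ne h6 (fun h9 => hb' (by rw [h9]; exact h7))
        have h9 := dimOf_lt _ hf 𝔟' 𝔠 hp' h𝔠p h8
        have h10 : 𝔠.map Polynomial.C ≤ 𝔮 := by
          rw [h𝔠]
          exact Ideal.map_comap_le
        have h11 := dimOf_map_C _ hf 𝔠 h𝔠p
        have h12 : 𝔠.map Polynomial.C = 𝔮 := by
          by_contra h13
          have h14 := dimOf_lt _ hf' _ 𝔮 Ideal.isPrime_map_C_of_isPrime h𝔮
            (lt_of_le_of_ne h10 h13)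
          omega
        have h13 : lev' 𝔮 = lev 𝔠 := by
          rw [hl, ← h𝔠, if_pos h12.symm]
        rw [h12] at h11
        have h14 : dimOf (c.comp φ) 𝔠 + 1 = dimOf (c.comp φ) 𝔟' := by omega
        rcases hq 𝔠 h𝔠p h6 h7 h14 with h15 | h15
        · left
          rw [← h12, h15, ← hp]
        · right
          rw [h13]
          exact h15
  · have hlp : lev' 𝔭 = m + 1 := by rw [hl, if_neg hp]
    rw [hlp]
    refine ⟨fun h0 => absurd h0 (Nat.succ_ne_zero m), fun _ => ?_⟩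
    obtain ⟨hdim, b, hb, hb', hq⟩ := exists_one (c.comp φ) hf 𝔭 h𝔭 hp
    have h𝔟p : (𝔭.comap (Polynomial.C (R := A))).IsPrime := Ideal.comap_isPrime _ _
    refine ⟨(𝔭.comap Polynomial.C).map Polynomial.C, Ideal.isPrime_map_C_of_isPrime,
      Ideal.map_comap_le, ?_, hdim, b, hb, hb', ?_⟩
    · rw [← Ideal.comap_comap, comap_map_C, Ideal.comap_comap]
    · intro 𝔮 h𝔮 hle' hbq hd
      rcases hq 𝔮 h𝔮 hle' hbq hd with h5 | h5
      · exact Or.inl h5
      · right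
        rw [hl, if_pos h5]
        exact Nat.lt_succ_of_le (hlev _)

private theorem levProp_mv (φ : k →+* R) (hφ : φ.FiniteType) (n : ℕ) :
    LevProp φ (MvPolynomial.C (R := R) (σ := Fin n)) n := by
  induction n with
  | zero => exact levProp_bij (MvPolynomial.C_surjective (Fin 0))
  | succ n ih =>
    have hf : ((MvPolynomial.C (R := R) (σ := Fin n)).comp φ).FiniteType := by
      refine RingHom.FiniteType.comp ?_ hφ
      change (algebraMap R (MvPolynomial (Fin n) R)).FiniteType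
      rw [RingHom.finiteType_algebraMap]
      infer_instance
    refine levProp_equiv (MvPolynomial.finSuccEquiv R n).toRingEquiv ?_ (levProp_step hf ih)
    apply RingHom.ext
    intro x
    change MvPolynomial.finSuccEquiv R n (MvPolynomial.C x) = _
    simp [MvPolynomial.finSuccEquiv_apply]

theorem exists_level (φ : k →+* R) (hφ : φ.FiniteType) (n : ℕ) :
    ∃ lev : Ideal (MvPolynomial (Fin n) R) → ℕ, ∀ 𝔭 : Ideal (MvPolynomial (Fin n) R),
      𝔭.IsPrime →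
        (lev 𝔭 = 0 → 𝔭 = (𝔭.comap MvPolynomial.C).map MvPolynomial.C) ∧
        (lev 𝔭 ≠ 0 → ∃ 𝔭' : Ideal (MvPolynomial (Fin n) R), 𝔭'.IsPrime ∧ 𝔭' ≤ 𝔭 ∧
          𝔭'.comap MvPolynomial.C = 𝔭.comap MvPolynomial.C ∧
          dimOf ((MvPolynomial.C).comp φ) 𝔭' = dimOf ((MvPolynomial.C).comp φ) 𝔭 + 1 ∧
          ∃ b ∈ 𝔭, b ∉ 𝔭' ∧ ∀ 𝔮 : Ideal (MvPolynomial (Fin n) R), 𝔮.IsPrime → 𝔭' ≤ 𝔮 →
            b ∈ 𝔮 → dimOf ((MvPolynomial.C).comp φ) 𝔮 + 1 =
              dimOf ((MvPolynomial.C).comp φ) 𝔭' → 𝔮 = 𝔭 ∨ lev 𝔮 < lev 𝔭) := by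
  obtain ⟨lev, _, H⟩ := levProp_mv φ hφ n
  exact ⟨lev, H⟩

end

end Pool.Agent.Helper47.Spread
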