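import Mathlib
import Pool.Agent.Helper47.Spread.Defs

/-!
# Going down and incomparability
-/

universe u v w

open CategoryTheory AlgebraicGeometry Limits

namespace Pool.Agent.Helper47.Spread

open Pool.Agent.Helper10 Pool.Agent.Helper10.SmProjVar Pool.Agent.Helper47.Chow
open Pool.Agent.Helper47.Desc

noncomputable section

private theorem flat_of_injective (R K : Type u) [CommRing R] [IsDomain R] [Field K] [Algebra R K]
    (hinj : Function.Injective (algebraMap R K)) : Module.Flat R K := by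
  have : FaithfulSMul R K := (faithfulSMul_iff_algebraMap_injective R K).mpr hinj
  let _ := FractionRing.liftAlgebra R K
  have h1 : IsScalarTower R (FractionRing R) K := FractionRing.isScalarTower_liftAlgebra R K
  have h2 : Module.Flat R (FractionRing R) := IsLocalization.flat _ (nonZeroDivisors R)
  exact Module.Flat.trans R (FractionRing R) K

variable {P T : Type u} [CommRing P] [CommRing T] [Algebra P T]

private theorem exists_integral_mul (R K : Type u) [CommRing R] [IsDomain R] [Field K]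
    [Algebra R K] [Algebra R P] [Algebra R T] [Algebra K T] [IsScalarTower R K T]
    [IsScalarTower R P T] [hpo : Algebra.IsPushout R K P T]
    (halg : Algebra.IsAlgebraic R K) (x : T) :
    ∃ c : R, c ≠ 0 ∧ IsIntegral P (algebraMap R T c * x) := by
  refine hpo.out.inductionOn x _ ?_ ?_ ?_ ?_
  · exact ⟨1, one_ne_zero, by rw [mul_zero]; exact isIntegral_zero⟩
  · intro m
    refine ⟨1, one_ne_zero, ?_⟩
    rw [map_one, one_mul]
    exact isIntegral_algebraMap
  · rintro s n ⟨c, hc, hn⟩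
    obtain ⟨d, hd, hs⟩ := (halg.isAlgebraic s).exists_integral_multiple
    refine ⟨d * c, mul_ne_zero hd hc, ?_⟩
    have h1 : algebraMap R T (d * c) * (s • n) =
        algebraMap K T (d • s) * (algebraMap R T c * n) := by
      rw [Algebra.smul_def s n, Algebra.smul_def d s, map_mul, map_mul,
        ← IsScalarTower.algebraMap_apply R K T]
      ring
    rw [h1]
    refine IsIntegral.mul ?_ hn
    have h2 : IsIntegral R (algebraMap K T (d • s)) := hs.map (IsScalarTower.toAlgHom R K T)
    exact h2.tower_top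
  · rintro n₁ n₂ ⟨c₁, hc₁, h₁⟩ ⟨c₂, hc₂, h₂⟩
    refine ⟨c₁ * c₂, mul_ne_zero hc₁ hc₂, ?_⟩
    have h3 : algebraMap R T (c₁ * c₂) * (n₁ + n₂) =
        algebraMap P T (algebraMap R P c₂) * (algebraMap R T c₁ * n₁) +
          algebraMap P T (algebraMap R P c₁) * (algebraMap R T c₂ * n₂) := by
      rw [map_mul, ← IsScalarTower.algebraMap_apply R P T, ← IsScalarTower.algebraMap_apply R P T]
      ring
    rw [h3]
    exact (isIntegral_algebraMap.mul h₁).add (isIntegral_algebraMap.mul h₂)

theorem exists_prime_le (R K : Type u) [CommRing R] [IsDomain R] [Field K] [Algebra R K]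
    [Algebra R P] [Algebra R T] [Algebra K T] [IsScalarTower R K T] [IsScalarTower R P T]
    [Algebra.IsPushout R K P T] (hinj : Function.Injective (algebraMap R K)) (𝔭 : Ideal P)
    (h𝔭 : 𝔭.IsPrime) (𝔔 : Ideal T) (h𝔔 : 𝔔.IsPrime) (h : 𝔭 ≤ 𝔔.comap (algebraMap P T)) :
    ∃ 𝔔' : Ideal T, 𝔔'.IsPrime ∧ 𝔔' ≤ 𝔔 ∧ 𝔔'.comap (algebraMap P T) = 𝔭 := by
  have hflat : Module.Flat R K := flat_of_injective R K hinj
  have hpo : Algebra.IsPushout R P K T := Algebra.IsPushout.symm inferInstance
  have hT : Module.Flat P T := Module.Flat.isBaseChange R P K T hpo.out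
  have h1 : 𝔔.LiesOver (𝔔.under P) := ⟨rfl⟩
  obtain ⟨𝔔', hle, hp, hl⟩ := Ideal.exists_ideal_le_liesOver_of_le (p := 𝔭) (q := 𝔔.under P) 𝔔 h
  exact ⟨𝔔', hp, hle, hl.over.symm⟩

theorem eq_of_le_of_comap_eq (R K : Type u) [CommRing R] [IsDomain R] [Field K] [Algebra R K]
    [Algebra R P] [Algebra R T] [Algebra K T] [IsScalarTower R K T] [IsScalarTower R P T]
    [Algebra.IsPushout R K P T] (hinj : Function.Injective (algebraMap R K))
    (halg : Algebra.IsAlgebraic R K) (𝔔 𝔔' : Ideal T) (h𝔔 : 𝔔.IsPrime) (h𝔔' : 𝔔'.IsPrime)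
    (h : 𝔔 ≤ 𝔔') (h' : 𝔔.comap (algebraMap P T) = 𝔔'.comap (algebraMap P T)) : 𝔔 = 𝔔' := by
  refine le_antisymm h fun x hx => ?_
  by_contra hcon
  obtain ⟨c, hc, hint⟩ := exists_integral_mul (P := P) R K halg x
  have hu : IsUnit (algebraMap R T c) := by
    rw [IsScalarTower.algebraMap_apply R K T]
    exact (IsUnit.mk0 _ (fun h0 => hc (hinj (by rw [h0, map_zero])))).map _
  have h1 : algebraMap R T c * x ∈ (𝔔' : Set T) \ 𝔔 := by
    refine ⟨𝔔'.mul_mem_left _ hx, fun h2 => hcon ?_⟩
    rcases h𝔔.mem_or_mem h2 with h3 | h3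
    · exact absurd (Ideal.eq_top_of_isUnit_mem _ h3 hu) h𝔔.ne_top
    · exact h3
  exact absurd h' (ne_of_lt (Ideal.comap_lt_comap_of_integral_mem_sdiff h h1 hint))

end

end Pool.Agent.Helper47.Spread
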