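import Mathlib
import Pool.Agent.Helper47.Spread.Defs

/-!
# Transitivity on the fibres
-/

universe u v w

open CategoryTheory AlgebraicGeometry Limits

namespace Pool.Agent.Helper47.Spread

open Pool.Agent.Helper10 Pool.Agent.Helper10.SmProjVar Pool.Agent.Helper47.Chow
open Pool.Agent.Helper47.Desc

noncomputable section

variable {P T : Type u} [CommRing P] [CommRing T] [Algebra P T]

theorem b3_pushout_induction (R K : Type u) [CommRing R] [Field K] [Algebra R K]
    [Algebra R P] [Algebra R T] [Algebra K T] [IsScalarTower R K T] [IsScalarTower R P T]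
    [Algebra.IsPushout R K P T] (motive : T → Prop)
    (hP : ∀ p, motive (algebraMap P T p))
    (hK : ∀ x t, motive t → motive (algebraMap K T x * t))
    (hadd : ∀ s t, motive s → motive t → motive (s + t)) (t : T) : motive t := by
  have hb : IsBaseChange K (IsScalarTower.toAlgHom R P T).toLinearMap :=
    Algebra.IsPushout.out
  refine IsBaseChange.inductionOn hb t motive ?_ ?_ ?_ ?_
  · simpa using hP 0
  · intro p; exact hP p
  · intro x t ht
    rw [Algebra.smul_def]
    exact hK x t ht
  · exact hadd

theorem b3_exists_emb (R K : Type u) [CommRing R] [IsDomain R] [Field K] [Algebra R K]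
    [Algebra R P] [Algebra R T] [Algebra K T] [IsScalarTower R K T] [IsScalarTower R P T]
    [Algebra.IsPushout R K P T] (hinj : Function.Injective (algebraMap R K))
    (halg : Algebra.IsAlgebraic R K)
    (𝔔 : Ideal T) (h𝔔 : 𝔔.IsPrime) (Ω : Type u) [Field Ω] [IsAlgClosed Ω] (g : P →+* Ω)
    (hg : RingHom.ker g = 𝔔.comap (algebraMap P T)) :
    ∃ f : T →+* Ω, (∀ p, f (algebraMap P T p) = g p) ∧ RingHom.ker f = 𝔔 := by
  classical
  have hprime : (𝔔.comap (algebraMap P T)).IsPrime := Ideal.comap_isPrime _ _
  let A := P ⧸ 𝔔.comap (algebraMap P T)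
  let D := T ⧸ 𝔔
  have hA : IsDomain A := Ideal.Quotient.isDomain _
  have hD : IsDomain D := Ideal.Quotient.isDomain _
  let gA : A →+* Ω := Ideal.Quotient.lift _ g (fun a ha => by
    have : a ∈ RingHom.ker g := by rw [hg]; exact ha
    exact this)
  have hgA : Function.Injective gA := by
    rw [injective_iff_map_eq_zero]
    intro a ha
    obtain ⟨p, rfl⟩ := Ideal.Quotient.mk_surjective a
    have h1 : g p = 0 := ha
    rw [Ideal.Quotient.eq_zero_iff_mem, ← hg]
    exact h1
  letI : Algebra A Ω := gA.toAlgebra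
  have hAD : Function.Injective (algebraMap A D) := by
    rw [injective_iff_map_eq_zero]
    intro a ha
    obtain ⟨p, rfl⟩ := Ideal.Quotient.mk_surjective a
    have h1 : (Ideal.Quotient.mk 𝔔) (algebraMap P T p) = 0 := ha
    rw [Ideal.Quotient.eq_zero_iff_mem] at h1
    rw [Ideal.Quotient.eq_zero_iff_mem]
    exact h1
  haveI : Module.IsTorsionFree A Ω := by
    have : FaithfulSMul A Ω := (faithfulSMul_iff_algebraMap_injective A Ω).2 hgA
    infer_instance
  haveI : Module.IsTorsionFree A D := by
    have : FaithfulSMul A D := (faithfulSMul_iff_algebraMap_injective A D).2 hAD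
    infer_instance
  have hKD : Function.Injective ((Ideal.Quotient.mk 𝔔).comp (algebraMap K T)) :=
    RingHom.injective _
  -- the image of R in A is injective
  have hRA : Function.Injective ((Ideal.Quotient.mk (𝔔.comap (algebraMap P T))).comp
      (algebraMap R P)) := by
    intro r s hrs
    apply hinj
    apply hKD
    have h1 := congrArg (algebraMap A D) hrs
    have h2 : ∀ r : R, algebraMap A D (((Ideal.Quotient.mk (𝔔.comap (algebraMap P T))).comp
      (algebraMap R P)) r) = ((Ideal.Quotient.mk 𝔔).comp (algebraMap K T)) (algebraMap R K r) := by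
      intro r
      change (Ideal.Quotient.mk 𝔔) (algebraMap P T (algebraMap R P r)) =
        (Ideal.Quotient.mk 𝔔) (algebraMap K T (algebraMap R K r))
      rw [← IsScalarTower.algebraMap_apply, ← IsScalarTower.algebraMap_apply]
    rw [h2, h2] at h1
    exact h1
  have halgD : Algebra.IsAlgebraic A D := by
    refine ⟨fun d => ?_⟩
    obtain ⟨t, rfl⟩ := Ideal.Quotient.mk_surjective d
    refine b3_pushout_induction (P := P) (T := T) R K
      (fun t => IsAlgebraic A (Ideal.Quotient.mk 𝔔 t)) ?_ ?_ ?_ t
    · intro p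
      exact isAlgebraic_algebraMap (R := A) (A := D) (Ideal.Quotient.mk _ p)
    · intro x t ht
      rw [map_mul]
      refine IsAlgebraic.mul ?_ ht
      obtain ⟨q, hq0, hq⟩ := halg.isAlgebraic x
      refine ⟨q.map ((Ideal.Quotient.mk (𝔔.comap (algebraMap P T))).comp
        (algebraMap R P)), ?_, ?_⟩
      · rwa [Ne, Polynomial.map_eq_zero_iff hRA]
      · rw [Polynomial.aeval_def, Polynomial.eval₂_map]
        have h3 : (algebraMap A D).comp ((Ideal.Quotient.mk (𝔔.comap (algebraMap P T))).comp
            (algebraMap R P)) =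
            ((Ideal.Quotient.mk 𝔔).comp (algebraMap K T)).comp (algebraMap R K) := by
          ext r
          change (Ideal.Quotient.mk 𝔔) (algebraMap P T (algebraMap R P r)) =
            (Ideal.Quotient.mk 𝔔) (algebraMap K T (algebraMap R K r))
          rw [← IsScalarTower.algebraMap_apply, ← IsScalarTower.algebraMap_apply]
        rw [h3]
        have h4 := congrArg ((Ideal.Quotient.mk 𝔔).comp (algebraMap K T)) hq
        rw [Polynomial.aeval_def, Polynomial.hom_eval₂, map_zero] at h4
        exact h4
    · intro s t hs ht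
      rw [map_add]
      exact hs.add ht
  let F : D →ₐ[A] Ω := IsAlgClosed.lift
  refine ⟨F.toRingHom.comp (Ideal.Quotient.mk 𝔔), ?_, ?_⟩
  · intro p
    have h1 : F (algebraMap A D (Ideal.Quotient.mk _ p)) =
        algebraMap A Ω (Ideal.Quotient.mk _ p) := F.commutes _
    exact h1
  · ext t
    constructor
    · intro ht
      have ht' : F (Ideal.Quotient.mk 𝔔 t) = 0 := ht
      by_contra hne
      have hne' : (Ideal.Quotient.mk 𝔔 t) ≠ 0 := by
        rwa [Ne, Ideal.Quotient.eq_zero_iff_mem]
      refine Ideal.comap_ne_bot_of_algebraic_mem (R := A) (S := D)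
        (I := RingHom.ker F.toRingHom) hne' ht' (halgD.isAlgebraic _) ?_
      rw [eq_bot_iff]
      intro a ha
      have h2 : F (algebraMap A D a) = 0 := ha
      rw [F.commutes] at h2
      exact hgA (h2.trans (map_zero gA).symm)
    · intro ht
      have h1 : Ideal.Quotient.mk 𝔔 t = 0 := Ideal.Quotient.eq_zero_iff_mem.2 ht
      change F (Ideal.Quotient.mk 𝔔 t) = 0
      rw [h1, map_zero]

theorem exists_aut (R K : Type u) [CommRing R] [IsDomain R] [Field K] [Algebra R K]
    [Algebra R P] [Algebra R T] [Algebra K T] [IsScalarTower R K T] [IsScalarTower R P T]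
    [Algebra.IsPushout R K P T] (hinj : Function.Injective (algebraMap R K))
    (halg : Algebra.IsAlgebraic R K)
    (hnorm : ∀ (Ω : Type u) [Field Ω] (i₁ i₂ : K →+* Ω),
      (∀ c : R, i₁ (algebraMap R K c) = i₂ (algebraMap R K c)) →
        ∃ σ : K ≃+* K, (∀ c : R, σ (algebraMap R K c) = algebraMap R K c) ∧
          ∀ x, i₁ x = i₂ (σ x))
    (𝔔 𝔔' : Ideal T) (h𝔔 : 𝔔.IsPrime) (h𝔔' : 𝔔'.IsPrime)
    (h : 𝔔.comap (algebraMap P T) = 𝔔'.comap (algebraMap P T)) :
    ∃ σ : K ≃+* K, (∀ c : R, σ (algebraMap R K c) = algebraMap R K c) ∧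
      ∀ τ : T →+* T, (∀ p, τ (algebraMap P T p) = algebraMap P T p) →
        (∀ x, τ (algebraMap K T x) = algebraMap K T (σ x)) → 𝔔.comap τ = 𝔔' := by
  classical
  have hprime : (𝔔.comap (algebraMap P T)).IsPrime := Ideal.comap_isPrime _ _
  have hdom : IsDomain (P ⧸ 𝔔.comap (algebraMap P T)) := Ideal.Quotient.isDomain _
  let A := P ⧸ 𝔔.comap (algebraMap P T)
  let Ω := AlgebraicClosure (FractionRing A)
  let g : P →+* Ω := ((algebraMap (FractionRing A) Ω).comp (algebraMap A (FractionRing A))).comp
    (Ideal.Quotient.mk _)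
  have hg : RingHom.ker g = 𝔔.comap (algebraMap P T) := by
    ext p
    rw [← Ideal.Quotient.eq_zero_iff_mem (I := 𝔔.comap (algebraMap P T))]
    constructor
    · intro hp
      have h1 : (algebraMap (FractionRing A) Ω) (algebraMap A (FractionRing A)
        (Ideal.Quotient.mk _ p)) = 0 := hp
      rw [map_eq_zero_iff _ (RingHom.injective _)] at h1
      exact (map_eq_zero_iff _ (IsFractionRing.injective A (FractionRing A))).1 h1
    · intro hp
      change (algebraMap (FractionRing A) Ω) (algebraMap A (FractionRing A)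
        (Ideal.Quotient.mk _ p)) = 0
      rw [hp, map_zero, map_zero]
  obtain ⟨f, hf, hfk⟩ := b3_exists_emb (P := P) (T := T) R K hinj halg 𝔔 h𝔔 Ω g hg
  obtain ⟨f', hf', hfk'⟩ := b3_exists_emb (P := P) (T := T) R K hinj halg 𝔔' h𝔔' Ω g (hg.trans h)
  obtain ⟨σ, hσ, hσ'⟩ := hnorm Ω (f'.comp (algebraMap K T)) (f.comp (algebraMap K T)) (by
    intro c
    change f' (algebraMap K T (algebraMap R K c)) = f (algebraMap K T (algebraMap R K c))
    rw [← IsScalarTower.algebraMap_apply, IsScalarTower.algebraMap_apply R P T, hf, hf'])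
  refine ⟨σ, hσ, fun τ hτP hτK => ?_⟩
  have key : ∀ t, f (τ t) = f' t := by
    intro t
    refine b3_pushout_induction (P := P) (T := T) R K (fun t => f (τ t) = f' t) ?_ ?_ ?_ t
    · intro p
      change f (τ _) = f' _
      rw [hτP, hf, hf']
    · intro x t ht
      change f (τ _) = f' _
      rw [map_mul, map_mul, map_mul, ht, hτK]
      congr 1
      exact (hσ' x).symm
    · intro s t hs ht
      change f (τ _) = f' _
      rw [map_add, map_add, map_add, hs, ht]
  ext t
  rw [Ideal.mem_comap, ← hfk, ← hfk', RingHom.mem_ker, RingHom.mem_ker, key]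

end

end Pool.Agent.Helper47.Spread
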