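import Mathlib
import Pool.Agent.Helper47.Spread.Defs

/-!
# Normal extensions
-/

universe u v w

open CategoryTheory AlgebraicGeometry Limits

namespace Pool.Agent.Helper47.Spread

open Pool.Agent.Helper10 Pool.Agent.Helper10.SmProjVar Pool.Agent.Helper47.Chow
open Pool.Agent.Helper47.Desc

noncomputable section


theorem exists_aut_of_normal {F K : Type u} [Field F] [Field K] [Algebra F K] {I : Type}
    (a : I → K) [Normal (IntermediateField.adjoin F (Set.range a)) K] (Ω : Type u) [Field Ω]
    (i₁ i₂ : K →+* Ω) (h : ∀ c : F, i₁ (algebraMap F K c) = i₂ (algebraMap F K c))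
    (h' : ∀ l, i₁ (a l) = i₂ (a l)) :
    ∃ σ : K ≃+* K, (∀ c : F, σ (algebraMap F K c) = algebraMap F K c) ∧ (∀ l, σ (a l) = a l) ∧
      ∀ x, i₁ x = i₂ (σ x) := by
  let Q : IntermediateField F K :=
    { RingHom.eqLocusField i₁ i₂ with algebraMap_mem' := fun c => h c }
  have hQ : ∀ x, x ∈ Q ↔ i₁ x = i₂ x := fun x => Iff.rfl
  have hle : IntermediateField.adjoin F (Set.range a) ≤ Q := by
    rw [IntermediateField.adjoin_le_iff]
    rintro _ ⟨l, rfl⟩
    exact h' l
  let algK : Algebra K Ω := i₂.toAlgebra
  let j : K →ₐ[IntermediateField.adjoin F (Set.range a)] Ω :=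
    { i₁ with
      commutes' := fun x => by
        change i₁ (x : K) = i₂ (x : K)
        exact (hQ _).1 (hle x.2) }
  have key : ∀ x, j x = i₂ (Normal.algHomEquivAut
      (IntermediateField.adjoin F (Set.range a)) Ω K j x) := by
    intro x
    have e := (Normal.algHomEquivAut
      (IntermediateField.adjoin F (Set.range a)) Ω K).symm_apply_apply j
    exact (DFunLike.congr_fun e x).symm
  refine ⟨(Normal.algHomEquivAut (IntermediateField.adjoin F (Set.range a)) Ω K j).toRingEquiv,
    ?_, ?_, ?_⟩
  · intro c
    have := (Normal.algHomEquivAut (IntermediateField.adjoin F (Set.range a)) Ω K j).commutes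
      (algebraMap F _ c)
    exact this
  · intro l
    have := (Normal.algHomEquivAut (IntermediateField.adjoin F (Set.range a)) Ω K j).commutes
      ⟨a l, IntermediateField.subset_adjoin F _ ⟨l, rfl⟩⟩
    exact this
  · exact key

end

end Pool.Agent.Helper47.Spread
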