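import Mathlib
import Pool.Agent.Helper47.Spread.Defs

/-!
# Dimension and algebraic base change
-/

universe u v w

open CategoryTheory AlgebraicGeometry Limits

namespace Pool.Agent.Helper47.Spread

open Pool.Agent.Helper10 Pool.Agent.Helper10.SmProjVar Pool.Agent.Helper47.Chow
open Pool.Agent.Helper47.Desc

noncomputable section

lemma b5_count {F K B A : Type u} [Field F] [Field K] [CommRing B] [IsDomain B] [CommRing A]
    [IsDomain A] [Algebra F K] [Algebra F B] [Algebra F A] [Algebra K A] [Algebra B A]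
    [IsScalarTower F K A] [IsScalarTower F B A] [FaithfulSMul B A] [Algebra.IsAlgebraic B A]
    [Algebra.FiniteType F B] (n : ℕ) (ht : Algebra.trdeg F K = n) :
    Cardinal.toNat (Algebra.trdeg K A) + n = Cardinal.toNat (Algebra.trdeg F B) := by
  have h1 : Algebra.trdeg F K + Algebra.trdeg K A = Algebra.trdeg F A := trdeg_add_eq F K
  have h2 : Algebra.trdeg F B + Algebra.trdeg B A = Algebra.trdeg F A := trdeg_add_eq F B
  have h3 : Algebra.trdeg B A = 0 := trdeg_eq_zero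
  have h4 : Algebra.trdeg F B < Cardinal.aleph0 := trdeg_lt_aleph0_of_finiteType
  rw [h3, add_zero, ← h1, ht] at h2
  rw [h2] at h4 ⊢
  have h5 : Algebra.trdeg K A < Cardinal.aleph0 := lt_of_le_of_lt (by simp) h4
  rw [Cardinal.toNat_add (Cardinal.natCast_lt_aleph0) h5, Cardinal.toNat_natCast, add_comm]

theorem dimOf_pushout {F K P T : Type u} [Field F] [Field K] [Algebra F K] [CommRing P]
    [CommRing T] {I : Type} [Fintype I] (a : I → K) (ha : AlgebraicIndependent F a)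
    (halg : Algebra.IsAlgebraic (IntermediateField.adjoin F (Set.range a)) K)
    (L : MvPolynomial I F →+* P) (hL : (L.comp MvPolynomial.C).FiniteType)
    (ρ : P →+* T) (κ : K →+* T)
    (hsq : ρ.comp L = κ.comp (MvPolynomial.aeval a : MvPolynomial I F →ₐ[F] K).toRingHom)
    (hgen : Subring.closure (Set.range ρ ∪ Set.range κ) = ⊤)
    (𝔔 : Ideal T) (h𝔔 : 𝔔.IsPrime) :
    dimOf κ 𝔔 + Fintype.card I = dimOf (L.comp MvPolynomial.C) (𝔔.comap ρ) := by
  have halg' : Algebra.IsAlgebraic (Algebra.adjoin F (Set.range a)) K :=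
    IntermediateField.isAlgebraic_adjoin_iff_top.mp halg
  have hbasis : IsTranscendenceBasis F a := ha.isTranscendenceBasis_iff_isAlgebraic.mpr halg'
  have ht : Algebra.trdeg F K = Fintype.card I := by
    have := hbasis.lift_cardinalMk_eq_trdeg
    rw [Cardinal.mk_fintype] at this
    simpa using this.symm
  have h𝔭 : (𝔔.comap ρ).IsPrime := Ideal.comap_isPrime ρ 𝔔
  have : IsDomain (T ⧸ 𝔔) := Ideal.Quotient.isDomain 𝔔
  have : IsDomain (P ⧸ 𝔔.comap ρ) := Ideal.Quotient.isDomain _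
  letI i1 : Algebra K (T ⧸ 𝔔) := ((Ideal.Quotient.mk 𝔔).comp κ).toAlgebra
  letI i2 : Algebra F (P ⧸ 𝔔.comap ρ) :=
    ((Ideal.Quotient.mk (𝔔.comap ρ)).comp (L.comp MvPolynomial.C)).toAlgebra
  letI i3 : Algebra (P ⧸ 𝔔.comap ρ) (T ⧸ 𝔔) := (Ideal.quotientMap 𝔔 ρ le_rfl).toAlgebra
  letI i4 : Algebra F (T ⧸ 𝔔) :=
    (((Ideal.Quotient.mk 𝔔).comp κ).comp (algebraMap F K)).toAlgebra
  have s1 : IsScalarTower F K (T ⧸ 𝔔) := IsScalarTower.of_algebraMap_eq' rfl
  have hκ : ∀ p : MvPolynomial I F, ρ (L p) = κ (MvPolynomial.aeval a p) := fun p =>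
    congrArg (fun f => f p) hsq
  have s2 : IsScalarTower F (P ⧸ 𝔔.comap ρ) (T ⧸ 𝔔) := by
    refine IsScalarTower.of_algebraMap_eq' ?_
    ext c
    change Ideal.Quotient.mk 𝔔 (κ (algebraMap F K c)) =
      Ideal.quotientMap 𝔔 ρ le_rfl (Ideal.Quotient.mk (𝔔.comap ρ) (L (MvPolynomial.C c)))
    rw [Ideal.quotientMap_mk, hκ, MvPolynomial.aeval_C]
  have hinj : Function.Injective (algebraMap (P ⧸ 𝔔.comap ρ) (T ⧸ 𝔔)) :=
    Ideal.quotientMap_injective
  have s3 : FaithfulSMul (P ⧸ 𝔔.comap ρ) (T ⧸ 𝔔) :=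
    (faithfulSMul_iff_algebraMap_injective _ _).mpr hinj
  have s4 : Algebra.FiniteType F (P ⧸ 𝔔.comap ρ) := by
    have : ((Ideal.Quotient.mk (𝔔.comap ρ)).comp (L.comp MvPolynomial.C)).FiniteType :=
      RingHom.FiniteType.comp (RingHom.FiniteType.of_surjective _ Ideal.Quotient.mk_surjective) hL
    exact this
  have s5 : Algebra.IsAlgebraic (P ⧸ 𝔔.comap ρ) (T ⧸ 𝔔) := by
    have hK : ∀ x : K, IsAlgebraic (P ⧸ 𝔔.comap ρ) (Ideal.Quotient.mk 𝔔 (κ x)) := by
      intro x
      obtain ⟨p, hp0, hp⟩ := halg'.isAlgebraic x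
      -- identify the polynomial ring with the adjoined algebra
      let e := ha.aevalEquiv
      let ψ : Algebra.adjoin F (Set.range a) →+* (P ⧸ 𝔔.comap ρ) :=
        ((Ideal.Quotient.mk (𝔔.comap ρ)).comp L).comp e.symm.toRingHom
      have hψ : ∀ z : Algebra.adjoin F (Set.range a),
          algebraMap (P ⧸ 𝔔.comap ρ) (T ⧸ 𝔔) (ψ z) = Ideal.Quotient.mk 𝔔 (κ (z : K)) := by
        intro z
        change Ideal.quotientMap 𝔔 ρ le_rfl (Ideal.Quotient.mk (𝔔.comap ρ) (L (e.symm z))) = _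
        rw [Ideal.quotientMap_mk, hκ]
        congr 2
        have := ha.algebraMap_aevalEquiv (e.symm z)
        rw [← this]
        simp [e]
      have hψinj : Function.Injective ψ := by
        intro z z' h
        have h2 := congrArg (algebraMap (P ⧸ 𝔔.comap ρ) (T ⧸ 𝔔)) h
        rw [hψ, hψ] at h2
        exact Subtype.ext (((Ideal.Quotient.mk 𝔔).comp κ).injective h2)
      refine ⟨p.map ψ, ?_, ?_⟩
      · rwa [Ne, Polynomial.map_eq_zero_iff hψinj]
      · rw [Polynomial.aeval_def, Polynomial.eval₂_map]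
        have h1 : (algebraMap (P ⧸ 𝔔.comap ρ) (T ⧸ 𝔔)).comp ψ =
            ((Ideal.Quotient.mk 𝔔).comp κ).comp (algebraMap (Algebra.adjoin F (Set.range a)) K) := by
          ext z
          exact hψ z
        rw [h1]
        change Polynomial.eval₂ _ (((Ideal.Quotient.mk 𝔔).comp κ) x) p = 0
        rw [← Polynomial.hom_eval₂, ← Polynomial.aeval_def, hp, map_zero]
    refine ⟨fun y => ?_⟩
    obtain ⟨t, rfl⟩ := Ideal.Quotient.mk_surjective y
    have ht : t ∈ Subring.closure (Set.range ρ ∪ Set.range κ) := by rw [hgen]; trivial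
    refine Subring.closure_induction (p := fun t _ => IsAlgebraic (P ⧸ 𝔔.comap ρ)
      (Ideal.Quotient.mk 𝔔 t)) ?_ ?_ ?_ ?_ ?_ ?_ ht
    · rintro _ (⟨p, rfl⟩ | ⟨x, rfl⟩)
      · have : Ideal.Quotient.mk 𝔔 (ρ p) =
            algebraMap (P ⧸ 𝔔.comap ρ) (T ⧸ 𝔔) (Ideal.Quotient.mk (𝔔.comap ρ) p) := by
          change _ = Ideal.quotientMap 𝔔 ρ le_rfl _
          rw [Ideal.quotientMap_mk]
        rw [this]
        exact isAlgebraic_algebraMap _
      · exact hK x
    · rw [map_zero]; exact isAlgebraic_zero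
    · rw [map_one]; exact isAlgebraic_one
    · intro x y _ _ hx hy
      rw [map_add]; exact hx.add hy
    · intro x _ hx
      rw [map_neg]; exact hx.neg
    · intro x y _ _ hx hy
      rw [map_mul]; exact hx.mul hy
  exact b5_count (F := F) (K := K) (B := P ⧸ 𝔔.comap ρ) (A := T ⧸ 𝔔) (Fintype.card I) ht

end

end Pool.Agent.Helper47.Spread
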