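import Mathlib
import Pool.Agent.Helper47.Spread.B1
import Pool.Agent.Helper47.Spread.B3
import Pool.Agent.Helper47.Spread.B4
import Pool.Agent.Helper47.Spread.B5

/-!
# The push-out square of a chart: going down, incomparability, transitivity, dimension
-/

universe u v w

open CategoryTheory AlgebraicGeometry Limits

namespace Pool.Agent.Helper47.Spread

noncomputable section

variable {F K A T : Type u} [Field F] [Field K] [Algebra F K] [CommRing A] [CommRing T]
  {I : Type} [Fintype I]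

omit [Fintype I] in
lemma isAlgebraic_mv (a : I → K)
    (h : Algebra.IsAlgebraic (IntermediateField.adjoin F (Set.range a)) K) (x : K) :
    @IsAlgebraic (MvPolynomial I F) K _ _
      (MvPolynomial.aeval a : MvPolynomial I F →ₐ[F] K).toRingHom.toAlgebra x := by
  open IntermediateField.algebraAdjoinAdjoin in
  have h1 : IsAlgebraic (Algebra.adjoin F (Set.range a)) x :=
    (IsFractionRing.isAlgebraic_iff (Algebra.adjoin F (Set.range a))
      (IntermediateField.adjoin F (Set.range a)) K).mpr (h.isAlgebraic x)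
  let alg : Algebra (MvPolynomial I F) K :=
    (MvPolynomial.aeval a : MvPolynomial I F →ₐ[F] K).toRingHom.toAlgebra
  have hmem : ∀ p : MvPolynomial I F, MvPolynomial.aeval a p ∈ Algebra.adjoin F (Set.range a) := by
    intro p
    rw [Algebra.adjoin_range_eq_range_aeval]
    exact ⟨p, rfl⟩
  let f : MvPolynomial I F →+* Algebra.adjoin F (Set.range a) :=
    ((MvPolynomial.aeval a : MvPolynomial I F →ₐ[F] K).codRestrict
      (Algebra.adjoin F (Set.range a)) hmem).toRingHom
  have hf : Function.Surjective f := by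
    rintro ⟨y, hy⟩
    have hy' := hy
    rw [Algebra.adjoin_range_eq_range_aeval] at hy'
    obtain ⟨p, hp⟩ := hy'
    exact ⟨p, Subtype.ext hp⟩
  exact IsAlgebraic.of_ringHom_of_comp_eq (R := MvPolynomial I F)
    (S := Algebra.adjoin F (Set.range a)) (f := f) (g := RingHom.id K) (a := x) h1 hf
    Function.injective_id rfl

omit [Fintype I] in
lemma closure_of_isPushout {R P : Type u} [CommRing R] [CommRing P] (f : R →+* K) (g : R →+* P)
    (κ : K →+* T) (ρ : P →+* T)
    (hp : IsPushout (CommRingCat.ofHom f) (CommRingCat.ofHom g) (CommRingCat.ofHom κ)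
      (CommRingCat.ofHom ρ)) : Subring.closure (Set.range ρ ∪ Set.range κ) = ⊤ := by
  let S := Subring.closure (Set.range ρ ∪ Set.range κ)
  let ρ' : P →+* S := ρ.codRestrict S fun x => Subring.subset_closure (Or.inl ⟨x, rfl⟩)
  let κ' : K →+* S := κ.codRestrict S fun x => Subring.subset_closure (Or.inr ⟨x, rfl⟩)
  have hw : CommRingCat.ofHom f ≫ CommRingCat.ofHom κ' =
      CommRingCat.ofHom g ≫ CommRingCat.ofHom ρ' := by
    ext x
    exact congrArg (fun h => h.hom x) hp.w
  let d := hp.desc (CommRingCat.ofHom κ') (CommRingCat.ofHom ρ') hw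
  have h1 : d ≫ CommRingCat.ofHom S.subtype = 𝟙 _ := by
    apply hp.hom_ext
    · rw [← Category.assoc, hp.inl_desc, Category.comp_id]
      rfl
    · rw [← Category.assoc, hp.inr_desc, Category.comp_id]
      rfl
  rw [eq_top_iff]
  rintro x -
  have h2 : (S.subtype (d.hom x)) = x := congrArg (fun h => h.hom x) h1
  rw [← h2]
  exact (d.hom x).2

theorem alg_package (φ : F →+* A) (hφ : φ.FiniteType) (a : I → K)
    (ha : AlgebraicIndependent F a) [Normal (IntermediateField.adjoin F (Set.range a)) K]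
    (α : A →+* T) (κ : K →+* T) {n : ℕ} (e : Fin n → I)
    (L : MvPolynomial I F →+* MvPolynomial (Fin n) A) (ρ : MvPolynomial (Fin n) A →+* T)
    (hρC : ρ.comp MvPolynomial.C = α) (hρX : ∀ i, ρ (MvPolynomial.X i) = κ (a (e i)))
    (hLC : L.comp MvPolynomial.C = MvPolynomial.C.comp φ)
    (hp : IsPushout
      (CommRingCat.ofHom (MvPolynomial.aeval a : MvPolynomial I F →ₐ[F] K).toRingHom)
      (CommRingCat.ofHom L) (CommRingCat.ofHom κ) (CommRingCat.ofHom ρ)) :
    (∀ (𝔭 : Ideal (MvPolynomial (Fin n) A)) (𝔔 : Ideal T), 𝔭.IsPrime → 𝔔.IsPrime →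
      𝔭 ≤ 𝔔.comap ρ → ∃ 𝔔' : Ideal T, 𝔔'.IsPrime ∧ 𝔔' ≤ 𝔔 ∧ 𝔔'.comap ρ = 𝔭) ∧
    (∀ 𝔔 𝔔' : Ideal T, 𝔔.IsPrime → 𝔔'.IsPrime → 𝔔 ≤ 𝔔' → 𝔔.comap ρ = 𝔔'.comap ρ →
      𝔔 = 𝔔') ∧
    (∀ 𝔔 𝔔' : Ideal T, 𝔔.IsPrime → 𝔔'.IsPrime → 𝔔.comap ρ = 𝔔'.comap ρ →
      ∃ σ : K ≃+* K, (∀ c : F, σ (algebraMap F K c) = algebraMap F K c) ∧
        (∀ l, σ (a l) = a l) ∧ ∀ τ : T →+* T, (∀ x, τ (α x) = α x) →
          (∀ x, τ (κ x) = κ (σ x)) → 𝔔.comap τ = 𝔔') ∧
    (∀ 𝔔 : Ideal T, 𝔔.IsPrime →
      dimOf κ 𝔔 + Fintype.card I = dimOf ((MvPolynomial.C).comp φ) (𝔔.comap ρ)) := by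
  let R := MvPolynomial I F
  let P := MvPolynomial (Fin n) A
  let ev : R →+* K := (MvPolynomial.aeval a : MvPolynomial I F →ₐ[F] K).toRingHom
  let algRK : Algebra R K := ev.toAlgebra
  let algRP : Algebra R P := L.toAlgebra
  let algKT : Algebra K T := κ.toAlgebra
  let algPT : Algebra P T := ρ.toAlgebra
  let algRT : Algebra R T := (κ.comp ev).toAlgebra
  have hsq : ρ.comp L = κ.comp ev := by
    have := hp.w
    exact (congrArg CommRingCat.Hom.hom this).symm
  have t1 : IsScalarTower R K T := IsScalarTower.of_algebraMap_eq fun x => rfl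
  have t2 : IsScalarTower R P T := IsScalarTower.of_algebraMap_eq fun x => by
    change (κ.comp ev) x = (ρ.comp L) x
    rw [hsq]
  have hpo : Algebra.IsPushout R K P T := by
    rw [← CommRingCat.isPushout_iff_isPushout]
    exact hp
  have hinj : Function.Injective (algebraMap R K) := ha
  have halgE : Algebra.IsAlgebraic (IntermediateField.adjoin F (Set.range a)) K := inferInstance
  have halg : Algebra.IsAlgebraic R K := ⟨fun x => isAlgebraic_mv a halgE x⟩
  have hev : ∀ c : F, ev (MvPolynomial.C c) = algebraMap F K c := fun c =>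
    MvPolynomial.aeval_C a c
  have hevX : ∀ l, ev (MvPolynomial.X l) = a l := fun l => MvPolynomial.aeval_X a l
  refine ⟨fun 𝔭 𝔔 h𝔭 h𝔔 h => exists_prime_le R K hinj 𝔭 h𝔭 𝔔 h𝔔 h,
    fun 𝔔 𝔔' h𝔔 h𝔔' h h' => eq_of_le_of_comap_eq R K hinj halg 𝔔 𝔔' h𝔔 h𝔔' h h', ?_, ?_⟩
  · intro 𝔔 𝔔' h𝔔 h𝔔' h
    have hnorm : ∀ (Ω : Type u) [Field Ω] (i₁ i₂ : K →+* Ω),
        (∀ c : R, i₁ (algebraMap R K c) = i₂ (algebraMap R K c)) →
          ∃ σ : K ≃+* K, (∀ c : R, σ (algebraMap R K c) = algebraMap R K c) ∧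
            ∀ x, i₁ x = i₂ (σ x) := by
      intro Ω _ i₁ i₂ hi
      obtain ⟨σ, s1, s2, s3⟩ := exists_aut_of_normal (F := F) a Ω i₁ i₂
        (fun c => by rw [← hev]; exact hi _) (fun l => by rw [← hevX]; exact hi _)
      refine ⟨σ, fun c => ?_, s3⟩
      have : (σ : K →+* K).comp ev = ev := by
        apply MvPolynomial.ringHom_ext
        · intro x
          change σ (ev (MvPolynomial.C x)) = ev (MvPolynomial.C x)
          rw [hev, s1]
        · intro l
          change σ (ev (MvPolynomial.X l)) = ev (MvPolynomial.X l)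
          rw [hevX, s2]
      exact congrArg (fun f : R →+* K => f c) this
    obtain ⟨σ, h1, h2⟩ := exists_aut (P := P) R K hinj halg hnorm 𝔔 𝔔' h𝔔 h𝔔' h
    refine ⟨σ, fun c => ?_, fun l => ?_, fun τ hα hκ => h2 τ ?_ hκ⟩
    · have := h1 (MvPolynomial.C c)
      change σ (ev (MvPolynomial.C c)) = ev (MvPolynomial.C c) at this
      rwa [hev] at this
    · have := h1 (MvPolynomial.X l)
      change σ (ev (MvPolynomial.X l)) = ev (MvPolynomial.X l) at this
      rwa [hevX] at this
    · intro p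
      change τ (ρ p) = ρ p
      have : τ.comp ρ = ρ := by
        apply MvPolynomial.ringHom_ext
        · intro x
          change τ (ρ (MvPolynomial.C x)) = ρ (MvPolynomial.C x)
          have e1 : ρ (MvPolynomial.C x) = α x := congrArg (fun f : A →+* T => f x) hρC
          rw [e1, hα]
        · intro i
          change τ (ρ (MvPolynomial.X i)) = ρ (MvPolynomial.X i)
          rw [hρX, hκ]
          have := h1 (MvPolynomial.X (e i))
          change σ (ev (MvPolynomial.X (e i))) = ev (MvPolynomial.X (e i)) at this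
          rw [hevX] at this
          rw [this]
      exact congrArg (fun f : P →+* T => f p) this
  · intro 𝔔 h𝔔
    have hft : (L.comp MvPolynomial.C).FiniteType := by
      rw [hLC]
      refine RingHom.FiniteType.comp ?_ hφ
      rw [← MvPolynomial.algebraMap_eq, RingHom.finiteType_algebraMap]
      infer_instance
    have h := dimOf_pushout a ha halgE L hft ρ κ hsq (closure_of_isPushout _ _ _ _ hp) 𝔔 h𝔔
    rw [h, hLC]

end

end Pool.Agent.Helper47.Spread
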