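import Mathlib
import Pool.Agent.Helper47.Spread.Defs

/-!
# Solving linear equations
-/

universe u v w

open CategoryTheory AlgebraicGeometry Limits

namespace Pool.Agent.Helper47.Spread

open Pool.Agent.Helper10 Pool.Agent.Helper10.SmProjVar Pool.Agent.Helper47.Chow
open Pool.Agent.Helper47.Desc

noncomputable section


theorem exists_isPushout {F K A T : Type u} [Field F] [Field K] [Algebra F K] [CommRing A]
    [Nontrivial A] [CommRing T] (φ : F →+* A) (α : A →+* T) (κ : K →+* T)
    (hF : α.comp φ = κ.comp (algebraMap F K)) {I : Type} [Fintype I] (a : I → K)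
    {Q : Type} [Fintype Q] [DecidableEq Q] (m : Q → I → A)
    (hz : ∀ c, ∑ l, κ (a l) * α (m c l) = 0)
    (hlift : ∀ (B : Type u) [CommRing B] (α' : A →+* B) (κ' : K →+* B),
      α'.comp φ = κ'.comp (algebraMap F K) → (∀ c, ∑ l, κ' (a l) * α' (m c l) = 0) →
        ∃ γ : T →+* B, γ.comp α = α' ∧ γ.comp κ = κ')
    (huniq : ∀ (B : Type u) [CommRing B] (γ γ' : T →+* B), γ.comp α = γ'.comp α →
      γ.comp κ = γ'.comp κ → γ = γ')
    (J : Q → I) (hJ : IsUnit (Matrix.det (Matrix.of fun c c' => m c (J c')))) :
    ∃ (n : ℕ) (e : Fin n → I) (L : MvPolynomial I F →+* MvPolynomial (Fin n) A)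
      (ρ : MvPolynomial (Fin n) A →+* T), n + Fintype.card Q = Fintype.card I ∧
        ρ.comp MvPolynomial.C = α ∧ (∀ i, ρ (MvPolynomial.X i) = κ (a (e i))) ∧
        L.comp MvPolynomial.C = MvPolynomial.C.comp φ ∧
        IsPushout (CommRingCat.ofHom (MvPolynomial.aeval a : MvPolynomial I F →ₐ[F] K).toRingHom)
          (CommRingCat.ofHom L) (CommRingCat.ofHom κ) (CommRingCat.ofHom ρ) := by
  classical
  have hJi : Function.Injective J := by
    intro c1 c2 h
    by_contra hne
    have : Matrix.det (Matrix.of fun c c' => m c (J c')) = 0 := by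
      apply Matrix.det_zero_of_column_eq hne
      intro k
      simp [h]
    rw [this] at hJ
    exact not_isUnit_zero hJ
  obtain ⟨n, E, hE⟩ : ∃ (n : ℕ) (E : Q ⊕ Fin n ≃ I), ∀ c, E (Sum.inl c) = J c :=
    ⟨Fintype.card ↥(Set.range J)ᶜ, ((Equiv.ofInjective J hJi).sumCongr
      (Fintype.equivFin ↥(Set.range J)ᶜ).symm).trans (Equiv.Set.sumCompl (Set.range J)),
      fun c => by simp⟩
  set e : Fin n → I := fun i => E (Sum.inr i) with he
  have hsum : ∀ {B : Type u} [CommRing B] (g : I → B), ∑ l, g l = ∑ c, g (J c) + ∑ i, g (e i) := by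
    intro B _ g
    rw [← Equiv.sum_comp E g, Fintype.sum_sum_type]
    simp only [hE, he]
  set M : Matrix Q Q A := Matrix.of fun c c' => m c (J c') with hM
  have hNM : M⁻¹ * M = 1 := Matrix.nonsing_inv_mul M hJ
  have hMN : M * M⁻¹ = 1 := Matrix.mul_nonsing_inv M hJ
  have hNM' : ∀ c c'', ∑ c', M⁻¹ c c' * m c' (J c'') = if c = c'' then 1 else 0 := by
    intro c c''
    have := congrFun (congrFun hNM c) c''
    rw [Matrix.mul_apply, Matrix.one_apply] at this
    exact this
  have hMN' : ∀ c c'', ∑ c', m c (J c') * M⁻¹ c' c'' = if c = c'' then 1 else 0 := by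
    intro c c''
    have := congrFun (congrFun hMN c) c''
    rw [Matrix.mul_apply, Matrix.one_apply] at this
    exact this
  set y : Q → MvPolynomial (Fin n) A := fun c =>
    -∑ c', MvPolynomial.C (M⁻¹ c c') * ∑ i, MvPolynomial.C (m c' (e i)) * MvPolynomial.X i with hy
  set x : I → MvPolynomial (Fin n) A := fun l => Sum.elim y MvPolynomial.X (E.symm l) with hx
  have hxJ : ∀ c, x (J c) = y c := by
    intro c
    rw [hx]
    simp only
    rw [← hE c, Equiv.symm_apply_apply]
    rfl
  have hxe : ∀ i, x (e i) = MvPolynomial.X i := by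
    intro i
    rw [hx, he]
    simp only
    rw [Equiv.symm_apply_apply]
    rfl
  have hrel : ∀ c, ∑ l, x l * MvPolynomial.C (m c l) = 0 := by
    intro c
    rw [hsum]
    have h1 : ∑ c', x (J c') * MvPolynomial.C (m c (J c')) =
        -∑ i, MvPolynomial.C (m c (e i)) * MvPolynomial.X i := by
      have h2 : ∀ c', x (J c') * MvPolynomial.C (m c (J c')) = -∑ c'', MvPolynomial.C
          (m c (J c') * M⁻¹ c' c'') * ∑ i, MvPolynomial.C (m c'' (e i)) * MvPolynomial.X i := by
        intro c'
        rw [hxJ, hy]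
        simp only
        rw [neg_mul, Finset.sum_mul]
        congr 1
        refine Finset.sum_congr rfl fun c'' _ => ?_
        rw [MvPolynomial.C_mul]
        ring
      rw [Finset.sum_congr rfl (fun c' _ => h2 c'), Finset.sum_neg_distrib, Finset.sum_comm]
      congr 1
      have h3 : ∀ c'', ∑ c', MvPolynomial.C (m c (J c') * M⁻¹ c' c'') *
          ∑ i, MvPolynomial.C (m c'' (e i)) * (MvPolynomial.X i : MvPolynomial (Fin n) A) =
          MvPolynomial.C (if c = c'' then 1 else 0) *
            ∑ i, MvPolynomial.C (m c'' (e i)) * MvPolynomial.X i := by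
        intro c''
        rw [← Finset.sum_mul, ← map_sum, hMN']
      rw [Finset.sum_congr rfl (fun c'' _ => h3 c''), Finset.sum_eq_single c]
      · simp
      · intro c'' _ h4
        simp [h4.symm]
      · intro h4
        exact absurd (Finset.mem_univ c) h4
    rw [h1]
    simp only [hxe]
    rw [neg_add_eq_zero]
    exact Finset.sum_congr rfl fun i _ => mul_comm _ _
  set L : MvPolynomial I F →+* MvPolynomial (Fin n) A :=
    MvPolynomial.eval₂Hom (MvPolynomial.C.comp φ) x with hL
  set ρ : MvPolynomial (Fin n) A →+* T :=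
    MvPolynomial.eval₂Hom α (fun i => κ (a (e i))) with hρ
  have hρC : ∀ b, ρ (MvPolynomial.C b) = α b := fun b => MvPolynomial.eval₂Hom_C _ _ _
  have hρX : ∀ i, ρ (MvPolynomial.X i) = κ (a (e i)) := fun i => MvPolynomial.eval₂Hom_X' _ _ _
  have hLC : ∀ b, L (MvPolynomial.C b) = MvPolynomial.C (φ b) := fun b =>
    MvPolynomial.eval₂Hom_C _ _ _
  have hLX : ∀ l, L (MvPolynomial.X l) = x l := fun l => MvPolynomial.eval₂Hom_X' _ _ _
  have hρx : ∀ l, ρ (x l) = κ (a l) := by
    intro l
    obtain ⟨t, rfl⟩ := E.surjective l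
    rcases t with c | i
    · rw [hE, hxJ, hy]
      simp only
      rw [map_neg, map_sum]
      have h1 : ∀ c', ρ (MvPolynomial.C (M⁻¹ c c') *
          ∑ i, MvPolynomial.C (m c' (e i)) * MvPolynomial.X i) =
          -∑ c'', κ (a (J c'')) * α (M⁻¹ c c' * m c' (J c'')) := by
        intro c'
        rw [map_mul, hρC, map_sum]
        have h2 := hz c'
        rw [hsum] at h2
        have h3 : ∑ i, ρ (MvPolynomial.C (m c' (e i)) * MvPolynomial.X i) =
            ∑ i, κ (a (e i)) * α (m c' (e i)) := by
          refine Finset.sum_congr rfl fun i _ => ?_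
          rw [map_mul, hρC, hρX, mul_comm]
        rw [h3, eq_neg_of_add_eq_zero_right h2, mul_neg, Finset.mul_sum]
        congr 1
        refine Finset.sum_congr rfl fun c'' _ => ?_
        rw [map_mul]
        ring
      rw [Finset.sum_congr rfl (fun c' _ => h1 c'), Finset.sum_neg_distrib, neg_neg,
        Finset.sum_comm]
      have h4 : ∀ c'', ∑ c', κ (a (J c'')) * α (M⁻¹ c c' * m c' (J c'')) =
          κ (a (J c'')) * α (if c = c'' then 1 else 0) := by
        intro c''
        rw [← Finset.mul_sum, ← map_sum, hNM']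
      rw [Finset.sum_congr rfl (fun c'' _ => h4 c''), Finset.sum_eq_single c]
      · simp
      · intro c'' _ h5
        simp [h5.symm]
      · intro h5
        exact absurd (Finset.mem_univ c) h5
    · change ρ (x (e i)) = κ (a (e i))
      rw [hxe, hρX]
  refine ⟨n, e, L, ρ, ?_, ?_, hρX, ?_, ?_⟩
  · have := Fintype.card_congr E
    rw [Fintype.card_sum, Fintype.card_fin] at this
    omega
  · ext b
    exact hρC b
  · ext b
    exact congrArg _ (hLC b)
  · have hcomm : κ.comp (MvPolynomial.aeval a : MvPolynomial I F →ₐ[F] K).toRingHom = ρ.comp L := by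
      apply MvPolynomial.ringHom_ext
      · intro b
        simp only [RingHom.comp_apply, AlgHom.toRingHom_eq_coe, RingHom.coe_coe,
          MvPolynomial.aeval_C]
        rw [hLC, hρC]
        exact (RingHom.congr_fun hF b).symm
      · intro l
        simp only [RingHom.comp_apply, AlgHom.toRingHom_eq_coe, RingHom.coe_coe,
          MvPolynomial.aeval_X]
        rw [hLX, hρx]
    have hcone : ∀ (B : Type u) [CommRing B] (κ' : K →+* B) (p : MvPolynomial (Fin n) A →+* B),
        κ'.comp (MvPolynomial.aeval a : MvPolynomial I F →ₐ[F] K).toRingHom = p.comp L →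
        ∃ γ : T →+* B, γ.comp κ = κ' ∧ γ.comp ρ = p := by
      intro B _ κ' p hkp
      have hal : ∀ l, κ' (a l) = p (x l) := by
        intro l
        have := RingHom.congr_fun hkp (MvPolynomial.X l)
        simp only [RingHom.comp_apply, AlgHom.toRingHom_eq_coe, RingHom.coe_coe,
          MvPolynomial.aeval_X] at this
        rw [this, hLX]
      obtain ⟨γ, hγ1, hγ2⟩ := hlift B (p.comp MvPolynomial.C) κ' (by
        ext b
        have := RingHom.congr_fun hkp (MvPolynomial.C b)
        simp only [RingHom.comp_apply, AlgHom.toRingHom_eq_coe, RingHom.coe_coe,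
          MvPolynomial.aeval_C] at this
        rw [hLC] at this
        exact this.symm) (by
        intro c
        have h1 : ∀ l, κ' (a l) * (p.comp MvPolynomial.C) (m c l) =
            p (x l * MvPolynomial.C (m c l)) := by
          intro l
          rw [map_mul, hal]
          rfl
        rw [Finset.sum_congr rfl (fun l _ => h1 l), ← map_sum, hrel, map_zero])
      refine ⟨γ, hγ2, ?_⟩
      apply MvPolynomial.ringHom_ext
      · intro b
        rw [RingHom.comp_apply, hρC]
        exact RingHom.congr_fun hγ1 b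
      · intro i
        rw [RingHom.comp_apply, hρX, ← hxe i, ← hal (e i)]
        exact RingHom.congr_fun hγ2 (a (e i))
    have hcone' : ∀ s : PushoutCocone (CommRingCat.ofHom
        (MvPolynomial.aeval a : MvPolynomial I F →ₐ[F] K).toRingHom) (CommRingCat.ofHom L),
        ∃ γ : T →+* s.pt, γ.comp κ = s.inl.hom ∧ γ.comp ρ = s.inr.hom := by
      intro s
      refine hcone s.pt s.inl.hom s.inr.hom ?_
      have := congrArg CommRingCat.Hom.hom s.condition
      exact this
    choose γ hγ1 hγ2 using hcone'
    refine IsPushout.of_isColimit' ⟨?_⟩ (PushoutCocone.IsColimit.mk _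
      (fun s => CommRingCat.ofHom (γ s)) ?_ ?_ ?_)
    · ext : 1
      exact hcomm
    · intro s
      ext : 1
      exact hγ1 s
    · intro s
      ext : 1
      exact hγ2 s
    · intro s g h1 h2
      ext : 1
      have h3 : g.hom.comp κ = s.inl.hom := congrArg CommRingCat.Hom.hom h1
      have h4 : g.hom.comp ρ = s.inr.hom := congrArg CommRingCat.Hom.hom h2
      refine huniq s.pt g.hom (γ s) ?_ ?_
      · ext b
        have h5 := RingHom.congr_fun h4 (MvPolynomial.C b)
        have h6 := RingHom.congr_fun (hγ2 s) (MvPolynomial.C b)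
        rw [RingHom.comp_apply, hρC] at h5 h6
        rw [RingHom.comp_apply, RingHom.comp_apply, h5, h6]
      · rw [h3, hγ1 s]

end

end Pool.Agent.Helper47.Spread
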