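import Mathlib
import Pool.Agent.Helper47.Spread.C1
import Pool.Agent.Helper47.Spread.C3
import Pool.Agent.Helper47.Spread.C5

/-!
# Charts outside the diagonal
-/

universe u v w

open CategoryTheory AlgebraicGeometry Limits

namespace Pool.Agent.Helper47.Spread

open Pool.Agent.Helper10 Pool.Agent.Helper10.SmProjVar Pool.Agent.Helper47.Chow
open Pool.Agent.Helper47.Desc

noncomputable section

variable {F K : Type u} [Field F] [Field K] [Algebra F K] {M₀ : SmProjVar F} {r : ℕ} {I : Type}
  [Fintype I]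

lemma res_comp {Z : Scheme.{u}} {V V' W : Z.Opens} (h : V' ≤ V) (h' : V ≤ W) (x : Γ(Z, W)) :
    res h (res h' x) = res (h.trans h') x := by
  unfold res
  rw [← CommRingCat.comp_apply, ← Functor.map_comp]
  rfl

theorem exists_chart {S : Sections M₀ r I} (hsep : Separates S) {a : I → K} {X : SmProjVar K}
    {π : X.toOver.left ⟶ M₀.toOver.left} [IsAffineHom π] (hX : IsZeroLocus S a X π)
    (x : (M₀.prod M₀).toOver.left) (hx : x ∉ Set.range (diag M₀).left) :
    ∃ (V : (M₀.prod M₀).toOver.left.Opens) (_ : IsAffineOpen V) (_ : x ∈ V)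
      (_ : IsAffineOpen (theta π hX.w ⁻¹ᵁ V)) (n : ℕ) (e : Fin n → I)
      (L : MvPolynomial I F →+* MvPolynomial (Fin n) Γ((M₀.prod M₀).toOver.left, V))
      (ρ : MvPolynomial (Fin n) Γ((M₀.prod M₀).toOver.left, V) →+*
        Γ((X.prod X).toOver.left, theta π hX.w ⁻¹ᵁ V)),
      n + 2 * r = Fintype.card I ∧ ρ.comp MvPolynomial.C = pb (theta π hX.w) V ∧
      (∀ i, ρ (MvPolynomial.X i) = const (X.prod X).toOver.hom (theta π hX.w ⁻¹ᵁ V) (a (e i))) ∧
      L.comp MvPolynomial.C = MvPolynomial.C.comp (const (M₀.prod M₀).toOver.hom V) ∧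
      IsPushout (CommRingCat.ofHom (MvPolynomial.aeval a : MvPolynomial I F →ₐ[F] K).toRingHom)
        (CommRingCat.ofHom L)
        (CommRingCat.ofHom (const (X.prod X).toOver.hom (theta π hX.w ⁻¹ᵁ V)))
        (CommRingCat.ofHom ρ) := by
  obtain ⟨i, i', J, hJ⟩ := hsep x hx
  let N := (M₀.prod M₀).toOver.left
  let det : Γ(N, box S i i') := Matrix.det (Matrix.of fun c c' => coef S i i' c (J c'))
  let V : N.Opens := N.basicOpen det
  have hVb : V ≤ box S i i' := N.basicOpen_le det
  have hV : IsAffineOpen V := (isAffineOpen_box S i i').basicOpen det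
  have hθ : IsAffineHom (theta π hX.w) := isAffineHom_theta π hX.w
  have hU : IsAffineOpen (theta π hX.w ⁻¹ᵁ V) := hV.preimage (theta π hX.w)
  have hnt : Nontrivial Γ(N, V) := by
    have : Nonempty V := ⟨⟨x, hJ⟩⟩
    exact Scheme.component_nontrivial N V
  have hunit : IsUnit (Matrix.det (Matrix.of fun c c' : Fin r ⊕ Fin r =>
      (fun c l => res hVb (coef S i i' c l)) c (J c'))) := by
    have h1 : IsUnit (res hVb det) := RingedSpace.isUnit_res_basicOpen _ det
    have h2 : res hVb det = Matrix.det (Matrix.of fun c c' : Fin r ⊕ Fin r =>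
      (fun c l => res hVb (coef S i i' c l)) c (J c')) := by
      rw [RingHom.map_det]
      rfl
    rwa [← h2]
  obtain ⟨n, e, L, ρ, h1, h2, h3, h4, h5⟩ := exists_isPushout
    (const (M₀.prod M₀).toOver.hom V) (pb (theta π hX.w) V)
    (const (X.prod X).toOver.hom (theta π hX.w ⁻¹ᵁ V))
    (const_comp_theta π hX.w V) a (fun c l => res hVb (coef S i i' c l))
    (fun c => chart_zero hX i i' V hVb c)
    (fun B _ α' κ' h h' => chart_lift hX i i' V hVb hV hU B α' κ' h h')
    (fun B _ γ γ' h h' => chart_unique hX V hV hU B γ γ' h h') J hunit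
  refine ⟨V, hV, hJ, hU, n, e, L, ρ, ?_, h2, h3, h4, h5⟩
  rw [← h1, Fintype.card_sum, Fintype.card_fin]
  ring

end

end Pool.Agent.Helper47.Spread
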