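import Mathlib
import Pool.Agent.Helper47.Spread.Defs

/-!
# Finite support of divisors
-/

universe u v w

open CategoryTheory AlgebraicGeometry Limits

namespace Pool.Agent.Helper47.Spread

open Pool.Agent.Helper10 Pool.Agent.Helper10.SmProjVar Pool.Agent.Helper47.Chow
open Pool.Agent.Helper47.Desc

noncomputable section


/-- The order of vanishing is zero outside a finite set of points. -/
theorem finite_ord {W : Scheme.{u}} [AlgebraicGeometry.IsIntegral W] [IsLocallyNoetherian W]
    [CompactSpace W] (f : W.functionField) (hf : f ≠ 0) :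
    {w : W | Scheme.ord f w ≠ 0}.Finite := by
  have : IsNoetherian W := { }
  obtain ⟨U, -, f', hne, hf', hu⟩ := exists_isUnit_germ_eq W f hf
  have h1 : ∀ w ∈ U, Scheme.ord f w = 0 := by
    intro w hw
    rw [← hf']
    exact Scheme.ord_of_isUnit hu hw
  obtain ⟨S, hS, hSc, hSi, hSU⟩ := TopologicalSpace.NoetherianSpace.exists_finite_set_isClosed_irreducible
    (α := W) (s := (U : Set W)ᶜ) U.isOpen.isClosed_compl
  obtain ⟨u₀, hu₀⟩ := hne
  have hgen : genericPoint W ∈ U := (genericPoint_specializes u₀).mem_open U.isOpen hu₀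
  -- the generic points of the components
  have h2 : ∀ t ∈ S, ∃ z : W, ∀ w ∈ t, z ⤳ w := by
    intro t ht
    exact ⟨(hSi t ht).genericPoint, fun w hw =>
      ((hSi t ht).isGenericPoint_genericPoint (hSc t ht)).specializes hw⟩
  have h3 : ∀ t ∈ S, ∃ z ∈ t, ∀ w ∈ t, z ⤳ w := by
    intro t ht
    exact ⟨(hSi t ht).genericPoint, ((hSi t ht).isGenericPoint_genericPoint (hSc t ht)).mem,
      fun w hw => ((hSi t ht).isGenericPoint_genericPoint (hSc t ht)).specializes hw⟩
  choose! z hz hzs using h3
  refine (hS.image z).subset ?_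
  intro w hw
  have hw0 : Scheme.ord f w ≠ 0 := hw
  have hwU : w ∉ U := fun h => hw0 (h1 w h)
  have hco : Order.coheight w = 1 := by
    by_contra hne
    exact hw0 (Scheme.ord_eq_zero_of_coheight_neq_one hne f)
  have hwS : w ∈ ⋃₀ S := by
    rw [← hSU]
    exact hwU
  obtain ⟨t, ht, hwt⟩ := hwS
  refine ⟨t, ht, ?_⟩
  have hzU : z t ∉ U := by
    have : z t ∈ (U : Set W)ᶜ := by
      rw [hSU]
      exact ⟨t, ht, hz t ht⟩
    exact this
  have hle : w ≤ z t := Scheme.le_iff_specializes.2 (hzs t ht w hwt)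
  have hlt : z t < genericPoint W := by
    refine lt_of_le_not_ge (Scheme.le_iff_specializes.2 (genericPoint_specializes _)) ?_
    intro h
    exact hzU ((Scheme.le_iff_specializes.1 h).mem_open U.isOpen hgen)
  by_contra hne
  have hlt' : w < z t := by
    refine lt_of_le_not_ge hle ?_
    intro h
    exact hne ((Scheme.le_iff_specializes.1 hle).antisymm (Scheme.le_iff_specializes.1 h)).eq
  have h4 := Order.coheight_add_one_le hlt
  have h5 := Order.coheight_add_one_le hlt'
  rw [hco] at h5
  have h6 : (1 : ℕ∞) ≤ Order.coheight (z t) := le_trans (by simp) h4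
  have h7 : (1 : ℕ∞) + 1 ≤ 1 := le_trans (add_le_add_left h6 1) h5
  exact absurd h7 (by decide)

end

end Pool.Agent.Helper47.Spread
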