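import Mathlib
import Pool.Agent.Helper47.Spread.Defs

/-!
# The order of vanishing of regular functions
-/

universe u v w

open CategoryTheory AlgebraicGeometry Limits

namespace Pool.Agent.Helper47.Spread

open Pool.Agent.Helper10 Pool.Agent.Helper10.SmProjVar Pool.Agent.Helper47.Chow
open Pool.Agent.Helper47.Desc

noncomputable section


theorem ord_germ {W : Scheme.{u}} [AlgebraicGeometry.IsIntegral W] [IsLocallyNoetherian W]
    (U : W.Opens) [Nonempty U] (b : Γ(W, U)) (hb : b ≠ 0) (w : W) (hw : w ∈ U) :
    0 ≤ Scheme.ord (W.germToFunctionField U b) w ∧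
      (w ∈ W.basicOpen b → Scheme.ord (W.germToFunctionField U b) w = 0) ∧
      (Order.coheight w = 1 → w ∉ W.basicOpen b →
        0 < Scheme.ord (W.germToFunctionField U b) w) := by
  by_cases hx : Order.coheight w = 1
  swap
  · simp [hx]
  have : Ring.KrullDimLE 1 (W.presheaf.stalk w) := krullDimLE_of_coheight_le hx.le
  set x := W.presheaf.germ U w hw b with hxdef
  have hx0 : x ≠ 0 := by
    intro h
    apply hb
    have hinj := AlgebraicGeometry.germ_injective_of_isIntegral W w hw
    apply hinj
    rw [map_zero]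
    exact h
  have hf0 : W.germToFunctionField U b ≠ 0 := by
    intro h
    apply hb
    have hinj := Scheme.germToFunctionField_injective W U
    apply hinj
    rw [map_zero]
    exact h
  obtain ⟨n, hn⟩ := ENat.ne_top_iff_exists.mp
    (Ring.ord_ne_top (R := W.presheaf.stalk w) (a := x) (mem_nonZeroDivisors_iff_ne_zero.mpr hx0))
  have key : Scheme.ord (W.germToFunctionField U b) w = (n : ℤ) := by
    rw [Scheme.ord_eq_iff hx hf0]
    rw [← Scheme.algebraMap_germ_eq_germToFunctionField _ hw]
    show Ring.ordFrac (W.presheaf.stalk w) (algebraMap _ _ x) = _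
    rw [Ring.ordFrac_eq_ord _ hx0,
      Ring.ordMonoidWithZeroHom_eq_coe _ (mem_nonZeroDivisors_iff_ne_zero.mpr hx0) hn.symm]
  have hunit : n = 0 ↔ IsUnit x := by
    have h1 : Ring.ord (W.presheaf.stalk w) x = 0 ↔ IsUnit x := by
      unfold Ring.ord
      rw [Module.length_eq_zero_iff, Ideal.Quotient.subsingleton_iff,
        Ideal.span_singleton_eq_top]
    rw [← h1, ← hn]
    simp
  have hbas : w ∈ W.basicOpen b ↔ IsUnit x := Scheme.mem_basicOpen W b w hw
  rw [key, hbas, ← hunit]
  refine ⟨by positivity, ?_, ?_⟩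
  · rintro rfl
    rfl
  · intro _ h
    have : 0 < n := Nat.pos_of_ne_zero h
    exact_mod_cast this

end

end Pool.Agent.Helper47.Spread
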