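import Mathlib
import Pool.Agent.Helper47.Spread.Defs

/-!
# The reduced closure of a point
-/

universe u v w

open CategoryTheory AlgebraicGeometry Limits

namespace Pool.Agent.Helper47.Spread

open Pool.Agent.Helper10 Pool.Agent.Helper10.SmProjVar Pool.Agent.Helper47.Chow
open Pool.Agent.Helper47.Desc

noncomputable section

/-- The scheme theoretic image of a reduced scheme is reduced. -/
theorem isReduced_image {X Y : Scheme.{u}} (f : X ⟶ Y) [QuasiCompact f]
    [AlgebraicGeometry.IsReduced X] : AlgebraicGeometry.IsReduced f.image := by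
  have h1 : ∀ U : Y.affineOpens, AlgebraicGeometry.IsReduced
      ((f.imageι ⁻¹ᵁ U.1 : f.image.Opens) : Scheme.{u}) := by
    intro U
    have hV : IsAffineOpen (f.imageι ⁻¹ᵁ U.1) := U.2.preimage f.imageι
    have : IsAffine ((f.imageι ⁻¹ᵁ U.1 : f.image.Opens) : Scheme.{u}) := hV
    have hr : _root_.IsReduced Γ(f.image, f.imageι ⁻¹ᵁ U.1) := by
      exact isReduced_of_injective (f.toImage.app (f.imageι ⁻¹ᵁ U.1)).hom
        (f.toImage_app_injective U)
    have : _root_.IsReduced Γ(((f.imageι ⁻¹ᵁ U.1 : f.image.Opens) : Scheme.{u}), ⊤) := by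
      exact isReduced_of_injective (f.imageι ⁻¹ᵁ U.1).topIso.hom.hom
        (f.imageι ⁻¹ᵁ U.1).topIso.commRingCatIsoToRingEquiv.injective
    exact isReduced_of_isAffine_isReduced _
  refine @isReduced_of_isReduced_stalk _ ?_
  intro x
  obtain ⟨U, hU, hxU, -⟩ := Y.isBasis_affineOpens.exists_subset_of_mem_open
    (Set.mem_univ (f.imageι x)) isOpen_univ
  obtain ⟨U, hUa, rfl⟩ := hU
  have hx : x ∈ f.imageι ⁻¹ᵁ U := hxU
  have h2 := h1 ⟨U, hUa⟩
  have h3 : _root_.IsReduced (((f.imageι ⁻¹ᵁ U : f.image.Opens) :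
    Scheme.{u}).presheaf.stalk ⟨x, hx⟩) := inferInstance
  exact isReduced_of_injective _
    (asIso <| (f.imageι ⁻¹ᵁ U).ι.stalkMap ⟨x, hx⟩).commRingCatIsoToRingEquiv.injective

theorem closure_facts {W Y : Scheme.{u}} [AlgebraicGeometry.IsIntegral W] (ι : W ⟶ Y)
    (y₀ : Y) (hemb : Topology.IsEmbedding ι) (hrange : Set.range ι = closure {y₀}) :
    ι (genericPoint W) = y₀ ∧
        ∀ w : W, Order.coheight w = 1 ↔
          (ι w ≠ y₀ ∧ ∀ t : Y, y₀ ⤳ t → t ⤳ ι w → t = y₀ ∨ t = ι w) := by
  have hgen : ι (genericPoint W) = y₀ := by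
    have h1 : y₀ ∈ Set.range ι := by
      rw [hrange]
      exact subset_closure rfl
    obtain ⟨w, hw⟩ := h1
    have h2 : ι (genericPoint W) ⤳ y₀ := by
      have := (genericPoint_specializes w).map ι.continuous
      rwa [hw] at this
    have h3 : y₀ ⤳ ι (genericPoint W) := by
      rw [specializes_iff_mem_closure, ← hrange]
      exact ⟨_, rfl⟩
    exact (h2.antisymm h3).eq
  refine ⟨hgen, ?_⟩
  intro w
  have hinj := hemb.injective
  have hmax : ∀ y : W, IsMax y ↔ y = genericPoint W := by
    intro y
    constructor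
    · intro h
      have h1 : y ≤ genericPoint W := Scheme.le_iff_specializes.2 (genericPoint_specializes y)
      exact ((Scheme.le_iff_specializes.1 (h h1)).antisymm (Scheme.le_iff_specializes.1 h1)).eq
    · rintro rfl
      intro y hy
      exact Scheme.le_iff_specializes.2 (genericPoint_specializes y)
  have hco : Order.coheight w = 1 ↔ (w ≠ genericPoint W ∧ ∀ y : W, w < y → y = genericPoint W) := by
    rw [Ne, ← hmax w]
    have e1 : Order.coheight w ≤ 1 ↔ ∀ y : W, w < y → y = genericPoint W := by
      have := Order.coheight_le_coe_iff (x := w) (n := 1)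
      rw [Nat.cast_one] at this
      rw [this]
      refine forall_congr' fun y => imp_congr_right fun _ => ?_
      rw [ENat.lt_one_iff_eq_zero, Order.coheight_eq_zero, hmax]
    rw [← e1, ← Order.coheight_ne_zero]
    constructor
    · intro h
      rw [h]
      simp
    · rintro ⟨h1, h2⟩
      refine le_antisymm h2 ?_
      exact ENat.one_le_iff_ne_zero.2 h1
  have hsp : ∀ y : W, (w < y ↔ (ι y ⤳ ι w ∧ ι y ≠ ι w)) := by
    intro y
    rw [hemb.toIsInducing.specializes_iff, hinj.ne_iff]
    constructor
    · intro h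
      exact ⟨Scheme.le_iff_specializes.1 h.le, h.ne'⟩
    · rintro ⟨h1, h2⟩
      refine lt_of_le_not_ge (Scheme.le_iff_specializes.2 h1) ?_
      intro h3
      exact h2 (h1.antisymm (Scheme.le_iff_specializes.1 h3)).eq
  rw [hco]
  constructor
  · rintro ⟨h1, h2⟩
    refine ⟨?_, ?_⟩
    · intro h
      rw [← hgen] at h
      exact h1 (hinj h)
    · intro t ht1 ht2
      have : t ∈ Set.range ι := by
        rw [hrange]
        exact specializes_iff_mem_closure.1 ht1
      obtain ⟨y, rfl⟩ := this
      by_cases hy : ι y = ι w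
      · exact Or.inr hy
      · left
        rw [h2 y ((hsp y).2 ⟨ht2, hy⟩), hgen]
  · rintro ⟨h1, h2⟩
    refine ⟨?_, ?_⟩
    · rintro rfl
      exact h1 hgen
    · intro y hy
      have h3 := (hsp y).1 hy
      have h5 : y₀ ⤳ ι y := by
        rw [specializes_iff_mem_closure, ← hrange]
        exact ⟨y, rfl⟩
      rcases h2 (ι y) h5 h3.1 with h4 | h4
      · exact hinj (h4.trans hgen.symm)
      · exact absurd h4 h3.2

theorem exists_closure (Y : Scheme.{u}) [IsLocallyNoetherian Y] (y₀ : Y) :
    ∃ (W : Scheme.{u}) (_ : AlgebraicGeometry.IsIntegral W) (_ : IsLocallyNoetherian W)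
      (ι : W ⟶ Y) (_ : IsClosedImmersion ι), Set.range ι = closure {y₀} ∧
        ι (genericPoint W) = y₀ ∧
        ∀ w : W, Order.coheight w = 1 ↔
          (ι w ≠ y₀ ∧ ∀ t : Y, y₀ ⤳ t → t ⤳ ι w → t = y₀ ∨ t = ι w) := by
  have hqc : QuasiCompact (Y.fromSpecResidueField y₀) := inferInstance
  have hlf : LocallyOfFiniteType (Y.fromSpecResidueField y₀).imageι := inferInstance
  have hirr : IrreducibleSpace (Y.fromSpecResidueField y₀).image := by
    rw [irreducibleSpace_def]
    convert!
      ((IrreducibleSpace.isIrreducible_univ (Spec (Y.residueField y₀))).image _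
          (Y.fromSpecResidueField y₀).toImage.continuous.continuousOn).closure
    simpa using (Y.fromSpecResidueField y₀).toImage.denseRange.closure_range.symm
  have hred : AlgebraicGeometry.IsReduced (Y.fromSpecResidueField y₀).image :=
    isReduced_image _
  have hint : AlgebraicGeometry.IsIntegral (Y.fromSpecResidueField y₀).image :=
    isIntegral_of_irreducibleSpace_of_isReduced _
  have hln : IsLocallyNoetherian (Y.fromSpecResidueField y₀).image :=
    LocallyOfFiniteType.isLocallyNoetherian (Y.fromSpecResidueField y₀).imageι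
  have hrange : Set.range (Y.fromSpecResidueField y₀).imageι = closure {y₀} := by
    rw [Scheme.IdealSheafData.range_subschemeι, Scheme.Hom.support_ker,
      Scheme.range_fromSpecResidueField]
  exact ⟨_, hint, hln, (Y.fromSpecResidueField y₀).imageι, inferInstance, hrange,
    closure_facts _ y₀ (Y.fromSpecResidueField y₀).imageι.isEmbedding hrange⟩

end

end Pool.Agent.Helper47.Spread
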