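import Mathlib
import Pool.Agent.Helper47.Spread.D1a
import Pool.Agent.Helper47.Spread.D1b
import Pool.Agent.Helper47.Spread.D1c

/-!
# Divisors of functions on subvarieties
-/

universe u v w

open CategoryTheory AlgebraicGeometry Limits

namespace Pool.Agent.Helper47.Spread

open Pool.Agent.Helper10 Pool.Agent.Helper10.SmProjVar Pool.Agent.Helper47.Chow
open Pool.Agent.Helper47.Desc

noncomputable section

variable {K : Type u} [Field K]

theorem exists_divisor (Y : SmProjVar K) (U : Y.toOver.left.Opens) (hU : IsAffineOpen U)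
    (y₀ : Y.toOver.left) (b : Γ(Y.toOver.left, U)) (hb : y₀ ∈ Y.toOver.left.basicOpen b) :
    ∃ D : QCycles Y, IsDivisor Y D ∧
      (∀ x : Y.toOver.left, D.coeff x ≠ 0 → y₀ ⤳ x ∧ x ≠ y₀ ∧
        (∀ t : Y.toOver.left, y₀ ⤳ t → t ⤳ x → t = y₀ ∨ t = x)) ∧
      (∀ x ∈ U, 0 ≤ D.coeff x ∧ (D.coeff x ≠ 0 → x ∉ Y.toOver.left.basicOpen b)) ∧
      (∀ x ∈ U, y₀ ⤳ x → x ≠ y₀ → (∀ t : Y.toOver.left, y₀ ⤳ t → t ⤳ x → t = y₀ ∨ t = x) →
        x ∉ Y.toOver.left.basicOpen b → 0 < D.coeff x) := by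
  classical
  have hYn : IsLocallyNoetherian Y.toOver.left :=
    LocallyOfFiniteType.isLocallyNoetherian Y.toOver.hom
  obtain ⟨W, hWi, hWn, ι, hι, hrange, hgen, hco⟩ := exists_closure Y.toOver.left y₀
  have hYc : CompactSpace Y.toOver.left := by
    have : QuasiCompact Y.toOver.hom := inferInstance
    exact QuasiCompact.compactSpace_of_compactSpace Y.toOver.hom
  have hWc : CompactSpace W := ι.isClosedEmbedding.compactSpace
  have hyU : y₀ ∈ U := Y.toOver.left.basicOpen_le b hb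
  have hgU : genericPoint W ∈ ι ⁻¹ᵁ U := by
    change ι (genericPoint W) ∈ U
    rw [hgen]
    exact hyU
  have hne : Nonempty (ι ⁻¹ᵁ U : W.Opens) := ⟨⟨genericPoint W, hgU⟩⟩
  have hbas : W.basicOpen (ι.app U b) = ι ⁻¹ᵁ Y.toOver.left.basicOpen b :=
    (Scheme.preimage_basicOpen ι b).symm
  have hmem : ∀ w : W, w ∈ W.basicOpen (ι.app U b) ↔ ι w ∈ Y.toOver.left.basicOpen b := by
    intro w
    rw [hbas]
    exact Iff.rfl
  have hb0 : ι.app U b ≠ 0 := by
    intro h0
    have h1 : genericPoint W ∈ W.basicOpen (ι.app U b) := by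
      rw [hmem, hgen]
      exact hb
    rw [h0, Scheme.basicOpen_zero] at h1
    exact h1
  set f : W.functionField := W.germToFunctionField (ι ⁻¹ᵁ U) (ι.app U b) with hf
  have hf0 : f ≠ 0 := by
    intro h0
    apply hb0
    apply Scheme.germToFunctionField_injective W (ι ⁻¹ᵁ U)
    rw [map_zero]
    exact h0
  have hfin : {w : W | Scheme.ord f w ≠ 0}.Finite := finite_ord f hf0
  have hfin' : (Function.support fun w : W => (Scheme.ord f w : ℚ)).Finite := by
    refine hfin.subset ?_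
    intro w hw
    have hw' : ((Scheme.ord f w : ℤ) : ℚ) ≠ 0 := hw
    exact fun h => hw' (by rw [h]; simp)
  have hinj : Function.Injective (ι : W → Y.toOver.left) :=
    ι.isClosedEmbedding.injective
  let D : QCycles Y := Finsupp.embDomain (⟨fun w : W => ι w, hinj⟩ : W ↪ Y.Pt)
    (Finsupp.ofSupportFinite _ hfin')
  have hD1 : ∀ w : W, D.coeff (ι w) = (Scheme.ord f w : ℚ) := by
    intro w
    exact Finsupp.embDomain_apply_self (⟨fun w : W => ι w, hinj⟩ : W ↪ Y.Pt) _ w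
  have hD2 : ∀ x : Y.Pt, x ∉ Set.range ι → D.coeff x = 0 := by
    intro x hx
    exact Finsupp.embDomain_of_notMem_range (⟨fun w : W => ι w, hinj⟩ : W ↪ Y.Pt) _ x hx
  refine ⟨D, ⟨W, hWi, hWn, ι, hι, f, hf0, hD1, hD2⟩, ?_, ?_, ?_⟩
  · intro x hx
    have hxr : x ∈ Set.range ι := by
      by_contra h
      exact hx (hD2 x h)
    obtain ⟨w, rfl⟩ := hxr
    rw [hD1] at hx
    have hcw : Order.coheight w = 1 := by
      by_contra h
      exact hx (by rw [Scheme.ord_eq_zero_of_coheight_neq_one h f]; simp)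
    obtain ⟨h1, h2⟩ := (hco w).1 hcw
    refine ⟨?_, h1, h2⟩
    rw [specializes_iff_mem_closure, ← hrange]
    exact ⟨w, rfl⟩
  · intro x hxU
    by_cases hxr : x ∈ Set.range ι
    · obtain ⟨w, rfl⟩ := hxr
      obtain ⟨h1, h2, -⟩ := ord_germ (ι ⁻¹ᵁ U) (ι.app U b) hb0 w hxU
      refine ⟨?_, ?_⟩
      · rw [hD1]
        exact_mod_cast h1
      · intro h3 h4
        apply h3
        rw [hD1]
        have h5 : Scheme.ord f w = 0 := h2 ((hmem w).2 h4)
        rw [h5]
        simp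
    · rw [hD2 x hxr]
      exact ⟨le_rfl, fun h => absurd rfl h⟩
  · intro x hxU hyx hne' hmid hxb
    have hxr : x ∈ Set.range ι := by
      rw [hrange, ← specializes_iff_mem_closure]
      exact hyx
    obtain ⟨w, rfl⟩ := hxr
    have hcw : Order.coheight w = 1 := (hco w).2 ⟨hne', hmid⟩
    obtain ⟨-, -, h3⟩ := ord_germ (ι ⁻¹ᵁ U) (ι.app U b) hb0 w hxU
    rw [hD1]
    have h4 : 0 < Scheme.ord f w := h3 hcw (fun h => hxb ((hmem w).1 h))
    exact_mod_cast h4

end

end Pool.Agent.Helper47.Spread
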