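import Mathlib
import Pool.Agent.Helper47.Spread.Defs

/-!
# Semilinear automorphisms of zero loci
-/

universe u v w

open CategoryTheory AlgebraicGeometry Limits

namespace Pool.Agent.Helper47.Spread

open Pool.Agent.Helper10 Pool.Agent.Helper10.SmProjVar Pool.Agent.Helper47.Chow
open Pool.Agent.Helper47.Desc

noncomputable section

variable {F K : Type u} [Field F] [Field K] [Algebra F K] {M₀ : SmProjVar F} {r : ℕ} {I : Type}
  [Fintype I]

namespace E1aux

/-- the automorphism of `Spec K` given by `σ` -/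
def bm (σ : K ≃+* K) : Spec (CommRingCat.of K) ⟶ Spec (CommRingCat.of K) :=
  Spec.map (CommRingCat.ofHom (σ : K →+* K))

lemma bm_symm (σ : K ≃+* K) : bm σ ≫ bm σ.symm = 𝟙 _ := by
  unfold bm
  rw [← Spec.map_comp, ← CommRingCat.ofHom_comp]
  have : ((σ : K →+* K).comp (σ.symm : K →+* K)) = RingHom.id K := by
    ext x
    simp
  rw [this, CommRingCat.ofHom_id, Spec.map_id]

lemma bm_specMap (σ : K ≃+* K) (hσ : ∀ c : F, σ (algebraMap F K c) = algebraMap F K c) :
    bm σ ≫ specMap F K = specMap F K := by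
  unfold bm specMap
  rw [← Spec.map_comp, ← CommRingCat.ofHom_comp]
  have : ((σ : K →+* K).comp (algebraMap F K)) = algebraMap F K := by
    ext x
    exact hσ x
  rw [this]

lemma const_bm {Z : Scheme.{u}} (s : Z ⟶ Spec (CommRingCat.of K)) (σ : K ≃+* K) (W : Z.Opens)
    (x : K) : const (s ≫ bm σ) W x = const s W (σ x) := by
  have h1 : (Scheme.ΓSpecIso (CommRingCat.of K)).inv ≫ (s ≫ bm σ).appTop ≫
      Z.presheaf.map (homOfLE (le_top : W ≤ ⊤)).op =
      CommRingCat.ofHom (σ : K →+* K) ≫ (Scheme.ΓSpecIso (CommRingCat.of K)).inv ≫ s.appTop ≫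
      Z.presheaf.map (homOfLE (le_top : W ≤ ⊤)).op := by
    rw [Scheme.Hom.comp_appTop]
    unfold bm
    rw [← Category.assoc, ← Category.assoc, ← Scheme.ΓSpecIso_inv_naturality]
    simp only [Category.assoc]
  unfold const
  rw [h1]
  rfl

lemma exists_hom {S : Sections M₀ r I} {a : I → K} {X : SmProjVar K}
    {π : X.toOver.left ⟶ M₀.toOver.left} (hX : IsZeroLocus S a X π) (σ : K ≃+* K)
    (hσ : ∀ c : F, σ (algebraMap F K c) = algebraMap F K c) (hσa : ∀ l, σ (a l) = a l) :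
    ∃ h : X.toOver.left ⟶ X.toOver.left, h ≫ π = π ∧
      h ≫ X.toOver.hom = X.toOver.hom ≫ bm σ := by
  apply hX.exists_lift
  · rw [hX.w, Category.assoc, bm_specMap σ hσ]
  · intro i q
    rw [← hX.zero i q]
    unfold eqn
    refine Finset.sum_congr rfl fun l _ => ?_
    rw [const_bm, hσa]

lemma hom_comp_hom {S : Sections M₀ r I} {a : I → K} {X : SmProjVar K}
    {π : X.toOver.left ⟶ M₀.toOver.left} (hX : IsZeroLocus S a X π) (σ : K ≃+* K)
    (h h' : X.toOver.left ⟶ X.toOver.left) (h1 : h ≫ π = π)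
    (h2 : h ≫ X.toOver.hom = X.toOver.hom ≫ bm σ) (h1' : h' ≫ π = π)
    (h2' : h' ≫ X.toOver.hom = X.toOver.hom ≫ bm σ.symm) : h ≫ h' = 𝟙 _ := by
  apply hX.unique
  · rw [Category.assoc, h1', h1, Category.id_comp]
  · rw [Category.assoc, h2', ← Category.assoc, h2, Category.assoc, bm_symm, Category.comp_id,
      Category.id_comp]

end E1aux

open E1aux in
theorem exists_semiAut {S : Sections M₀ r I} {a : I → K} {X : SmProjVar K}
    {π : X.toOver.left ⟶ M₀.toOver.left} (hX : IsZeroLocus S a X π) (σ : K ≃+* K)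
    (hσ : ∀ c : F, σ (algebraMap F K c) = algebraMap F K c) (hσa : ∀ l, σ (a l) = a l) :
    ∃ g ∈ galGroup (F := F) a π, ∀ x, fieldMap g x = σ x := by
  obtain ⟨h, h1, h2⟩ := exists_hom hX σ hσ hσa
  obtain ⟨h', h1', h2'⟩ := exists_hom hX σ.symm
    (fun c => by rw [RingEquiv.symm_apply_eq]; exact (hσ c).symm)
    (fun l => by rw [RingEquiv.symm_apply_eq]; exact (hσa l).symm)
  have e1 : h ≫ h' = 𝟙 _ := hom_comp_hom hX σ h h' h1 h2 h1' h2'
  have e2 : h' ≫ h = 𝟙 _ := hom_comp_hom hX σ.symm h' h h1' h2' h1 (by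
    rw [RingEquiv.symm_symm]; exact h2)
  have e3 : bm σ ≫ bm σ.symm = 𝟙 _ := bm_symm σ
  have e4 : bm σ.symm ≫ bm σ = 𝟙 _ := by
    have := bm_symm σ.symm
    rwa [RingEquiv.symm_symm] at this
  let g : SemiAut X :=
    { hom := Arrow.homMk (u := h) (v := bm σ) h2
      inv := Arrow.homMk (u := h') (v := bm σ.symm) h2'
      hom_inv_id := Arrow.hom_ext _ _ e1 e3
      inv_hom_id := Arrow.hom_ext _ _ e2 e4 }
  have hbase : g.base = bm σ := rfl
  have hfm : ∀ x, fieldMap g x = σ x := by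
    intro x
    unfold fieldMap
    rw [hbase]
    unfold bm
    rw [Spec.preimage_map]
    rfl
  refine ⟨g, ⟨h1, fun c => ?_, fun l => ?_⟩, hfm⟩
  · rw [hfm, hσ]
  · rw [hfm, hσa]

end

end Pool.Agent.Helper47.Spread
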