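import Mathlib
import Pool.Agent.Helper47.Spread.Chart
import Pool.Agent.Helper47.Spread.AlgPack
import Pool.Agent.Helper47.Spread.A2
import Pool.Agent.Helper47.Spread.A5
import Pool.Agent.Helper47.Spread.D1
import Pool.Agent.Helper47.Spread.D2
import Pool.Agent.Helper47.Spread.D4
import Pool.Agent.Helper47.Spread.E1
import Pool.Agent.Helper47.Spread.E3

/-!
# The fibres of `X × X ⟶ M₀ × M₀` outside the diagonal
-/

universe u v w

open CategoryTheory AlgebraicGeometry Limits

namespace Pool.Agent.Helper47.Spread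

open Pool.Agent.Helper10 Pool.Agent.Helper10.SmProjVar Pool.Agent.Helper47.Chow
open Pool.Agent.Helper47.Desc

noncomputable section

section Points

variable {K : Type u} [Field K]

lemma exists_affine (Y : SmProjVar K) (y : Y.toOver.left) :
    ∃ (U : Y.toOver.left.Opens) (_ : IsAffineOpen U), y ∈ U := by
  obtain ⟨U, hU, hy, -⟩ := exists_isAffineOpen_mem_and_subset (x := y)
    (U := (⊤ : Y.toOver.left.Opens)) trivial
  exact ⟨U, hU, hy⟩

lemma mem_of_specializes {Z : Scheme.{u}} {U : Z.Opens} {x y : Z} (h : x ⤳ y) (hy : y ∈ U) :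
    x ∈ U := h.mem_open U.2 hy

lemma eq_of_prime_eq {Z : Scheme.{u}} {U : Z.Opens} (hU : IsAffineOpen U) {x y : Z}
    (hx : x ∈ U) (hy : y ∈ U)
    (h : (hU.primeIdealOf ⟨x, hx⟩).asIdeal = (hU.primeIdealOf ⟨y, hy⟩).asIdeal) : x = y :=
  (((specializes_iff hU hx hy).mpr h.le).antisymm ((specializes_iff hU hy hx).mpr h.ge)).eq

/-- Dimension drops under proper specialisation. -/
theorem pointDim_lt (Y : SmProjVar K) {x y : Y.toOver.left} (h : x ⤳ y) (hne : y ≠ x) :
    Y.pointDim y < Y.pointDim x := by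
  obtain ⟨U, hU, hy⟩ := exists_affine Y y
  have hx := mem_of_specializes h hy
  rw [pointDim_eq_dimOf Y hU hx, pointDim_eq_dimOf Y hU hy]
  refine dimOf_lt _ (finiteType_const Y hU) _ _ inferInstance inferInstance
    (lt_of_le_of_ne ((specializes_iff hU hx hy).mp h) fun e => hne ?_)
  exact (eq_of_prime_eq hU hx hy e).symm

/-- Dimension drops by one under specialisation of codimension one. -/
theorem pointDim_add_one (Y : SmProjVar K) {x y : Y.toOver.left} (h : x ⤳ y) (hne : y ≠ x)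
    (hb : ∀ t : Y.toOver.left, x ⤳ t → t ⤳ y → t = x ∨ t = y) :
    Y.pointDim y + 1 = Y.pointDim x := by
  obtain ⟨U, hU, hy⟩ := exists_affine Y y
  have hx := mem_of_specializes h hy
  rw [pointDim_eq_dimOf Y hU hx, pointDim_eq_dimOf Y hU hy]
  refine dimOf_add_one _ (finiteType_const Y hU) _ _ inferInstance inferInstance
    (lt_of_le_of_ne ((specializes_iff hU hx hy).mp h) fun e => hne ?_) ?_
  · exact (eq_of_prime_eq hU hx hy e).symm
  · intro 𝔯 h𝔯 h1 h2
    obtain ⟨t, ht, rfl⟩ := exists_pt hU 𝔯 h𝔯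
    rcases hb t ((specializes_iff hU hx ht).mpr h1) ((specializes_iff hU ht hy).mpr h2) with
      rfl | rfl
    · exact Or.inl rfl
    · exact Or.inr rfl

end Points

variable {F K : Type u} [Field F] [Field K] [Algebra F K] {M₀ : SmProjVar F} {r : ℕ} {I : Type}
  [Fintype I]

/-- The prime ideal of a point of the inverse image of an affine open subset contracts to the
prime ideal of the image. -/
lemma comap_pb {Z Z' : Scheme.{u}} (f : Z ⟶ Z') {V : Z'.Opens} (hV : IsAffineOpen V)
    (hU : IsAffineOpen (f ⁻¹ᵁ V)) {x : Z} (hx : x ∈ f ⁻¹ᵁ V) :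
    (hU.primeIdealOf ⟨x, hx⟩).asIdeal.comap (pb f V) =
      (hV.primeIdealOf ⟨f x, hx⟩).asIdeal := by
  have := congrArg PrimeSpectrum.asIdeal
    (IsAffineOpen.comap_primeIdealOf_appLE (f := f) V hV (f ⁻¹ᵁ V) hU le_rfl hx)
  rw [← Scheme.Hom.app_eq_appLE] at this
  exact this

theorem local_package {S : Sections M₀ r I} (hsep : Separates S) {a : I → K}
    (ha : AlgebraicIndependent F a) [Normal (IntermediateField.adjoin F (Set.range a)) K]
    {X : SmProjVar K} {π : X.toOver.left ⟶ M₀.toOver.left} [IsAffineHom π]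
    (hX : IsZeroLocus S a X π) (x : (M₀.prod M₀).toOver.left)
    (hx : x ∉ Set.range (diag M₀).left) :
    ∃ lev : (X.prod X).toOver.left → ℕ, ∀ y : (X.prod X).toOver.left,
      theta π hX.w y = x →
        (lev y = 0 → (X.prod X).pointDim y + 2 * r = (M₀.prod M₀).pointDim x ∧
          ∀ y' : (X.prod X).toOver.left, theta π hX.w y' = x →
            ((X.prod X).pointDim y' = (X.prod X).pointDim y →
              ∃ g ∈ galGroup (F := F) a π, (Desc.sq g).sch y = y') ∧ (y' ⤳ y → y' = y)) ∧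
        (lev y ≠ 0 → ∃ D : QCycles (X.prod X), IsDivisor (X.prod X) D ∧ 0 < D.coeff y ∧
          (∀ g ∈ galGroup (F := F) a π, 0 ≤ D.coeff ((Desc.sq g).sch y)) ∧
          ∀ y' : (X.prod X).toOver.left, D.coeff y' ≠ 0 →
            (X.prod X).pointDim y' = (X.prod X).pointDim y ∧ x ⤳ theta π hX.w y' ∧
              (theta π hX.w y' = x → (∃ g ∈ galGroup (F := F) a π, (Desc.sq g).sch y = y') ∨
                lev y' < lev y)) := by
  obtain ⟨V, hV, hxV, hU, n, e, L, ρ, hn, hρC, hρX, hLC, hp⟩ := exists_chart hsep hX x hx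
  let θ := theta π hX.w
  let Y := X.prod X
  let N := M₀.prod M₀
  let U : Y.toOver.left.Opens := θ ⁻¹ᵁ V
  have hφ : (const N.toOver.hom V).FiniteType := finiteType_const N hV
  have hκ : (const Y.toOver.hom U).FiniteType := finiteType_const Y hU
  obtain ⟨gd, inc, tr, dm⟩ := alg_package (const N.toOver.hom V) hφ a ha (pb θ V)
    (const Y.toOver.hom U) e L ρ hρC hρX hLC hp
  obtain ⟨lv, hlv⟩ := exists_level (const N.toOver.hom V) hφ n
  -- the prime ideals
  let Q : ∀ y : Y.toOver.left, y ∈ U → Ideal Γ(Y.toOver.left, U) := fun y hy =>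
    (hU.primeIdealOf ⟨y, hy⟩).asIdeal
  have hQ : ∀ y hy, (Q y hy).IsPrime := fun y hy => (hU.primeIdealOf ⟨y, hy⟩).isPrime
  have hQρ : ∀ y hy, ((Q y hy).comap ρ).IsPrime := fun y hy => by
    have := hQ y hy
    exact Ideal.comap_isPrime ρ (Q y hy)
  have hQC : ∀ y hy, ((Q y hy).comap ρ).comap MvPolynomial.C =
      (hV.primeIdealOf ⟨θ y, hy⟩).asIdeal := by
    intro y hy
    rw [Ideal.comap_comap, hρC]
    exact comap_pb θ hV hU hy
  have hft : ((MvPolynomial.C (σ := Fin n)).comp (const N.toOver.hom V)).FiniteType := by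
    refine RingHom.FiniteType.comp ?_ hφ
    rw [← MvPolynomial.algebraMap_eq, RingHom.finiteType_algebraMap]
    infer_instance
  have hdim : ∀ y hy, Y.pointDim y + Fintype.card I =
      dimOf ((MvPolynomial.C (σ := Fin n)).comp (const N.toOver.hom V)) ((Q y hy).comap ρ) := by
    intro y hy
    rw [pointDim_eq_dimOf Y hU hy]
    exact dm (Q y hy) (hQ y hy)
  -- points with the same prime ideal of the polynomial ring are conjugate
  have hconj : ∀ y y' (hy : y ∈ U) (hy' : y' ∈ U), (Q y hy).comap ρ = (Q y' hy').comap ρ →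
      ∃ g ∈ galGroup (F := F) a π, (Desc.sq g).sch y = y' := by
    intro y y' hy hy' h
    obtain ⟨σ, hσ1, hσ2, hσ3⟩ := tr (Q y hy) (Q y' hy') (hQ _ _) (hQ _ _) h
    obtain ⟨g, hg, hgσ⟩ := exists_semiAut hX σ hσ1 hσ2
    refine ⟨g, hg, ?_⟩
    obtain ⟨τ, hτ1, hτ2, hτ3⟩ := comap_sq a π hX.w g hg V hU
    obtain ⟨hgy, hτ4⟩ := hτ3 y hy
    have h5 := hσ3 (τ : _ →+* _) hτ1 (fun z => by
      have := hτ2 z
      rw [hgσ] at this
      exact this)
    exact eq_of_prime_eq hU hgy hy' (hτ4.symm.trans h5)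
  classical
  refine ⟨fun y => if h : y ∈ U then lv ((Q y h).comap ρ) else 0, fun y hyx => ?_⟩
  have hy : y ∈ U := by
    change θ y ∈ V
    rw [show θ y = x from hyx]
    exact hxV
  have hQx : ∀ y' (hy' : y' ∈ U), θ y' = x → ((Q y' hy').comap ρ).comap MvPolynomial.C =
      (hV.primeIdealOf ⟨x, hxV⟩).asIdeal := by
    intro y' hy' h
    rw [hQC]
    subst h
    rfl
  have hxU : ∀ y', θ y' = x → y' ∈ U := by
    intro y' h
    change θ y' ∈ V
    rw [h]
    exact hxV
  simp only [dif_pos hy]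
  obtain ⟨h0, h1⟩ := hlv ((Q y hy).comap ρ) (hQρ y hy)
  refine ⟨fun hl => ?_, fun hl => ?_⟩
  · -- generic points of the fibre
    have h2 := h0 hl
    rw [hQx y hy hyx] at h2
    have hprime : (hV.primeIdealOf ⟨x, hxV⟩).asIdeal.IsPrime := (hV.primeIdealOf ⟨x, hxV⟩).isPrime
    refine ⟨?_, fun y' hy'x => ?_⟩
    · have h3 := hdim y hy
      rw [h2, dimOf_map_mvC _ hφ n _ hprime, ← pointDim_eq_dimOf N hV hxV] at h3
      change Y.pointDim y + 2 * r = N.pointDim x
      omega
    · have hy' := hxU y' hy'x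
      have h4 : (Q y hy).comap ρ ≤ (Q y' hy').comap ρ := by
        rw [h2, Ideal.map_le_iff_le_comap, hQx y' hy' hy'x]
      refine ⟨fun hd => ?_, fun hs => ?_⟩
      · refine hconj y y' hy hy' ?_
        by_contra hne
        have h5 := dimOf_lt _ hft _ _ (hQρ y hy) (hQρ y' hy') (lt_of_le_of_ne h4 hne)
        have h6 : Y.pointDim y' + Fintype.card I < Y.pointDim y + Fintype.card I := by
          rw [hdim y' hy', hdim y hy]
          exact h5
        change Y.pointDim y' = Y.pointDim y at hd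
        omega
      · have h6 : Q y' hy' ≤ Q y hy := (specializes_iff hU hy' hy).mp hs
        have h7 : (Q y' hy').comap ρ = (Q y hy).comap ρ := le_antisymm (Ideal.comap_mono h6) h4
        exact eq_of_prime_eq hU hy' hy (inc _ _ (hQ _ _) (hQ _ _) h6 h7)
  · -- the other points
    obtain ⟨𝔭', hp1, hp2, hp3, hp4, b, hb1, hb2, hb3⟩ := h1 hl
    obtain ⟨𝔔', hq1, hq2, hq3⟩ := gd 𝔭' (Q y hy) hp1 (hQ y hy) hp2
    obtain ⟨y₀, hy₀, hq4⟩ := exists_pt hU 𝔔' hq1
    have hq5 : Q y₀ hy₀ = 𝔔' := hq4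
    have hθy₀ : θ y₀ = x := by
      refine eq_of_prime_eq hV hy₀ hxV ?_
      rw [← hQx y hy hyx, ← hp3, ← hq3, ← hq5]
      exact (hQC y₀ hy₀).symm
    have hd0 : Y.pointDim y₀ = Y.pointDim y + 1 := by
      have h2 := hdim y₀ hy₀
      have h3 := hdim y hy
      rw [hq5, hq3, hp4] at h2
      omega
    have hsp : y₀ ⤳ y := (specializes_iff hU hy₀ hy).mpr (by rw [hq4]; exact hq2)
    have hne : y ≠ y₀ := by
      intro h
      rw [h] at hd0
      omega
    have hbtw : ∀ t : Y.toOver.left, y₀ ⤳ t → t ⤳ y → t = y₀ ∨ t = y := by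
      intro t ht1 ht2
      by_contra! hcon
      have h2 := pointDim_lt Y ht1 hcon.1
      have h3 := pointDim_lt Y ht2 (Ne.symm hcon.2)
      omega
    have hbas : y₀ ∈ Y.toOver.left.basicOpen (ρ b) := by
      by_contra h
      rw [← mem_primeIdealOf_iff hU hy₀, hq4, ← Ideal.mem_comap, hq3] at h
      exact hb2 h
    have hbasy : y ∉ Y.toOver.left.basicOpen (ρ b) := by
      rw [← mem_primeIdealOf_iff hU hy]
      exact hb1
    obtain ⟨D, hD1, hD2, hD3, hD4⟩ := exists_divisor Y U hU y₀ (ρ b) hbas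
    refine ⟨D, hD1, hD4 y hy hsp hne hbtw hbasy, fun g hg => ?_, fun y' hy'D => ?_⟩
    · refine (hD3 _ ?_).1
      change θ ((Desc.sq g).sch y) ∈ V
      have h2 : θ ((Desc.sq g).sch y) = θ y := by
        rw [← Scheme.Hom.comp_apply]
        rw [theta_sq a π hX.w g hg]
      rw [h2, show θ y = x from hyx]
      exact hxV
    · obtain ⟨h2, h3, h4⟩ := hD2 y' hy'D
      have h5 := pointDim_add_one Y h2 h3 h4
      refine ⟨?_, ?_, fun hy'x => ?_⟩
      · change Y.pointDim y' = Y.pointDim y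
        omega
      · rw [← hθy₀]
        exact h2.map θ.continuous
      · have hy' := hxU y' hy'x
        have h6 : y' ∉ Y.toOver.left.basicOpen (ρ b) := (hD3 y' hy').2 hy'D
        rw [← mem_primeIdealOf_iff hU hy'] at h6
        have h7 := hb3 ((Q y' hy').comap ρ) (hQρ y' hy') (by
          rw [← hq3, ← hq5]
          exact Ideal.comap_mono ((specializes_iff hU hy₀ hy').mp h2)) h6 (by
          rw [← hdim y' hy', ← hq3, ← hq5, ← hdim y₀ hy₀]
          omega)
        rcases h7 with h7 | h7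
        · exact Or.inl (hconj y y' hy hy' h7.symm)
        · right
          rw [dif_pos hy']
          exact h7

end

end Pool.Agent.Helper47.Spread
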