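import Mathlib
import Pool.Agent.Helper47.Spread.Local
import Pool.Agent.Helper47.Spread.E2
import Pool.Agent.Helper47.Spread.E5
import Pool.Agent.Helper47.Spread.E6
import Pool.Agent.Helper47.Spread.E7
import Pool.Agent.Helper47.Spread.E8
import Pool.Agent.Helper47.Spread.E9
import Pool.Agent.Helper47.Spread.H2
import Pool.Agent.Helper47.Spread.H3

/-!
# Invariant correspondences on the zero locus of a generic section
-/

universe u v w

open CategoryTheory AlgebraicGeometry Limits

namespace Pool.Agent.Helper47.Spread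

open Pool.Agent.Helper10 Pool.Agent.Helper10.SmProjVar Pool.Agent.Helper47.Chow
open Pool.Agent.Helper47.Desc

noncomputable section

variable {F K : Type u} [Field F] [Field K] [Algebra F K] {M₀ : SmProjVar F} {r : ℕ} {I : Type}
  [Fintype I] {L : Type v} [Field L] [CharZero L] {W : WeilCohomology.{u, v, w} K L}

lemma isNoetherian_toOver {k : Type u} [Field k] (Y : SmProjVar k) :
    AlgebraicGeometry.IsNoetherian Y.toOver.left := by
  have h1 : IsLocallyNoetherian Y.toOver.left :=
    LocallyOfFiniteType.isLocallyNoetherian Y.toOver.hom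
  have h2 : CompactSpace Y.toOver.left :=
    (quasiCompact_iff_compactSpace Y.toOver.hom).mp inferInstance
  exact ⟨⟩

lemma isAffineHom_specMap : IsAffineHom (specMap F K) := by
  unfold specMap
  infer_instance

lemma isAffineHom_comp {M X : SmProjVar K} (pM : M.toOver.left ⟶ M₀.toOver.left)
    (hM : IsPullback pM M.toOver.hom M₀.toOver.hom (specMap F K)) (j : X.toOver ⟶ M.toOver)
    [IsClosedImmersion j.left] : IsAffineHom (j.left ≫ pM) := by
  have h1 : IsAffineHom (specMap F K) := isAffineHom_specMap
  have h2 : IsAffineHom pM := MorphismProperty.of_isPullback (P := @IsAffineHom) hM.flip h1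
  infer_instance

lemma sqHom_theta {M X : SmProjVar K} (pM : M.toOver.left ⟶ M₀.toOver.left)
    (w : pM ≫ M₀.toOver.hom = M.toOver.hom ≫ specMap F K) (j : X.toOver ⟶ M.toOver)
    (w' : (j.left ≫ pM) ≫ M₀.toOver.hom = X.toOver.hom ≫ specMap F K) :
    (sqHom j).left ≫ theta pM w = theta (j.left ≫ pM) w' := by
  have h1 : (sqHom j).left ≫ (fst M M).left = (fst X X).left ≫ j.left := by
    rw [← Over.comp_left, ← Over.comp_left]
    unfold sqHom
    rw [lift_fst]
  have h2 : (sqHom j).left ≫ (snd M M).left = (snd X X).left ≫ j.left := by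
    rw [← Over.comp_left, ← Over.comp_left]
    unfold sqHom
    rw [lift_snd]
  apply hom_ext_sch
  · rw [Category.assoc, theta_fst, theta_fst, ← Category.assoc, h1, Category.assoc]
  · rw [Category.assoc, theta_snd, theta_snd, ← Category.assoc, h2, Category.assoc]

lemma theta_sq_apply {X : SmProjVar K} (a : I → K) (π : X.toOver.left ⟶ M₀.toOver.left)
    (w : π ≫ M₀.toOver.hom = X.toOver.hom ≫ specMap F K) (g : SemiAut X)
    (hg : g ∈ galGroup (F := F) a π) (y : (X.prod X).toOver.left) :
    theta π w ((Desc.sq g).sch y) = theta π w y := by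
  rw [← Scheme.Hom.comp_apply, theta_sq a π w g hg]

lemma sqHom_theta_apply {M X : SmProjVar K} (pM : M.toOver.left ⟶ M₀.toOver.left)
    (w : pM ≫ M₀.toOver.hom = M.toOver.hom ≫ specMap F K) (j : X.toOver ⟶ M.toOver)
    (w' : (j.left ≫ pM) ≫ M₀.toOver.hom = X.toOver.hom ≫ specMap F K)
    (y : (X.prod X).toOver.left) :
    theta pM w ((sqHom j).left y) = theta (j.left ≫ pM) w' y := by
  rw [← Scheme.Hom.comp_apply, sqHom_theta pM w j w']

lemma sq_inv_eq {X : SmProjVar K} (g : SemiAut X) : (Desc.sq g)⁻¹ = Desc.sq g⁻¹ := by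
  rw [inv_eq_iff_mul_eq_one, ← sq_mul, mul_inv_cancel, sq_one]

/-- The class of the diagonal is invariant. -/
lemma chow_Δ {C : ChowTheory W} (hC : IsEquivariant C) {X : SmProjVar K} (g : SemiAut X) :
    (Desc.sq g).chow (C.Δ X) = C.Δ X := by
  have := congrArg Subtype.val (map_one (corrAut hC g))
  exact this

lemma good_stable {C : ChowTheory W} (hC : IsEquivariant C) {M X : SmProjVar K}
    (pM : M.toOver.left ⟶ M₀.toOver.left)
    (hM : IsPullback pM M.toOver.hom M₀.toOver.hom (specMap F K)) (j : X.toOver ⟶ M.toOver)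
    (a : I → K) (g : SemiAut X) (hg : g ∈ galGroup (F := F) a (j.left ≫ pM))
    (γ : CH (X.prod X)) (hγ : γ ∈ good C j) : (Desc.sq g).chow γ ∈ good C j := by
  obtain ⟨h, hb, hc⟩ := exists_semiAut_base pM hM j a g hg
  unfold good at hγ ⊢
  refine Submodule.span_induction (p := fun γ _ => (Desc.sq g).chow γ ∈ Submodule.span ℚ
    ({C.Δ X} ∪ {γ | ∃ z ∈ CHi (M.prod M) X.dim, γ = C.ops.pull (sqHom j) z})) ?_ ?_ ?_ ?_ hγ
  · rintro γ (rfl | ⟨z, hz, rfl⟩)
    · rw [chow_Δ hC]
      exact Submodule.subset_span (Or.inl rfl)
    · rw [hC.pull (Desc.sq g) h (sqHom j) hb hc]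
      exact Submodule.subset_span (Or.inr ⟨_, chow_mem h _ _ hz, rfl⟩)
  · rw [map_zero]
    exact Submodule.zero_mem _
  · intro x y _ _ hx hy
    rw [map_add]
    exact Submodule.add_mem _ hx hy
  · intro q x _ hx
    rw [map_smul]
    exact Submodule.smul_mem _ _ hx

lemma point_coeff_self {Y : SmProjVar K} (x : Y.Pt) :
    (QCycles.point x : QCycles Y).coeff x = 1 := Finsupp.single_eq_same

lemma point_coeff {Y : SmProjVar K} (x y : Y.Pt) :
    (QCycles.point x : QCycles Y).coeff y = 0 ∨ y = x := by
  classical
  by_cases h : y = x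
  · exact Or.inr h
  · exact Or.inl (Finsupp.single_eq_of_ne h)

lemma ptCls_mem_CHi' {Y : SmProjVar K} {i : ℕ} (t : Y.toOver.left)
    (h : Y.pointDim t + i = Y.dim) : ptCls Y t ∈ CHi Y i := by
  refine ⟨QCycles.point t, fun y hy => ?_, rfl⟩
  rcases point_coeff t y with h1 | h1
  · exact absurd h1 hy
  · rw [h1]
    exact h

/-- The action of the group on the points of `X × X`. -/
def sqPi {X : SmProjVar K} (G : Subgroup (SemiAut X)) : G →* SemiAut (X.prod X) where
  toFun g := Desc.sq g.1
  map_one' := sq_one
  map_mul' g h := sq_mul g.1 h.1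

/-- **Spreading.** Invariant correspondences on the zero locus of a generic section are
combinations of the diagonal and of restrictions of correspondences on the ambient variety. -/
theorem mem_good {S : Sections M₀ r I} (hsep : Separates S) {a : I → K}
    (ha : AlgebraicIndependent F a) [Normal (IntermediateField.adjoin F (Set.range a)) K]
    {M X : SmProjVar K} (pM : M.toOver.left ⟶ M₀.toOver.left)
    (hM : IsPullback pM M.toOver.hom M₀.toOver.hom (specMap F K)) (j : X.toOver ⟶ M.toOver)
    [IsClosedImmersion j.left] (hX : IsZeroLocus S a X (j.left ≫ pM)) (hdim : M.dim = X.dim + r)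
    {C : ChowTheory W} (hC : IsEquivariant C) (hS : HasSupport C) (γ : CH (X.prod X))
    (hγ : γ ∈ CHi (X.prod X) X.dim)
    (hinv : ∀ g ∈ galGroup (F := F) a (j.left ≫ pM), (Desc.sq g).chow γ = γ) :
    γ ∈ good C j := by
  classical
  have hA : IsAffineHom (j.left ≫ pM) := isAffineHom_comp pM hM j
  let π := j.left ≫ pM
  let G := galGroup (F := F) a π
  let θ := theta π hX.w
  let Y := X.prod X
  let N := M₀.prod M₀
  have hNn : AlgebraicGeometry.IsNoetherian N.toOver.left := isNoetherian_toOver N
  let lev : N.toOver.left → Y.toOver.left → ℕ := fun x =>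
    if hx : x ∉ Set.range (diag M₀).left then
      Classical.choose (local_package hsep ha hX x hx) else fun _ => 0
  have hlev : ∀ x (hx : x ∉ Set.range (diag M₀).left), lev x =
      Classical.choose (local_package hsep ha hX x hx) := fun x hx => dif_pos hx
  have hwf := wellFounded_rel (fun y : Y.toOver.left => θ y) lev
  obtain ⟨z, hz, rfl⟩ := hγ
  refine orbit_induction (sqPi G) (fun y => finiteOrbits_galGroup hX y) (good C j)
    (fun g γ hγ => good_stable hC pM hM j a g.1 g.2 γ hγ) X.dim _ hwf ?_ z ?_
    (fun g => hinv g.1 g.2)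
  · intro y hy
    by_cases hx : θ y ∈ Set.range (diag M₀).left
    · -- the diagonal
      have h1 := mem_range_diag hX y hx
      refine ⟨QCycles.point y, ?_, ?_, fun g => ?_, fun y' hy' => ?_⟩
      · have h2 := ptCls_mem_span_diag C X y h1 hy
        exact Submodule.span_mono Set.subset_union_left h2
      · rw [point_coeff_self]
        exact one_pos
      · rcases point_coeff y ((sqPi G g).pt y) with h | h
        · rw [h]
        · rw [h, point_coeff_self]
          exact zero_le_one
      · rcases point_coeff y y' with h | h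
        · exact absurd h hy'
        · rw [h]
          refine ⟨hy, Or.inl ⟨1, ?_⟩⟩
          rw [map_one]
          exact SemiAut.pt_one y
    · -- outside the diagonal
      have hch := Classical.choose_spec (local_package hsep ha hX (θ y) hx)
      rw [← hlev (θ y) hx] at hch
      obtain ⟨h0, h1⟩ := hch y rfl
      by_cases hl : lev (θ y) y = 0
      · obtain ⟨h2, h3⟩ := h0 hl
        obtain ⟨t, ht1, ht2, ht3⟩ := exists_generization (theta pM hM.w) (isPullback_prod pM hM)
          ((sqHom j).left y)
        have hst : ∀ y' : Y.toOver.left, theta pM hM.w ((sqHom j).left y') = θ y' :=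
          fun y' => sqHom_theta_apply pM hM.w j hX.w y'
        replace ht2 : theta pM hM.w t = θ y := ht2.trans (hst y)
        replace ht3 : (M.prod M).pointDim t = N.pointDim (θ y) :=
          ht3.trans (congrArg N.pointDim (hst y))
        obtain ⟨D, hD1, hD2, hD3⟩ := hS.pull_support (sqHom j) t
        have hdimM : (M.prod M).dim = M.dim + M.dim := rfl
        have hdimX : (X.prod X).dim = X.dim + X.dim := rfl
        have hpt : (M.prod M).pointDim t = X.dim + 2 * r := by
          rw [ht3]
          change (X.prod X).pointDim y + 2 * r = N.pointDim (θ y) at h2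
          rw [← h2, hy]
        have hstar : ∀ y' : Y.toOver.left, t ⤳ (sqHom j).left y' → θ y ⤳ θ y' := by
          intro y' h
          have h5 := h.map (theta pM hM.w).continuous
          rw [ht2, show theta pM hM.w ((sqHom j).left y') = θ y' from hst y'] at h5
          exact h5
        have hmin : ∀ g ∈ G, ∀ x' : Y.toOver.left, x' ⤳ (Desc.sq g).sch y →
            t ⤳ (sqHom j).left x' → x' = (Desc.sq g).sch y := by
          intro g hg x' hx'1 hx'2
          have h5 : θ ((Desc.sq g).sch y) = θ y := theta_sq_apply a π hX.w g hg y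
          have h6 : θ x' = θ y := by
            have h7 := hx'1.map θ.continuous
            rw [h5] at h7
            exact (h7.antisymm (hstar x' hx'2)).eq
          have h8 : (Desc.sq g)⁻¹.sch x' ⤳ y := by
            have h9 := hx'1.map (Desc.sq g)⁻¹.sch.continuous
            rwa [show (Desc.sq g)⁻¹.sch ((Desc.sq g).sch y) = y from
              SemiAut.pt_inv_pt (Desc.sq g) y] at h9
          have h10 : θ ((Desc.sq g)⁻¹.sch x') = θ y := by
            rw [← h6, sq_inv_eq]
            exact theta_sq_apply a π hX.w g⁻¹ (G.inv_mem hg) x'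
          have h12 := (h3 _ h10).2 h8
          rw [← h12]
          exact (SemiAut.pt_pt_inv (Desc.sq g) x').symm
        have hpos : ∀ g ∈ G, t ⤳ (sqHom j).left ((Desc.sq g).sch y) →
            0 < D.coeff ((Desc.sq g).sch y) := by
          intro g hg ht
          refine hD3 _ ht (hmin g hg) ?_
          have h5 : (X.prod X).pointDim ((Desc.sq g).sch y) = (X.prod X).pointDim y :=
            pointDim_pt (Desc.sq g) y
          rw [h5, hy, hpt]
          omega
        refine ⟨D, ?_, ?_, fun g => ?_, fun y' hy' => ?_⟩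
        · rw [hD1]
          refine Submodule.subset_span (Or.inr ⟨_, ?_, rfl⟩)
          refine ptCls_mem_CHi' t ?_
          omega
        · have h5 := hpos 1 G.one_mem
          rw [sq_one] at h5
          exact h5 ht1
        · by_cases h5 : D.coeff ((Desc.sq g.1).sch y) = 0
          · exact h5.ge
          · exact (hpos g.1 g.2 (hD2 _ h5).1).le
        · obtain ⟨h5, h6⟩ := hD2 y' hy'
          have h7 : (X.prod X).pointDim y' = X.dim := by omega
          refine ⟨h7, ?_⟩
          by_cases h8 : θ y' = θ y
          · obtain ⟨g, hg, h9⟩ := (h3 y' h8).1 (h7.trans hy.symm)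
            exact Or.inl ⟨⟨g, hg⟩, h9⟩
          · exact Or.inr (Or.inl ⟨hstar y' h5, h8⟩)
      · obtain ⟨D, hD1, hD2, hD3, hD4⟩ := h1 hl
        refine ⟨D, ?_, hD2, fun g => hD3 g.1 g.2, fun y' hy' => ?_⟩
        · have : cls (X.prod X) D = 0 := by
            exact (Submodule.Quotient.mk_eq_zero _).mpr (Submodule.subset_span hD1)
          rw [this]
          exact Submodule.zero_mem _
        · obtain ⟨h4, h5, h6⟩ := hD4 y' hy'
          refine ⟨h4.trans hy, ?_⟩
          by_cases h7 : θ y' = θ y
          · rcases h6 h7 with ⟨g, hg, h8⟩ | h8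
            · exact Or.inl ⟨⟨g, hg⟩, h8⟩
            · exact Or.inr (Or.inr ⟨h7, h8⟩)
          · exact Or.inr (Or.inl ⟨h5, h7⟩)
  · intro y hy
    have h1 := hz y hy
    have h2 : (X.prod X).dim = X.dim + X.dim := rfl
    omega

end

end Pool.Agent.Helper47.Spread
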