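import Mathlib
import Pool.Agent.Helper47.Spread.Main
import Pool.Agent.Helper11.Murre.Kunneth
import Pool.Agent.Helper11.Murre.S1

/-!
# Nilpotence for the zero loci of generic sections
-/

universe u v w

open CategoryTheory AlgebraicGeometry Limits

namespace Pool.Agent.Helper47.Spread

open Pool.Agent.Helper10 Pool.Agent.Helper10.SmProjVar Pool.Agent.Helper47.Chow
open Pool.Agent.Helper47.Desc Pool.Agent.Helper11.Murre

noncomputable section

variable {F K : Type u} [Field F] [Field K] [Algebra F K] {M₀ : SmProjVar F} {r : ℕ} {I : Type}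
  [Fintype I] {L : Type v} [Field L] [CharZero L] {W : WeilCohomology.{u, v, w} K L}

/-- The homologically trivial self-correspondences of degree zero of `M` form a nilpotent ring. -/
def NilRing (C : ChowTheory W) (M : SmProjVar K) : Prop :=
  ∃ N : ℕ, ∀ l : List (CH (M.prod M)), l.length = N →
    (∀ γ ∈ l, γ ∈ CHi (M.prod M) M.dim ∧ C.ops.cl _ γ = 0) → compList C M l = 0

/-- **Theorem.** The homologically trivial correspondences on the zero locus of a generic section
are nilpotent. -/
theorem nilHom_zeroLocus {S : Sections M₀ r I} (hsep : Separates S) {a : I → K}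
    (ha : AlgebraicIndependent F a) [Normal (IntermediateField.adjoin F (Set.range a)) K]
    {M X : SmProjVar K} (pM : M.toOver.left ⟶ M₀.toOver.left)
    (hM : IsPullback pM M.toOver.hom M₀.toOver.hom (specMap F K)) (j : X.toOver ⟶ M.toOver)
    [IsClosedImmersion j.left] (hX : IsZeroLocus S a X (j.left ≫ pM)) (hdim : M.dim = X.dim + r)
    {C : ChowTheory W} (hC : IsEquivariant C) (hS : HasSupport C) (hN : NilRing C M)
    (hvan : ∃ x : W.H X, x ∉ Set.range (W.pull j)) : NilHom C X := by
  have hA : IsAffineHom (j.left ≫ pM) := isAffineHom_comp pM hM j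
  refine nilHom_of_nilInv hC (galGroup (F := F) a (j.left ≫ pM)) (finiteOrbits_galGroup hX)
    (nilInv_of_good j _ ?_ hN hvan)
  intro γ hγ hinv
  exact mem_good hsep ha pM hM j hX hdim hC hS γ hγ hinv

end

end Pool.Agent.Helper47.Spread
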